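import Mathlib

set_option autoImplicit false

namespace Pool.Agent.Helper88.Comb

open Finset

/-- `(-1)^j C(h,j)` -/
def b (h j : ℕ) : ℚ := (-1) ^ j * (h.choose j : ℚ)

/-- generalised harmonic numbers -/
def H (s n : ℕ) : ℚ := ∑ i ∈ range n, 1 / ((i : ℚ) + 1) ^ s

/-- the transform -/
def T (c : ℕ → ℚ) (h : ℕ) : ℚ := ∑ j ∈ range h, b h (j + 1) * c j

lemma H_succ (s n : ℕ) : H s (n + 1) = H s n + 1 / ((n : ℚ) + 1) ^ s := by
  unfold H; rw [sum_range_succ]

@[simp] lemma H_zero (s : ℕ) : H s 0 = 0 := by simp [H]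

lemma b_zero (h : ℕ) : b h 0 = 1 := by simp [b]

lemma b_top (h : ℕ) : b h (h + 1) = 0 := by simp [b]

lemma b_succ (h j : ℕ) : b (h + 1) (j + 1) = b h (j + 1) - b h j := by
  unfold b
  rw [Nat.choose_succ_succ' h j]
  push_cast
  ring

lemma b_div (h j : ℕ) : b h j = -((j : ℚ) + 1) / ((h : ℚ) + 1) * b (h + 1) (j + 1) := by
  unfold b
  have h1 := Nat.add_one_mul_choose_eq h j
  have h2 : ((h : ℚ) + 1) * (h.choose j : ℚ) = ((h + 1).choose (j + 1) : ℚ) * ((j : ℚ) + 1) := by
    exact_mod_cast h1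
  have h3 : (h : ℚ) + 1 ≠ 0 := by positivity
  field_simp
  rw [pow_succ]
  linear_combination (-1 : ℚ) ^ j * h2

lemma T_succ (c : ℕ → ℚ) (h : ℕ) : T c (h + 1) = T c h - ∑ j ∈ range (h + 1), b h j * c j := by
  unfold T
  have : ∑ j ∈ range h, b h (j + 1) * c j = ∑ j ∈ range (h + 1), b h (j + 1) * c j := by
    rw [sum_range_succ, b_top]; ring
  rw [this, ← sum_sub_distrib]
  apply sum_congr rfl
  intro j _
  rw [b_succ]; ring

lemma T_div (d : ℕ → ℚ) (h : ℕ) : T (fun j => d j / ((j : ℚ) + 1)) (h + 1) =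
    T (fun j => d j / ((j : ℚ) + 1)) h + 1 / ((h : ℚ) + 1) * T d (h + 1) := by
  rw [T_succ]
  have : ∑ j ∈ range (h + 1), b h j * (d j / ((j : ℚ) + 1)) = - (1 / ((h : ℚ) + 1) * T d (h + 1)) := by
    unfold T
    rw [mul_sum, ← sum_neg_distrib]
    apply sum_congr rfl
    intro j _
    rw [b_div]
    have h3 : (h : ℚ) + 1 ≠ 0 := by positivity
    have h4 : (j : ℚ) + 1 ≠ 0 := by positivity
    field_simp
  rw [this]; ring

lemma sum_b (h : ℕ) : ∑ j ∈ range (h + 2), b (h + 1) j = 0 := by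
  unfold b
  have := Int.alternating_sum_range_choose_of_ne (n := h + 1) (by omega)
  have h2 : ((∑ m ∈ range (h + 1 + 1), (-1 : ℤ) ^ m * ((h + 1).choose m : ℤ) : ℤ) : ℚ) = 0 := by
    rw [this]; simp
  push_cast at h2
  exact h2

lemma T_one (h : ℕ) : T (fun _ => 1) (h + 1) = -1 := by
  unfold T
  have := sum_b h
  rw [sum_range_succ', b_zero] at this
  simp only [mul_one]
  linarith

lemma T_inv (h : ℕ) : T (fun j => 1 / ((j : ℚ) + 1)) h = - H 1 h := by
  induction h with
  | zero => simp [T]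
  | succ h ih =>
    rw [T_div (fun _ => 1) h, ih, T_one, H_succ]
    ring

lemma T_inv2 (h : ℕ) : T (fun j => 1 / ((j : ℚ) + 1) / ((j : ℚ) + 1)) h = - (H 1 h ^ 2 + H 2 h) / 2 := by
  induction h with
  | zero => simp [T]
  | succ h ih =>
    rw [T_div (fun j => 1 / ((j : ℚ) + 1)) h, ih, T_inv, H_succ, H_succ]
    have h3 : (h : ℚ) + 1 ≠ 0 := by positivity
    field_simp
    ring

/-- `∑_j (-1)^j C(h,j) H2 j` -/
lemma V_val (h : ℕ) : ∑ j ∈ range (h + 2), b (h + 1) j * H 2 j = - H 1 (h + 1) / ((h : ℚ) + 1) := by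
  rw [sum_range_succ']
  simp only [H_zero, mul_zero, add_zero]
  have e1 : ∀ j ∈ range (h + 1), b (h + 1) (j + 1) * H 2 (j + 1) =
      b h (j + 1) * H 2 (j + 1) - b h j * H 2 j - b h j * (1 / ((j : ℚ) + 1) ^ 2) := by
    intro j _
    rw [b_succ, H_succ]; ring
  rw [sum_congr rfl e1, sum_sub_distrib, sum_sub_distrib]
  have e2 : ∑ j ∈ range (h + 1), b h (j + 1) * H 2 (j + 1) = ∑ j ∈ range (h + 1), b h j * H 2 j := by
    have := sum_range_succ' (fun j => b h j * H 2 j) (h + 1)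
    simp only [H_zero, mul_zero, add_zero] at this
    rw [← this, sum_range_succ _ (h + 1), b_top]; ring
  have e3 : ∑ j ∈ range (h + 1), b h j * (1 / ((j : ℚ) + 1) ^ 2) =
      - (1 / ((h : ℚ) + 1)) * T (fun j => 1 / ((j : ℚ) + 1)) (h + 1) := by
    unfold T
    rw [mul_sum]
    apply sum_congr rfl
    intro j _
    rw [b_div]
    have h3 : (h : ℚ) + 1 ≠ 0 := by positivity
    have h4 : (j : ℚ) + 1 ≠ 0 := by positivity
    field_simp
  rw [e2, e3, T_inv]
  ring

lemma T_H2 (h : ℕ) : T (H 2) (h + 1) = (H 1 h ^ 2 + H 2 h) / 2 := by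
  induction h with
  | zero => simp [T]
  | succ h ih =>
    rw [T_succ, ih, V_val, H_succ, H_succ]
    have h3 : (h : ℚ) + 1 ≠ 0 := by positivity
    field_simp
    ring

lemma T_H2_div (h : ℕ) : T (fun j => H 2 j / ((j : ℚ) + 1)) h =
    ∑ n ∈ range h, (H 1 n ^ 2 + H 2 n) / (2 * ((n : ℚ) + 1)) := by
  induction h with
  | zero => simp [T]
  | succ h ih =>
    rw [T_div (H 2) h, ih, T_H2, sum_range_succ]
    have h3 : (h : ℚ) + 1 ≠ 0 := by positivity
    field_simp

/-- `∑_{i<j} 1/(h-i)` -/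
def Rr (h j : ℕ) : ℚ := ∑ i ∈ range j, 1 / ((h : ℚ) - i)

lemma Rr_succ (h j : ℕ) : Rr h (j + 1) = Rr h j + 1 / ((h : ℚ) - j) := by
  unfold Rr; rw [sum_range_succ]

lemma Rr_up (h j : ℕ) : Rr (h + 1) (j + 1) = 1 / ((h : ℚ) + 1) + Rr h j := by
  unfold Rr
  rw [sum_range_succ', add_comm]
  congr 1
  · simp
  · apply sum_congr rfl
    intro i _
    congr 1
    push_cast
    ring

/-- `∑_j (-1)^j C(n,j) Rr n j` -/
lemma P_val (n : ℕ) : ∑ j ∈ range (n + 2), b (n + 1) j * Rr (n + 1) j = (-1) ^ (n + 1) / ((n : ℚ) + 1) := by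
  have key : ∀ n : ℕ, ∑ j ∈ range (n + 1), b n j * Rr n j =
      if n = 0 then 0 else (-1) ^ n / (n : ℚ) := by
    intro n
    induction n with
    | zero => simp [Rr]
    | succ n ih =>
      rw [sum_range_succ']
      have e0 : Rr (n + 1) 0 = 0 := by simp [Rr]
      rw [e0, mul_zero, add_zero]
      have e1 : ∀ j ∈ range (n + 1), b (n + 1) (j + 1) * Rr (n + 1) (j + 1) =
          b (n + 1) (j + 1) * (1 / ((n : ℚ) + 1)) + b n (j + 1) * Rr n j - b n j * Rr n j := by
        intro j _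
        rw [Rr_up, b_succ]; ring
      rw [sum_congr rfl e1, sum_sub_distrib, sum_add_distrib, ih, ← sum_mul]
      have e2 : ∑ j ∈ range (n + 1), b (n + 1) (j + 1) = -1 := by
        have := T_one n
        unfold T at this
        simpa using this
      rw [e2]
      -- sum b n (j+1) * Rr n j
      have e3 : ∀ j ∈ range (n + 1), b n (j + 1) * Rr n j =
          b n (j + 1) * Rr n (j + 1) - (if j < n then b n (j + 1) / ((n : ℚ) - j) else 0) := by
        intro j hj
        rw [mem_range] at hj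
        rcases Nat.lt_or_ge j n with hlt | hge
        · rw [if_pos hlt, Rr_succ]; ring
        · have : j = n := by omega
          subst this
          rw [if_neg (by omega), b_top]; ring
      rw [sum_congr rfl e3, sum_sub_distrib]
      have e4 : ∑ j ∈ range (n + 1), b n (j + 1) * Rr n (j + 1) = ∑ j ∈ range (n + 1), b n j * Rr n j := by
        have h5 := sum_range_succ' (fun j => b n j * Rr n j) (n + 1)
        have e0' : Rr n 0 = 0 := by simp [Rr]
        simp only [e0', mul_zero, add_zero] at h5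
        rw [← h5, sum_range_succ _ (n + 1), b_top]; ring
      rw [e4, ih]
      have e6 : ∑ j ∈ range (n + 1), (if j < n then b n (j + 1) / ((n : ℚ) - j) else 0) =
          ∑ j ∈ range n, b (n + 1) (j + 1) / ((n : ℚ) + 1) := by
        rw [sum_range_succ, if_neg (by omega), add_zero]
        apply sum_congr rfl
        intro j hj
        rw [mem_range] at hj
        rw [if_pos hj]
        have hj' : (j : ℚ) < n := by exact_mod_cast hj
        have h6 : (n : ℚ) - j ≠ 0 := by intro h; linarith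
        have h7 : (n : ℚ) + 1 ≠ 0 := by positivity
        rw [div_eq_div_iff h6 h7]
        unfold b
        have h8 := Nat.choose_mul_succ_eq n (j + 1)
        have h9 : ((n + 1 - (j + 1) : ℕ) : ℚ) = (n : ℚ) - j := by
          have : n + 1 - (j + 1) = n - j := by omega
          rw [this, Nat.cast_sub (by omega)]
        have h10 : (n.choose (j + 1) : ℚ) * ((n : ℚ) + 1) = ((n + 1).choose (j + 1) : ℚ) * ((n : ℚ) - j) := by
          rw [← h9]; exact_mod_cast h8
        linear_combination (-1 : ℚ) ^ (j + 1) * h10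
      rw [e6, ← sum_div]
      have e7 : ∑ j ∈ range n, b (n + 1) (j + 1) = -1 - b (n + 1) (n + 1) := by
        have := e2
        rw [sum_range_succ] at this
        linarith
      rw [e7]
      have e8 : b (n + 1) (n + 1) = (-1) ^ (n + 1) := by simp [b]
      rw [e8, if_neg (Nat.succ_ne_zero n)]
      push_cast
      ring
  have := key (n + 1)
  rw [if_neg (Nat.succ_ne_zero n)] at this
  push_cast at this
  exact this

/-- `f1 h = ∑_{j<h} (-1)^{j+1} C(h,j+1) Rr h (j+1) / (j+1)` -/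
def f1 (h : ℕ) : ℚ := ∑ j ∈ range h, b h (j + 1) * Rr h (j + 1) / ((j : ℚ) + 1)

lemma f1_succ (h : ℕ) : f1 (h + 1) = f1 h + (1 + 2 * (-1) ^ (h + 1)) / ((h : ℚ) + 1) ^ 2 := by
  unfold f1
  have h3 : (h : ℚ) + 1 ≠ 0 := by positivity
  have e1 : ∀ j ∈ range (h + 1), b (h + 1) (j + 1) * Rr (h + 1) (j + 1) / ((j : ℚ) + 1) =
      b h (j + 1) * Rr (h + 1) (j + 1) / ((j : ℚ) + 1) +
        1 / ((h : ℚ) + 1) * (b (h + 1) (j + 1) * Rr (h + 1) (j + 1)) := by
    intro j _
    have h4 : (j : ℚ) + 1 ≠ 0 := by positivity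
    calc b (h + 1) (j + 1) * Rr (h + 1) (j + 1) / ((j : ℚ) + 1)
        = b h (j + 1) * Rr (h + 1) (j + 1) / ((j : ℚ) + 1) -
          b h j * Rr (h + 1) (j + 1) / ((j : ℚ) + 1) := by rw [b_succ]; ring
      _ = _ := by
        rw [b_div h j]
        field_simp
        ring
  rw [sum_congr rfl e1, sum_add_distrib, ← mul_sum]
  have e2 : ∑ j ∈ range (h + 1), b (h + 1) (j + 1) * Rr (h + 1) (j + 1) = (-1) ^ (h + 1) / ((h : ℚ) + 1) := by
    have := P_val h
    rw [sum_range_succ'] at this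
    have e0 : Rr (h + 1) 0 = 0 := by simp [Rr]
    rw [e0, mul_zero, add_zero] at this
    exact this
  rw [e2, sum_range_succ, b_top]
  have e3 : ∀ j ∈ range h, b h (j + 1) * Rr (h + 1) (j + 1) / ((j : ℚ) + 1) =
      b h (j + 1) * Rr h (j + 1) / ((j : ℚ) + 1) - 1 / ((h : ℚ) + 1) ^ 2 * b (h + 1) (j + 1) := by
    intro j hj
    rw [mem_range] at hj
    rw [Rr_up, Rr_succ]
    have hj' : (j : ℚ) < h := by exact_mod_cast hj
    have h6 : (h : ℚ) - j ≠ 0 := by intro h; linarith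
    have h4 : (j : ℚ) + 1 ≠ 0 := by positivity
    have h8 := Nat.choose_mul_succ_eq h (j + 1)
    have h9 : ((h + 1 - (j + 1) : ℕ) : ℚ) = (h : ℚ) - j := by
      have : h + 1 - (j + 1) = h - j := by omega
      rw [this, Nat.cast_sub (by omega)]
    have h10 : (h.choose (j + 1) : ℚ) * ((h : ℚ) + 1) = ((h + 1).choose (j + 1) : ℚ) * ((h : ℚ) - j) := by
      rw [← h9]; exact_mod_cast h8
    have h11 : b (h + 1) (j + 1) = b h (j + 1) * ((h : ℚ) + 1) / ((h : ℚ) - j) := by
      rw [eq_div_iff h6]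
      unfold b
      linear_combination (-1 : ℚ) ^ j * h10
    rw [h11]
    field_simp
    ring
  rw [sum_congr rfl e3, sum_sub_distrib, ← mul_sum]
  have e7 : ∑ j ∈ range h, b (h + 1) (j + 1) = -1 - (-1) ^ (h + 1) := by
    have := T_one h
    unfold T at this
    simp only [mul_one] at this
    rw [sum_range_succ] at this
    have e8 : b (h + 1) (h + 1) = (-1) ^ (h + 1) := by simp [b]
    rw [e8] at this
    linarith
  rw [e7]
  field_simp
  ring

lemma f1_val (h : ℕ) : f1 h = H 2 h + 2 * ∑ k ∈ range h, (-1) ^ (k + 1) / ((k : ℚ) + 1) ^ 2 := by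
  induction h with
  | zero => simp [f1]
  | succ h ih =>
    rw [f1_succ, ih, H_succ, sum_range_succ]
    ring

end Pool.Agent.Helper88.Comb
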