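import Mathlib
import Pool.Graph.R_seed8.R856.EulerZ

set_option autoImplicit false

namespace Pool.Agent.Helper88.EulerGF

open Finset PowerSeries Pool.Agent.R856

/-- the Euler numbers from their generating function `2/(e^t+e^(-t))` -/
noncomputable def euler (n : ℕ) : ℚ :=
  (n.factorial : ℚ) * coeff n (2 * (exp ℚ + evalNegHom (exp ℚ))⁻¹)

lemma coeff_sum (n : ℕ) : coeff n (exp ℚ + evalNegHom (exp ℚ)) = (1 + (-1) ^ n) / (n.factorial : ℚ) := by
  rw [map_add, evalNegHom, coeff_rescale, coeff_exp]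
  simp
  ring

lemma euler_eq (n : ℕ) : euler n = (eulerE n : ℚ) := by
  set Q : PowerSeries ℚ := exp ℚ + evalNegHom (exp ℚ) with hQ
  set P : PowerSeries ℚ := PowerSeries.mk fun n => (eulerE n : ℚ) / (n.factorial : ℚ) with hP
  have hc : constantCoeff Q ≠ 0 := by
    rw [← coeff_zero_eq_constantCoeff_apply, hQ, coeff_sum]
    norm_num
  have h2C : (2 : PowerSeries ℚ) = C (2 : ℚ) := (map_ofNat (C : ℚ →+* PowerSeries ℚ) 2).symm
  have hmul : P * Q = 2 := by
    ext n
    rw [coeff_mul]
    have e1 : ∀ x ∈ antidiagonal n, coeff x.1 P * coeff x.2 Q =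
        (1 / (n.factorial : ℚ)) * ((n.choose x.2 : ℚ) * (1 + (-1) ^ x.2) * (eulerE x.1 : ℚ)) := by
      intro x hx
      rw [HasAntidiagonal.mem_antidiagonal] at hx
      rw [hP, coeff_mk, hQ, coeff_sum]
      have h1 : ((n.choose x.2 : ℕ) : ℚ) = (n.factorial : ℚ) / ((x.2).factorial * (x.1).factorial) := by
        rw [Nat.cast_choose ℚ (show x.2 ≤ n by omega), show n - x.2 = x.1 by omega]
      rw [h1]
      have f1 : (n.factorial : ℚ) ≠ 0 := by exact_mod_cast n.factorial_ne_zero
      have f2 : (x.1.factorial : ℚ) ≠ 0 := by exact_mod_cast x.1.factorial_ne_zero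
      have f3 : (x.2.factorial : ℚ) ≠ 0 := by exact_mod_cast x.2.factorial_ne_zero
      field_simp
    rw [sum_congr rfl e1, ← mul_sum, Nat.sum_antidiagonal_eq_sum_range_succ_mk]
    rw [← sum_range_reflect]
    simp only [Nat.succ_sub_one, Nat.succ_eq_add_one]
    have e2 : ∀ k ∈ range (n + 1), (n.choose (n - (n - k)) : ℚ) * (1 + (-1) ^ (n - (n - k))) * (eulerE (n - k) : ℚ) =
        2 * (if k % 2 = 0 then (n.choose k : ℚ) * (eulerE (n - k) : ℚ) else 0) := by
      intro k hk
      rw [mem_range] at hk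
      rw [show n - (n - k) = k by omega]
      rcases Nat.even_or_odd k with h | h
      · rw [if_pos (Nat.even_iff.mp h), h.neg_one_pow]; ring
      · rw [if_neg (by rw [Nat.odd_iff.mp h]; norm_num), h.neg_one_pow]; ring
    rw [sum_congr rfl e2, ← mul_sum, ← sum_filter]
    rcases Nat.eq_zero_or_pos n with h0 | hpos
    · subst h0
      rw [h2C, coeff_C]
      simp [eulerE_zero, sum_filter]
    · have h3 := eulerE_rec n hpos
      have h4 : (∑ k ∈ (range (n + 1)).filter (fun k => k % 2 = 0), (n.choose k : ℚ) * (eulerE (n - k) : ℚ)) = 0 := by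
        exact_mod_cast h3
      rw [h4]
      rw [h2C, coeff_C, if_neg (by omega)]
      ring
  have hinv : 2 * Q⁻¹ = P := by
    rw [← hmul, mul_assoc, PowerSeries.mul_inv_cancel _ hc, mul_one]
  unfold euler
  rw [← hQ, hinv, hP, coeff_mk]
  have f1 : (n.factorial : ℚ) ≠ 0 := by exact_mod_cast n.factorial_ne_zero
  field_simp

end Pool.Agent.Helper88.EulerGF
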