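import Mathlib

set_option autoImplicit false

namespace Pool.Agent.Helper88.Sq

open Finset

/-- `C(2j,j)/4^j` -/
def c (j : ℕ) : ℚ := (Nat.centralBinom j : ℚ) / 4 ^ j

/-- `(x)_j (1-x)_j / j!^2` -/
def psi (x : ℚ) (j : ℕ) : ℚ := ∏ i ∈ range j, (((i : ℚ) + x) * ((i : ℚ) + 1 - x) / ((i : ℚ) + 1) ^ 2)

/-- `(1/2)_j (x)_j (1-x)_j / j!^3` -/
def F (x : ℚ) (j : ℕ) : ℚ := c j * psi x j

lemma c_zero : c 0 = 1 := by simp [c]

lemma c_succ (j : ℕ) : c (j + 1) = c j * ((2 * (j : ℚ) + 1) / (2 * ((j : ℚ) + 1))) := by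
  unfold c
  have h := Nat.succ_mul_centralBinom_succ j
  have h' : ((j : ℚ) + 1) * (Nat.centralBinom (j + 1) : ℚ) = 2 * (2 * j + 1) * (Nat.centralBinom j : ℚ) := by
    exact_mod_cast h
  have h3 : (j : ℚ) + 1 ≠ 0 := by positivity
  rw [pow_succ]
  field_simp
  linear_combination 2 * h'

lemma psi_zero (x : ℚ) : psi x 0 = 1 := by simp [psi]

lemma psi_succ (x : ℚ) (j : ℕ) : psi x (j + 1) =
    psi x j * (((j : ℚ) + x) * ((j : ℚ) + 1 - x) / ((j : ℚ) + 1) ^ 2) := by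
  unfold psi; rw [prod_range_succ]

lemma F_zero (x : ℚ) : F x 0 = 1 := by simp [F, c_zero, psi_zero]

lemma F_succ (x : ℚ) (j : ℕ) : F x (j + 1) =
    F x j * ((2 * (j : ℚ) + 1) * ((j : ℚ) + x) * ((j : ℚ) + 1 - x) / (2 * ((j : ℚ) + 1) ^ 3)) := by
  unfold F
  rw [c_succ, psi_succ]
  have h3 : (j : ℚ) + 1 ≠ 0 := by positivity
  field_simp

lemma psi_symm (x : ℚ) (j : ℕ) : psi (1 - x) j = psi x j := by
  unfold psi
  apply prod_congr rfl
  intro i _
  congr 1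
  ring

lemma psi_shift (x : ℚ) (j : ℕ) : psi (x + 2) j * ((x + 1 - j) * (x - j)) =
    psi x j * ((x + j) * (x + j + 1)) := by
  induction j with
  | zero => simp [psi_zero]; ring
  | succ j ih =>
    rw [psi_succ, psi_succ]
    have h3 : (j : ℚ) + 1 ≠ 0 := by positivity
    push_cast
    field_simp
    linear_combination (-1) * ((j : ℚ) + x + 2) * (x - 1 - j) * ih

lemma F_shift (x : ℚ) (j : ℕ) : F (x + 2) j * ((x + 1 - j) * (x - j)) =
    F x j * ((x + j) * (x + j + 1)) := by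
  unfold F
  have := psi_shift x j
  linear_combination c j * this

lemma tele_aux (z J f : ℚ) (hz : z ≠ 0) (hz1 : z + 1 ≠ 0) (hJ : J + 1 ≠ 0) :
    (2 * (z + J + 1) + 1) * (2 * J + 1) * (z + J + 1 + J) * f / (z + 1) +
      ((z + J + 1 + 1) ^ 2 * (f * ((2 * J + 1) * (J + (z + J + 1)) * (-z) / (2 * (J + 1) ^ 3)) *
        ((z + J + 1 + (J + 1)) * (z + J + 1 + (J + 1) + 1)) / ((z + 1) * z)) -
      (z + J + 1) ^ 2 * (f * ((2 * J + 1) * (J + (z + J + 1)) * (-z) / (2 * (J + 1) ^ 3)))) =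
    (2 * (z + J + 1) + 1) * (2 * (J + 1) + 1) * (z + J + 1 + (J + 1)) *
      (f * ((2 * J + 1) * (J + (z + J + 1)) * (-z) / (2 * (J + 1) ^ 3))) / z := by
  field_simp
  ring

/-- partial telescoping -/
lemma tele (x : ℚ) (J : ℕ) (hx : ∀ j : ℕ, j ≤ J → x - j ≠ 0 ∧ x + 1 - j ≠ 0) :
    ∑ j ∈ range (J + 1), ((x + 1) ^ 2 * F (x + 2) j - x ^ 2 * F x j) =
      (2 * x + 1) * (2 * J + 1) * (x + J) * F x J / (x - J) := by
  induction J with
  | zero =>
    have := (hx 0 le_rfl).1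
    simp only [Nat.cast_zero, sub_zero, zero_add, sum_range_one, F_zero] at this ⊢
    field_simp
    ring
  | succ J ih =>
    rw [sum_range_succ, ih (fun j hj => hx j (by omega))]
    have h1 := (hx J (by omega)).1
    have h2 := (hx (J + 1) (by omega)).1
    have hs := F_shift x (J + 1)
    rw [F_succ x J] at hs ⊢
    generalize F x J = f at *
    obtain ⟨z, rfl⟩ : ∃ z, x = z + J + 1 := ⟨x - J - 1, by ring⟩
    push_cast at h2 hs ⊢
    have e1 : z + J + 1 - (J : ℚ) = z + 1 := by ring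
    have e2 : z + J + 1 - ((J : ℚ) + 1) = z := by ring
    have e3 : (J : ℚ) + 1 - (z + J + 1) = - z := by ring
    have e4 : z + J + 1 + 1 - ((J : ℚ) + 1) = z + 1 := by ring
    rw [e1] at h1
    rw [e2] at h2
    rw [e2, e3, e4] at hs
    rw [e1, e2, e3]
    have e : F (z + J + 1 + 2) (J + 1) = f * ((2 * (J : ℚ) + 1) * ((J : ℚ) + (z + J + 1)) * (-z) / (2 * ((J : ℚ) + 1) ^ 3)) *
        ((z + J + 1 + ((J : ℚ) + 1)) * (z + J + 1 + ((J : ℚ) + 1) + 1)) / ((z + 1) * z) := by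
      rw [eq_div_iff (mul_ne_zero h1 h2)]; exact hs
    rw [e]
    have h3 : (J : ℚ) + 1 ≠ 0 := by positivity
    exact tele_aux z J f h2 h1 h3

/-- the full sum -/
def Tt (n : ℕ) : ℚ := ∑ j ∈ range (n + 1), F ((n : ℚ) + 1) j

lemma Tt_rec (n : ℕ) : ((n : ℚ) + 2) ^ 2 * Tt (n + 2) = ((n : ℚ) + 1) ^ 2 * Tt n := by
  have h := tele ((n : ℚ) + 1) n (by
    intro j hj
    have : (j : ℚ) ≤ n := by exact_mod_cast hj
    constructor
    · intro h; linarith
    · intro h; linarith)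
  rw [sum_sub_distrib, ← mul_sum, ← mul_sum] at h
  unfold Tt
  rw [show n + 2 + 1 = n + 1 + 1 + 1 by ring, sum_range_succ _ (n + 1 + 1), sum_range_succ _ (n + 1)]
  have e0 : (((n + 2 : ℕ) : ℚ) + 1) = (n : ℚ) + 1 + 2 := by push_cast; ring
  rw [e0]
  have s1 := F_shift ((n : ℚ) + 1) n
  have e1 : ((n : ℚ) + 1 + 1 - n) * ((n : ℚ) + 1 - n) = 2 := by ring
  rw [e1] at s1
  have s2 : F ((n : ℚ) + 1 + 2) n = F ((n : ℚ) + 1) n * ((2 * n + 1) * (n + 1)) := by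
    linear_combination s1 / 2
  have s3 := F_succ ((n : ℚ) + 1 + 2) n
  have s4 := F_succ ((n : ℚ) + 1 + 2) (n + 1)
  rw [s2] at s3
  rw [s3] at s4
  rw [s4, s3]
  have e5 : ((n : ℚ) + 1 - n) = 1 := by ring
  rw [e5] at h
  push_cast
  have h3 : (n : ℚ) + 1 ≠ 0 := by positivity
  have h4 : (n : ℚ) + 2 ≠ 0 := by positivity
  have h5 : (n : ℚ) + 1 + 1 ≠ 0 := by positivity
  have key : ((n : ℚ) + 2) ^ 2 * (F ((n : ℚ) + 1) n * ((2 * n + 1) * (n + 1)) *
        ((2 * (n : ℚ) + 1) * ((n : ℚ) + (n + 1 + 2)) * ((n : ℚ) + 1 - (n + 1 + 2)) / (2 * ((n : ℚ) + 1) ^ 3)) +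
      F ((n : ℚ) + 1) n * ((2 * n + 1) * (n + 1)) *
        ((2 * (n : ℚ) + 1) * ((n : ℚ) + (n + 1 + 2)) * ((n : ℚ) + 1 - (n + 1 + 2)) / (2 * ((n : ℚ) + 1) ^ 3)) *
        ((2 * ((n : ℚ) + 1) + 1) * ((n : ℚ) + 1 + (n + 1 + 2)) * ((n : ℚ) + 1 + 1 - (n + 1 + 2)) /
          (2 * ((n : ℚ) + 1 + 1) ^ 3))) =
      - ((2 * ((n : ℚ) + 1) + 1) * (2 * n + 1) * (n + 1 + n) * F ((n : ℚ) + 1) n) := by
    have e6 : (n : ℚ) + 1 + 1 = n + 2 := by ring
    rw [e6]
    field_simp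
    ring
  linear_combination h + key

lemma Tt_zero : Tt 0 = 1 := by simp [Tt, F_zero]

lemma Tt_one : Tt 1 = 0 := by
  unfold Tt
  rw [sum_range_succ, sum_range_one, F_zero, F_succ, F_zero]
  norm_num

lemma Tt_even (m : ℕ) : Tt (2 * m) = c m ^ 2 := by
  induction m with
  | zero => simp [Tt_zero, c_zero]
  | succ m ih =>
    have h := Tt_rec (2 * m)
    rw [ih] at h
    rw [show 2 * (m + 1) = 2 * m + 2 by ring, c_succ]
    have h3 : (m : ℚ) + 1 ≠ 0 := by positivity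
    have h4 : (2 * (m : ℚ) + 2) ^ 2 ≠ 0 := by positivity
    push_cast at h
    apply mul_left_cancel₀ h4
    rw [h]
    field_simp

lemma Tt_odd (m : ℕ) : Tt (2 * m + 1) = 0 := by
  induction m with
  | zero => exact Tt_one
  | succ m ih =>
    have h := Tt_rec (2 * m + 1)
    rw [ih, mul_zero] at h
    rw [show 2 * (m + 1) + 1 = 2 * m + 1 + 2 by ring]
    have h4 : (((2 * m + 1 : ℕ) : ℚ) + 2) ^ 2 ≠ 0 := by positivity
    exact (mul_eq_zero.mp h).resolve_left h4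

lemma psi_top (n : ℕ) : psi ((n : ℚ) + 1) n = (-1) ^ n * (Nat.centralBinom n : ℚ) := by
  have key : ∀ (n k : ℕ), k ≤ n → psi ((n : ℚ) + 1) k * ((n.factorial : ℚ) * ((n - k).factorial : ℚ) * (k.factorial : ℚ) ^ 2) =
      (-1) ^ k * ((n + k).factorial : ℚ) * (n.factorial : ℚ) := by
    intro n k
    induction k with
    | zero => intro _; simp [psi_zero]
    | succ k ih =>
      intro hk
      have ih' := ih (by omega)
      rw [psi_succ]
      obtain ⟨r, hr⟩ : ∃ r, n = k + 1 + r := ⟨n - (k + 1), by omega⟩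
      have e1 : n - k = r + 1 := by omega
      have e2 : n - (k + 1) = r := by omega
      rw [e1, Nat.factorial_succ r] at ih'
      rw [e2, ← Nat.add_assoc, Nat.factorial_succ (n + k), Nat.factorial_succ k]
      push_cast at ih' ⊢
      have e3 : (n : ℚ) = k + 1 + r := by rw [hr]; push_cast; ring
      have h3 : (k : ℚ) + 1 ≠ 0 := by positivity
      have h4 : (r : ℚ) + 1 ≠ 0 := by positivity
      have e4 : ((k : ℚ) + 1 - ((n : ℚ) + 1)) = -((r : ℚ) + 1) := by rw [e3]; ring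
      rw [e4]
      have : psi ((n : ℚ) + 1) k * (((k : ℚ) + ((n : ℚ) + 1)) * -((r : ℚ) + 1) / ((k : ℚ) + 1) ^ 2) *
          ((n.factorial : ℚ) * (r.factorial : ℚ) * (((k : ℚ) + 1) * (k.factorial : ℚ)) ^ 2) =
          - ((k : ℚ) + ((n : ℚ) + 1)) * (psi ((n : ℚ) + 1) k * ((n.factorial : ℚ) * (((r : ℚ) + 1) * (r.factorial : ℚ)) * (k.factorial : ℚ) ^ 2)) := by
        field_simp
      rw [this, ih', pow_succ]
      ring
  have h := key n n le_rfl
  rw [Nat.sub_self, Nat.factorial_zero] at h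
  have hc : (Nat.centralBinom n : ℚ) * ((n.factorial : ℚ) * (n.factorial : ℚ)) = ((n + n).factorial : ℚ) := by
    rw [Nat.centralBinom_eq_two_mul_choose]
    have := Nat.choose_mul_factorial_mul_factorial (show n ≤ 2 * n by omega)
    rw [show 2 * n - n = n by omega] at this
    rw [← two_mul n, ← this]
    push_cast
    ring
  have hn : (n.factorial : ℚ) ≠ 0 := by exact_mod_cast n.factorial_ne_zero
  rw [← hc] at h
  have h2 : (n.factorial : ℚ) ^ 3 ≠ 0 := pow_ne_zero _ hn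
  apply mul_right_cancel₀ h2
  push_cast at h
  linear_combination h

/-- `∑_{j<2h+1} F(2h+1,j) = c_h^2` -/
lemma val_p (h : ℕ) : ∑ j ∈ range (2 * h + 1), F (2 * (h : ℚ) + 1) j = c h ^ 2 := by
  have := Tt_even h
  unfold Tt at this
  push_cast at this
  exact this

/-- `∑_{j<p} F(-p,j) = C(2p,p)^2/4^p`, `p = 2h+1` -/
lemma val_neg_p (h : ℕ) : ∑ j ∈ range (2 * h + 1), F (-(2 * (h : ℚ) + 1)) j =
    (Nat.centralBinom (2 * h + 1) : ℚ) ^ 2 / 4 ^ (2 * h + 1) := by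
  have h1 := Tt_odd h
  unfold Tt at h1
  rw [sum_range_succ] at h1
  have e : ∀ j, F (-(2 * (h : ℚ) + 1)) j = F (((2 * h + 1 : ℕ) : ℚ) + 1) j := by
    intro j
    unfold F
    rw [← psi_symm]
    congr 2
    push_cast
    ring
  rw [sum_congr rfl (fun j _ => e j)]
  have e2 : F (((2 * h + 1 : ℕ) : ℚ) + 1) (2 * h + 1) = -((Nat.centralBinom (2 * h + 1) : ℚ) ^ 2 / 4 ^ (2 * h + 1)) := by
    unfold F
    rw [psi_top, c]
    rw [pow_succ (-1 : ℚ), pow_mul]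
    norm_num
    ring
  rw [e2] at h1
  linarith

end Pool.Agent.Helper88.Sq
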