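import Pool.Graph.R_seed8.Helper857.W8
import Pool.Agent.Helper88.Comb
import Pool.Agent.Helper88.Sq

set_option autoImplicit false

namespace Pool.Agent.Helper88.PA

open Finset Pool.Agent.Helper857.Pad Pool.Agent.Helper857.W Pool.Agent.Helper88.Comb Pool.Agent.Helper88.Sq

/-! ### exact identities -/

lemma psi_prod (x : ℚ) (j : ℕ) : psi x (j + 1) =
    (x / ((j : ℚ) + 1)) * (1 - x / ((j : ℚ) + 1)) * ∏ i ∈ range j, (1 - (x / ((i : ℚ) + 1)) ^ 2) := by
  induction j with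
  | zero => simp [psi_succ, psi_zero]
  | succ j ih =>
    rw [psi_succ, ih, prod_range_succ]
    have h3 : (j : ℚ) + 1 ≠ 0 := by positivity
    have h4 : (j : ℚ) + 1 + 1 ≠ 0 := by positivity
    push_cast
    field_simp
    ring

/-- `z i = N/(i+1)` -/
def z (N : ℚ) (i : ℕ) : ℚ := N / ((i : ℚ) + 1)

/-- power sums -/
def Z (N : ℚ) (k n : ℕ) : ℚ := ∑ i ∈ range n, z N i ^ k

lemma Z_succ (N : ℚ) (k n : ℕ) : Z N k (n + 1) = Z N k n + z N n ^ k := by
  unfold Z; rw [sum_range_succ]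

lemma Z_zero (N : ℚ) (k : ℕ) : Z N k 0 = 0 := by simp [Z]

lemma z_g (N : ℚ) (i : ℕ) : z N i = g N (i + 1) := by unfold z g; push_cast; rfl

lemma Z_LL (N : ℚ) (n : ℕ) : Z N 1 n = LL N n := by
  unfold Z LL; rw [sum_shift]; exact sum_congr rfl fun i _ => by rw [z_g, pow_one]

lemma Z_SS (N : ℚ) (n : ℕ) : Z N 2 n = SS N n := by
  unfold Z SS; rw [sum_shift]; exact sum_congr rfl fun i _ => by rw [z_g]

lemma Z_HH (N : ℚ) (n : ℕ) : Z N 3 n = HH N n := by
  unfold Z HH; rw [sum_shift]; exact sum_congr rfl fun i _ => by rw [z_g]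

lemma YY_eq (N : ℚ) (n : ℕ) : YY N n = ∑ i ∈ range n, z N i * Z N 2 i := by
  unfold YY
  rw [sum_shift]
  apply sum_congr rfl
  intro r hr
  rw [mem_range] at hr
  rw [sum_shift, Z, mul_sum]
  have : ∀ x ∈ range n, (if x + 1 < r + 1 then g N (r + 1) * g N (x + 1) ^ 2 else 0) =
      if x ∈ range r then z N r * z N x ^ 2 else 0 := by
    intro x _
    rw [z_g, z_g]
    by_cases hx : x < r
    · rw [if_pos (by omega), if_pos (mem_range.mpr hx)]
    · rw [if_neg (by omega), if_neg (fun h => hx (mem_range.mp h))]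
  rw [sum_congr rfl this, ← sum_filter]
  congr 1
  ext x
  simp only [mem_filter, mem_range]
  omega

lemma hom3 (N : ℚ) (h : ℕ) : ∑ n ∈ range h, z N n * (Z N 1 n ^ 2 + Z N 2 n) / 2 =
    (Z N 1 h ^ 3 - 3 * Z N 1 h * Z N 2 h + 2 * Z N 3 h) / 6 + ∑ n ∈ range h, z N n * Z N 2 n := by
  induction h with
  | zero => simp [Z_zero]
  | succ h ih =>
    rw [sum_range_succ, sum_range_succ, ih, Z_succ, Z_succ, Z_succ]
    ring

lemma H_Z (N : ℚ) (s n : ℕ) : N ^ s * H s n = Z N s n := by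
  unfold H Z z
  rw [mul_sum]
  apply sum_congr rfl
  intro i _
  rw [div_pow]; ring

/-- the transform of `H 2 j/(j+1)` -/
lemma trans3 (N : ℚ) (h : ℕ) : ∑ j ∈ range h, b h (j + 1) * (z N j * Z N 2 j) =
    (Z N 1 h ^ 3 - 3 * Z N 1 h * Z N 2 h + 2 * Z N 3 h) / 6 + ∑ n ∈ range h, z N n * Z N 2 n := by
  rw [← hom3]
  have h1 := T_H2_div h
  unfold T at h1
  have e1 : ∑ j ∈ range h, b h (j + 1) * (z N j * Z N 2 j) =
      N ^ 3 * ∑ j ∈ range h, b h (j + 1) * (H 2 j / ((j : ℚ) + 1)) := by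
    rw [mul_sum]
    apply sum_congr rfl
    intro j _
    rw [← H_Z, z]; ring
  rw [e1, h1, mul_sum]
  apply sum_congr rfl
  intro j _
  rw [← H_Z, ← H_Z, z]
  have h3 : (j : ℚ) + 1 ≠ 0 := by positivity
  field_simp

lemma b_prod (n k : ℕ) : b n k = ∏ i ∈ range k, (((i : ℚ) - n) / ((i : ℚ) + 1)) := by
  induction k with
  | zero => simp [b_zero]
  | succ k ih =>
    rw [prod_range_succ, ← ih]
    unfold b
    have h := Nat.choose_succ_right_eq n k
    have h3 : (k : ℚ) + 1 ≠ 0 := by positivity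
    have h' : (n.choose (k + 1) : ℚ) * (k + 1) = n.choose k * ((n : ℚ) - k) := by
      rcases Nat.lt_or_ge n k with hlt | hge
      · rw [Nat.choose_eq_zero_of_lt hlt, Nat.choose_eq_zero_of_lt (by omega)]; simp
      · rw [← Nat.cast_sub hge]; exact_mod_cast h
    rw [pow_succ]
    field_simp
    linear_combination (-1) * h'

/-- `c_j` in terms of `(-1)^j C(h,j)` -/
lemma c_b (h j : ℕ) (hj : j ≤ h) : c j = b h j * ∏ i ∈ range j, (1 - (2 * (h : ℚ) + 1) / (2 * ((h : ℚ) - i))) := by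
  rw [b_prod, ← prod_mul_distrib]
  induction j with
  | zero => simp [c_zero]
  | succ j ih =>
    rw [c_succ, ih (by omega), prod_range_succ]
    congr 1
    have h3 : (j : ℚ) + 1 ≠ 0 := by positivity
    have h4 : (h : ℚ) - j ≠ 0 := by
      have : (j : ℚ) < h := by exact_mod_cast hj
      intro h; linarith
    field_simp
    ring

lemma c_h (h : ℕ) : c h = (-1) ^ h * ∏ i ∈ range h, (1 - 1 / 2 * z (2 * (h : ℚ) + 1) i) := by
  rw [c_b h h le_rfl]
  congr 1
  · simp [b]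
  · rw [← prod_range_reflect]
    apply prod_congr rfl
    intro i hi
    rw [mem_range] at hi
    have : ((h - 1 - i : ℕ) : ℚ) = (h : ℚ) - 1 - i := by
      rw [Nat.cast_sub (by omega), Nat.cast_sub (by omega)]; simp
    rw [this, z]
    have h3 : (i : ℚ) + 1 ≠ 0 := by positivity
    have h4 : (h : ℚ) - (h - 1 - i) = i + 1 := by ring
    rw [h4]
    field_simp

lemma b_two (h k : ℕ) : b (2 * h) k = ∏ i ∈ range k, (1 - z (2 * (h : ℚ) + 1) i) := by
  rw [b_prod]
  apply prod_congr rfl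
  intro i _
  rw [z]
  have h3 : (i : ℚ) + 1 ≠ 0 := by positivity
  push_cast
  field_simp
  ring

lemma cb_h (h : ℕ) : (Nat.centralBinom h : ℚ) = (-1) ^ h * ∏ i ∈ range h, (1 - z (2 * (h : ℚ) + 1) i) := by
  rw [← b_two]
  unfold b
  rw [← mul_assoc, ← mul_pow]
  norm_num [Nat.centralBinom_eq_two_mul_choose]

/-- `4^h D = M` -/
lemma four_D (h : ℕ) : (4 : ℚ) ^ h * ∏ i ∈ range h, (1 - 1 / 2 * z (2 * (h : ℚ) + 1) i) =
    ∏ i ∈ range h, (1 - z (2 * (h : ℚ) + 1) i) := by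
  have h1 := c_h h
  have h2 := cb_h h
  unfold c at h1
  rw [h2] at h1
  have h4 : (4 : ℚ) ^ h ≠ 0 := by positivity
  have h5 : ((-1 : ℚ)) ^ h ≠ 0 := pow_ne_zero _ (by norm_num)
  rw [div_eq_iff h4] at h1
  apply mul_left_cancel₀ h5
  linear_combination (-1) * h1

lemma W_prod (h : ℕ) : (Nat.centralBinom (2 * h + 1) : ℚ) = 2 * ∏ i ∈ range (2 * h), (1 - z (2 * (h : ℚ) + 1) i ^ 2) := by
  have e1 : ∏ i ∈ range (2 * h), (1 - z (2 * (h : ℚ) + 1) i ^ 2) =
      (∏ i ∈ range (2 * h), (1 - z (2 * (h : ℚ) + 1) i)) * ∏ i ∈ range (2 * h), (1 + z (2 * (h : ℚ) + 1) i) := by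
    rw [← prod_mul_distrib]
    apply prod_congr rfl
    intro i _
    ring
  rw [e1, ← b_two]
  have e2 : b (2 * h) (2 * h) = 1 := by
    simp [b]
  rw [e2, one_mul]
  have key : ∀ k : ℕ, ∏ i ∈ range k, (1 + z (2 * (h : ℚ) + 1) i) = ((2 * h + 1 + k).choose k : ℚ) := by
    intro k
    induction k with
    | zero => simp
    | succ k ih =>
      rw [prod_range_succ, ih, z]
      have h1 := Nat.add_one_mul_choose_eq (2 * h + 1 + k) k
      have h2 : ((2 * h + 1 + k : ℕ) + 1 : ℚ) * ((2 * h + 1 + k).choose k : ℚ) =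
          ((2 * h + 1 + (k + 1)).choose (k + 1) : ℚ) * ((k : ℚ) + 1) := by exact_mod_cast h1
      have h3 : (k : ℚ) + 1 ≠ 0 := by positivity
      push_cast at h2
      field_simp
      linear_combination h2
  rw [key, Nat.centralBinom_eq_two_mul_choose]
  have h1 : (2 * (2 * h + 1)).choose (2 * h + 1) = 2 * (2 * h + 1 + 2 * h).choose (2 * h) := by
    rw [show 2 * (2 * h + 1) = (2 * h + 1 + 2 * h) + 1 by ring, Nat.choose_succ_succ]
    rw [Nat.choose_symm_of_eq_add (show 2 * h + 1 + 2 * h = (2 * h + 1) + 2 * h by ring)]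
    ring
  rw [h1]
  push_cast
  ring

end Pool.Agent.Helper88.PA
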