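import Pool.Agent.Helper88.PA

set_option autoImplicit false
set_option linter.unusedSectionVars false

namespace Pool.Agent.Helper88.PB

open Finset Pool.Agent.Helper857.Pad Pool.Agent.Helper857.W Pool.Agent.Helper88.Comb Pool.Agent.Helper88.Sq
  Pool.Agent.Helper88.PA

variable {p : ℕ} [hp : Fact p.Prime]

lemma n48 (h5 : 3 < p) : ¬ p ∣ 48 := by
  intro h
  have : p ∣ 2 ^ 4 * 3 := by simpa using h
  rcases (hp.out.dvd_mul).mp this with h | h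
  · have := Nat.le_of_dvd (by norm_num) (hp.out.dvd_of_dvd_pow h); omega
  · have := Nat.le_of_dvd (by norm_num) h; omega

lemma cst (h5 : 3 < p) (n : ℤ) : (n : ℚ) / 48 ∈ Zp p := by
  rw [div_eq_mul_inv]
  exact (Zp p).mul_mem (int_mem n) (by exact_mod_cast inv_nat_mem (n48 h5))

lemma cst' (h5 : 3 < p) (x : ℚ) (n : ℤ) (h : x = (n : ℚ) / 48) : x ∈ Zp p := by
  rw [h]; exact cst h5 n

lemma I.cst_mul (h5 : 3 < p) {k : ℕ} {x : ℚ} (a : ℚ) (n : ℤ) (h : a = (n : ℚ) / 48) (hx : I p k x) :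
    I p k (a * x) := I.mem_mul (cst' h5 a n h) hx

/-- truncated exponential -/
def Ex (s a : ℚ) : ℚ := 1 + a * s + a ^ 2 * s ^ 2 / 2 + a ^ 3 * s ^ 3 / 6

/-- `x = exp(a s) + α t` modulo `p^4` -/
def Rl (p : ℕ) [Fact p.Prime] (s t x a α : ℚ) : Prop := I p 4 (x - (Ex s a + α * t))

lemma Rl.mul (h5 : 3 < p) {s t x y a b α β : ℚ} (hs : I p 1 s) (ht : I p 3 t) (ha : a ∈ Zp p) (hb : b ∈ Zp p)
    (hα : α ∈ Zp p) (hβ : β ∈ Zp p) (hx : Rl p s t x a α) (hy : Rl p s t y b β) :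
    Rl p s t (x * y) (a + b) (α + β) := by
  unfold Rl Ex at *
  obtain ⟨s', hs', rfl⟩ := hs
  obtain ⟨t', ht', rfl⟩ := ht
  obtain ⟨u, hu, eu⟩ := hx
  obtain ⟨v, hv, ev⟩ := hy
  have ex := eq_add_of_sub_eq eu
  have ey := eq_add_of_sub_eq ev
  obtain ⟨k, hk⟩ : ∃ k : Zp p, (k : ℚ) = 1 / 2 := ⟨⟨1 / 2, cst' h5 (1 / 2) 24 (by norm_num)⟩, rfl⟩
  obtain ⟨l, hl⟩ : ∃ k : Zp p, (k : ℚ) = 1 / 6 := ⟨⟨1 / 6, cst' h5 (1 / 6) 8 (by norm_num)⟩, rfl⟩
  lift s' to Zp p using hs'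
  lift t' to Zp p using ht'
  lift u to Zp p using hu
  lift v to Zp p using hv
  lift a to Zp p using ha
  lift b to Zp p using hb
  lift α to Zp p using hα
  lift β to Zp p using hβ
  rw [ex, ey]
  refine ⟨((s' ^ 4 * (l * a * b ^ 3 + k * k * a ^ 2 * b ^ 2 + l * a ^ 3 * b) +
    (p : Zp p) * s' ^ 5 * (k * l * (a ^ 2 * b ^ 3 + a ^ 3 * b ^ 2)) + (p : Zp p) ^ 2 * s' ^ 6 * (l ^ 2 * a ^ 3 * b ^ 3) +
    t' * s' * (α * (b + k * b ^ 2 * p * s' + l * b ^ 3 * p ^ 2 * s' ^ 2) +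
      β * (a + k * a ^ 2 * p * s' + l * a ^ 3 * p ^ 2 * s' ^ 2)) +
    α * β * p ^ 2 * t' ^ 2 +
    u * (1 + b * (p * s') + b ^ 2 * (p * s') ^ 2 * k + b ^ 3 * (p * s') ^ 3 * l + β * (p ^ 3 * t')) +
    v * (1 + a * (p * s') + a ^ 2 * (p * s') ^ 2 * k + a ^ 3 * (p * s') ^ 3 * l + α * (p ^ 3 * t')) +
    p ^ 4 * u * v : Zp p) : ℚ), Subtype.property _, ?_⟩
  push_cast
  rw [hk, hl]
  ring

lemma Rl.mono {s t x a α : ℚ} (h : Rl p s t x a α) {y : ℚ} (e : y = x) : Rl p s t y a α := by rw [e]; exact h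

/-- third elementary symmetric function -/
def e3 (s1 s2 s3 : ℚ) : ℚ := (s1 ^ 3 - 3 * s1 * s2 + 2 * s3) / 6

lemma e3_I (h5 : 3 < p) {s1 s2 s3 : ℚ} (h1 : I p 1 s1) (h2 : I p 2 s2) (h3 : I p 3 s3) : I p 3 (e3 s1 s2 s3) := by
  have m3 : (3 : ℚ) ∈ Zp p := by exact_mod_cast nat_mem 3
  have m2 : (2 : ℚ) ∈ Zp p := by exact_mod_cast nat_mem 2
  have a1 : I p 3 (s1 ^ 3) := by simpa using h1.pow 3
  have a2 : I p 3 (3 * s1 * s2) := by
    have := (I.mem_mul m3 h1).mul h2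
    simpa using this
  have a3 := I.mem_mul m2 h3
  have := I.mem_mul (cst' h5 (1 / 6) 8 (by norm_num)) ((a1.sub a2).add a3)
  have e : 1 / 6 * (s1 ^ 3 - 3 * s1 * s2 + 2 * s3) = e3 s1 s2 s3 := by unfold e3; ring
  rwa [e] at this

/-- products of four terms -/
lemma prodE (h5 : 3 < p) (y : ℕ → ℚ) (n : ℕ) (hy : ∀ i < n, I p 1 (y i)) :
    I p 4 (∏ i ∈ range n, (1 - y i) - (1 - (∑ i ∈ range n, y i) +
      ((∑ i ∈ range n, y i) ^ 2 - ∑ i ∈ range n, y i ^ 2) / 2 -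
      e3 (∑ i ∈ range n, y i) (∑ i ∈ range n, y i ^ 2) (∑ i ∈ range n, y i ^ 3))) := by
  induction n with
  | zero => simp [e3]; exact I.zero 4
  | succ n ih =>
    have ih' := ih (fun i hi => hy i (by omega))
    have hn := hy n (by omega)
    have h1 : I p 1 (∑ i ∈ range n, y i) := I.sum _ _ (fun i hi => hy i (by rw [mem_range] at hi; omega))
    have h2 : I p 2 (∑ i ∈ range n, y i ^ 2) :=
      I.sum _ _ (fun i hi => by simpa using (hy i (by rw [mem_range] at hi; omega)).pow 2)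
    have h3 : I p 3 (∑ i ∈ range n, y i ^ 3) :=
      I.sum _ _ (fun i hi => by simpa using (hy i (by rw [mem_range] at hi; omega)).pow 3)
    have he := e3_I h5 h1 h2 h3
    rw [prod_range_succ, sum_range_succ, sum_range_succ, sum_range_succ]
    generalize ∑ i ∈ range n, y i = s1 at *
    generalize ∑ i ∈ range n, y i ^ 2 = s2 at *
    generalize ∑ i ∈ range n, y i ^ 3 = s3 at *
    generalize ∏ i ∈ range n, (1 - y i) = P at *
    generalize y n = w at *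
    have e : P * (1 - w) - (1 - (s1 + w) + ((s1 + w) ^ 2 - (s2 + w ^ 2)) / 2 - e3 (s1 + w) (s2 + w ^ 2) (s3 + w ^ 3)) =
        (P - (1 - s1 + (s1 ^ 2 - s2) / 2 - e3 s1 s2 s3)) * (1 - w) + w * e3 s1 s2 s3 := by
      unfold e3; ring
    rw [e]
    have h8 : (1 - w) ∈ Zp p := (Zp p).sub_mem (Zp p).one_mem hn.mem
    have h9 : I p 4 (w * e3 s1 s2 s3) := by simpa using hn.mul he
    exact (ih'.mul_mem h8).add h9

section
variable {h : ℕ} (hN : 2 * h + 1 = p ^ 1) (h5 : 3 < p)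

/-- the prime as a rational number -/
def Nq (h : ℕ) : ℚ := 2 * (h : ℚ) + 1

lemma Nq_cast (h : ℕ) : ((2 * h + 1 : ℕ) : ℚ) = Nq h := by unfold Nq; push_cast; ring

include hN

omit hp in
lemma Nq_p : Nq h = (p : ℚ) := by
  rw [← Nq_cast, hN, pow_one]

lemma zI {i : ℕ} (hi : i < 2 * h) : I p 1 (z (Nq h) i) := by
  have := g_I (p := p) (le_refl 1) hN (m := i + 1) (by omega) (by omega)
  rw [Nq_cast] at this
  rw [z_g]; exact this

lemma Z2_I {j : ℕ} (hj : j ≤ 2 * h) : I p 2 (Z (Nq h) 2 j) :=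
  I.sum _ _ (fun i hi => by simpa using (zI (p := p) hN (by rw [mem_range] at hi; omega)).pow 2)

lemma Z1_h : I p 1 (Z (Nq h) 1 h) := by
  have := L1 (p := p) (le_refl 1) hN
  rwa [Nq_cast, ← Z_LL] at this

lemma Z3_h : I p 3 (Z (Nq h) 3 h) := by
  have := H3 (p := p) (le_refl 1) hN
  rwa [Nq_cast, ← Z_HH] at this

lemma Z23_h : I p 4 (6 * Z (Nq h) 2 h + 7 * Z (Nq h) 3 h) := by
  have := SH (p := p) (le_refl 1) hN
  rwa [Nq_cast, ← Z_HH, ← Z_SS] at this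

include h5

lemma Z2_h' : I p 4 (Z (Nq h) 2 h + 7 / 6 * Z (Nq h) 3 h) := by
  have := I.cst_mul h5 (1 / 6) 8 (by norm_num) (Z23_h (p := p) hN)
  have e : 1 / 6 * (6 * Z (Nq h) 2 h + 7 * Z (Nq h) 3 h) = Z (Nq h) 2 h + 7 / 6 * Z (Nq h) 3 h := by ring
  rwa [e] at this

lemma Z2_h : I p 3 (Z (Nq h) 2 h) := by
  have h1 := (Z2_h' (p := p) hN h5).mono (show 3 ≤ 4 by norm_num)
  have h2 := I.cst_mul h5 (7 / 6) 56 (by norm_num) (Z3_h (p := p) hN)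
  have := h1.sub h2
  rwa [add_sub_cancel_right] at this

lemma Z12_h : I p 4 (Z (Nq h) 1 h * Z (Nq h) 2 h) := by
  simpa using (Z1_h (p := p) hN).mul (Z2_h (p := p) hN h5)

/-- `4 YY = - HH` -/
lemma YY_h : I p 4 (4 * YY (Nq h) h + Z (Nq h) 3 h) := by
  have k1 := Kp1 (p := p) (le_refl 1) hN
  have k2 := Kp2 (p := p) (le_refl 1) hN
  have km := KM ((2 * h + 1 : ℕ) : ℚ) h
  have xyh := XYH ((2 * h + 1 : ℕ) : ℚ) h
  have kid := Kid ((2 * h + 1 : ℕ) : ℚ) h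
  have ls := Z12_h (p := p) hN h5
  rw [Z_LL, Z_SS] at ls
  rw [Z_HH]
  rw [Nq_cast] at *
  have m8 : (8 : ℚ) ∈ Zp p := by exact_mod_cast nat_mem 8
  have d := I.mem_mul m8 (k1.sub k2)
  have m10 := I.mem_mul (show (12 : ℚ) ∈ Zp p by exact_mod_cast nat_mem 12) ls
  have e : 4 * YY (Nq h) h + HH (Nq h) h =
      1 / 3 * (8 * (Kp (Nq h) h - (LL (Nq h) h * SS (Nq h) h + XX (Nq h) h - YY (Nq h) h) -
        (Kp (Nq h) h - 1 / 8 * (KK (Nq h) h + XX (Nq h) h - YY (Nq h) h - MM (Nq h) h))) +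
        12 * (LL (Nq h) h * SS (Nq h) h)) := by
    linear_combination (1 / 3) * km + xyh - (2 / 3) * kid
  rw [e]
  exact I.cst_mul h5 (1 / 3) 16 (by norm_num) (d.add m10)

end

end Pool.Agent.Helper88.PB
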