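import Pool.Agent.Helper88.PB
import Pool.Graph.R_pool_sql_team_seeded_64922ed1.Results.MP_147bb8_nt.Divisibility
import Pool.Graph.R_seed8.R856.EulerZ

set_option autoImplicit false
set_option linter.unusedSectionVars false

namespace Pool.Agent.Helper88.PC

open Finset Pool.Agent.Helper857.Pad Pool.Agent.Helper857.W Pool.Agent.Helper88.Comb Pool.Agent.Helper88.Sq
  Pool.Agent.Helper88.PA Pool.Agent.Helper88.PB

variable {p : ℕ} [hp : Fact p.Prime]

section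
variable {h : ℕ} (hN : 2 * h + 1 = p ^ 1) (h5 : 3 < p)

include h5 in
lemma n2 : ¬ p ∣ 2 := fun hd => absurd (Nat.le_of_dvd (by norm_num) hd) (by omega)

include h5 in
lemma n4pow (j : ℕ) : ¬ p ∣ 4 ^ j := by
  intro hd
  have := hp.out.dvd_of_dvd_pow hd
  have h2 : p ∣ 2 ^ 2 := by simpa using this
  exact n2 h5 (hp.out.dvd_of_dvd_pow h2)

include h5 in
lemma c_mem (j : ℕ) : c j ∈ Zp p := by
  unfold c
  rw [div_eq_mul_inv]
  refine (Zp p).mul_mem (nat_mem _) ?_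
  have := inv_nat_mem (p := p) (n4pow h5 j)
  exact_mod_cast this

lemma b_mem (n j : ℕ) : b n j ∈ Zp p := by
  unfold b
  have : ((-1 : ℚ)) ^ j * (n.choose j : ℚ) = (((-1 : ℤ) ^ j * (n.choose j : ℤ) : ℤ) : ℚ) := by push_cast; ring
  rw [this]
  exact int_mem _

include hN h5

lemma c_big (k : ℕ) (hk : h + 1 + k ≤ 2 * h) : I p 1 (c (h + 1 + k)) := by
  induction k with
  | zero =>
    rw [add_zero, c_succ]
    have := zI (p := p) hN (i := h) (by omega)
    have e : c h * ((2 * (h : ℚ) + 1) / (2 * ((h : ℚ) + 1))) = (1 / 2 * c h) * z (Nq h) h := by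
      unfold z Nq
      have h3 : (h : ℚ) + 1 ≠ 0 := by positivity
      field_simp
    rw [e]
    exact I.mem_mul ((Zp p).mul_mem (cst' h5 (1 / 2) 24 (by norm_num)) (c_mem h5 h)) this
  | succ k ih =>
    rw [← Nat.add_assoc, c_succ]
    apply (ih (by omega)).mul_mem
    rw [div_eq_mul_inv]
    refine (Zp p).mul_mem ?_ ?_
    · have : (2 * ((h + 1 + k : ℕ) : ℚ) + 1) = ((2 * (h + 1 + k) + 1 : ℕ) : ℚ) := by push_cast; ring
      rw [this]; exact nat_mem _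
    · have : (2 * (((h + 1 + k : ℕ) : ℚ) + 1)) = ((2 * (h + 1 + k + 1) : ℕ) : ℚ) := by push_cast; ring
      rw [this]
      apply inv_nat_mem
      intro hd
      rcases (hp.out.dvd_mul).mp hd with hd | hd
      · exact n2 h5 hd
      · have := Nat.le_of_dvd (by omega) hd
        rw [pow_one] at hN
        omega

lemma y_I {i : ℕ} (hi : i < h) : I p 1 ((2 * (h : ℚ) + 1) / (2 * ((h : ℚ) - i))) := by
  have h1 := zI (p := p) hN (i := h - 1 - i) (by omega)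
  have e : (2 * (h : ℚ) + 1) / (2 * ((h : ℚ) - i)) = 1 / 2 * z (Nq h) (h - 1 - i) := by
    unfold z Nq
    have : ((h - 1 - i : ℕ) : ℚ) = (h : ℚ) - 1 - i := by
      rw [Nat.cast_sub (by omega), Nat.cast_sub (by omega)]; simp
    rw [this]
    have h3 : (h : ℚ) - i ≠ 0 := by
      have : (i : ℚ) < h := by exact_mod_cast hi
      intro hh; linarith
    have h4 : (h : ℚ) - 1 - i + 1 = h - i := by ring
    rw [h4]
    field_simp
  rw [e]
  exact I.cst_mul h5 (1 / 2) 24 (by norm_num) h1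

lemma c_b1 {j : ℕ} (hj : j ≤ h) : I p 1 (c j - b h j) := by
  rw [c_b h j hj]
  have := prod_one (p := p) (k := 1) (fun i => 1 - (2 * (h : ℚ) + 1) / (2 * ((h : ℚ) - i))) j (by
    intro i hi
    have := (y_I (p := p) hN h5 (i := i) (by omega)).neg
    simpa using this)
  have e : b h j * ∏ i ∈ range j, (1 - (2 * (h : ℚ) + 1) / (2 * ((h : ℚ) - i))) - b h j =
      b h j * (∏ i ∈ range j, (1 - (2 * (h : ℚ) + 1) / (2 * ((h : ℚ) - i))) - 1) := by ring
  rw [e]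
  exact I.mem_mul (b_mem h j) this

lemma c_b2 {j : ℕ} (hj : j ≤ h) : I p 2 (c j - b h j * (1 - Nq h / 2 * Rr h j)) := by
  rw [c_b h j hj]
  have := prod_one_sub (p := p) (m := 1) (fun i => (2 * (h : ℚ) + 1) / (2 * ((h : ℚ) - i))) j (by
    intro i hi
    exact y_I (p := p) hN h5 (i := i) (by omega))
  have e1 : ∑ i ∈ range j, (2 * (h : ℚ) + 1) / (2 * ((h : ℚ) - i)) = Nq h / 2 * Rr h j := by
    unfold Rr Nq
    rw [mul_sum]
    apply sum_congr rfl
    intro i hi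
    rw [mem_range] at hi
    have h3 : (h : ℚ) - i ≠ 0 := by
      have : (i : ℚ) < h := by exact_mod_cast (by omega : i < h)
      intro hh; linarith
    field_simp
  rw [e1] at this
  have e : b h j * ∏ i ∈ range j, (1 - (2 * (h : ℚ) + 1) / (2 * ((h : ℚ) - i))) - b h j * (1 - Nq h / 2 * Rr h j) =
      b h j * (∏ i ∈ range j, (1 - (2 * (h : ℚ) + 1) / (2 * ((h : ℚ) - i))) - (1 - Nq h / 2 * Rr h j)) := by ring
  rw [e]
  exact I.mem_mul (b_mem h j) this

omit h5 in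
/-- expansion of `psi (l N) (j+1)` -/
lemma psi_exp (l : ℤ) {j : ℕ} (hj : j < 2 * h) : I p 4 (psi (l * Nq h) (j + 1) -
    (l * z (Nq h) j - l ^ 2 * z (Nq h) j ^ 2 - l ^ 3 * (z (Nq h) j * Z (Nq h) 2 j))) := by
  rw [psi_prod]
  have hz := zI (p := p) hN hj
  have hl : (l : ℚ) ∈ Zp p := int_mem l
  have hlz : I p 1 (l * z (Nq h) j) := I.mem_mul hl hz
  have h1 := prod_one_sub (p := p) (m := 2) (fun i => (l * z (Nq h) i) ^ 2) j (by
    intro i hi
    simpa using (I.mem_mul hl (zI (p := p) hN (i := i) (by omega))).pow 2)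
  have e1 : ∑ i ∈ range j, ((l : ℚ) * z (Nq h) i) ^ 2 = l ^ 2 * Z (Nq h) 2 j := by
    unfold Z; rw [mul_sum]; exact sum_congr rfl fun i _ => by ring
  rw [e1] at h1
  have e2 : ∀ i : ℕ, (l : ℚ) * Nq h / ((i : ℚ) + 1) = l * z (Nq h) i := by
    intro i; unfold z; ring
  simp only [e2]
  generalize ∏ i ∈ range j, (1 - ((l : ℚ) * z (Nq h) i) ^ 2) = P at *
  have hZ := Z2_I (p := p) hN (j := j) (by omega)
  have e : (l : ℚ) * z (Nq h) j * (1 - l * z (Nq h) j) * P -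
      (l * z (Nq h) j - l ^ 2 * z (Nq h) j ^ 2 - l ^ 3 * (z (Nq h) j * Z (Nq h) 2 j)) =
      (P - (1 - l ^ 2 * Z (Nq h) 2 j)) * ((l * z (Nq h) j) * (1 - l * z (Nq h) j)) +
      l ^ 2 * ((l * z (Nq h) j) ^ 2 * Z (Nq h) 2 j) := by ring
  rw [e]
  have m1 : ((l : ℚ) * z (Nq h) j) * (1 - l * z (Nq h) j) ∈ Zp p :=
    (Zp p).mul_mem hlz.mem ((Zp p).sub_mem (Zp p).one_mem hlz.mem)
  have m2 : I p 4 ((l * z (Nq h) j) ^ 2 * Z (Nq h) 2 j) := by
    have := (hlz.pow 2).mul hZ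
    simpa using this
  exact (h1.mul_mem m1).add (I.mem_mul ((Zp p).pow_mem hl 2) m2)

/-- the coefficient sums -/
def Aa (h n : ℕ) : ℚ := ∑ j ∈ range n, c (j + 1) * z (Nq h) j
def Bb (h n : ℕ) : ℚ := ∑ j ∈ range n, c (j + 1) * z (Nq h) j ^ 2
def Cc (h n : ℕ) : ℚ := ∑ j ∈ range n, c (j + 1) * (z (Nq h) j * Z (Nq h) 2 j)

lemma gl (l : ℤ) {n : ℕ} (hn : n ≤ 2 * h) : I p 4 (∑ j ∈ range (n + 1), F (l * Nq h) j -
    (1 + l * Aa h n - l ^ 2 * Bb h n - l ^ 3 * Cc h n)) := by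
  rw [sum_range_succ', F_zero]
  have e : ∑ j ∈ range n, F (l * Nq h) (j + 1) + 1 -
      (1 + l * Aa h n - l ^ 2 * Bb h n - l ^ 3 * Cc h n) =
      ∑ j ∈ range n, c (j + 1) * (psi (l * Nq h) (j + 1) -
        (l * z (Nq h) j - l ^ 2 * z (Nq h) j ^ 2 - l ^ 3 * (z (Nq h) j * Z (Nq h) 2 j))) := by
    have : ∀ j ∈ range n, c (j + 1) * (psi (l * Nq h) (j + 1) -
        (l * z (Nq h) j - l ^ 2 * z (Nq h) j ^ 2 - l ^ 3 * (z (Nq h) j * Z (Nq h) 2 j))) =
        F (l * Nq h) (j + 1) - (l * (c (j + 1) * z (Nq h) j) - l ^ 2 * (c (j + 1) * z (Nq h) j ^ 2) -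
        l ^ 3 * (c (j + 1) * (z (Nq h) j * Z (Nq h) 2 j))) := by
      intro j _
      unfold Sq.F
      ring
    rw [sum_congr rfl this, sum_sub_distrib, sum_sub_distrib, sum_sub_distrib, ← mul_sum, ← mul_sum, ← mul_sum]
    unfold Aa Bb Cc
    ring
  rw [e]
  apply I.sum
  intro j hj
  rw [mem_range] at hj
  exact I.mem_mul (c_mem h5 _) (psi_exp hN l (by omega))

lemma zZ_I {j : ℕ} (hj : j < 2 * h) : I p 3 (z (Nq h) j * Z (Nq h) 2 j) := by
  have := (zI (p := p) hN hj).mul (Z2_I (p := p) hN (j := j) (by omega))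
  simpa using this

lemma Cc_half : I p 4 (Cc h (2 * h) - ∑ j ∈ range h, b h (j + 1) * (z (Nq h) j * Z (Nq h) 2 j)) := by
  unfold Cc
  rw [two_mul, sum_range_add]
  have e : ∑ j ∈ range h, c (j + 1) * (z (Nq h) j * Z (Nq h) 2 j) +
      ∑ x ∈ range h, c (h + x + 1) * (z (Nq h) (h + x) * Z (Nq h) 2 (h + x)) -
      ∑ j ∈ range h, b h (j + 1) * (z (Nq h) j * Z (Nq h) 2 j) =
      ∑ j ∈ range h, (c (j + 1) - b h (j + 1)) * (z (Nq h) j * Z (Nq h) 2 j) +
      ∑ x ∈ range h, c (h + x + 1) * (z (Nq h) (h + x) * Z (Nq h) 2 (h + x)) := by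
    simp only [sub_mul]
    rw [sum_sub_distrib]
    ring
  rw [e]
  apply I.add
  · apply I.sum
    intro j hj
    rw [mem_range] at hj
    have := (c_b1 (p := p) hN h5 (j := j + 1) (by omega)).mul (zZ_I (p := p) hN h5 (j := j) (by omega))
    simpa using this
  · apply I.sum
    intro j hj
    rw [mem_range] at hj
    rcases Nat.lt_or_ge (j + 1) h with hlt | hge
    · have h1 := c_big (p := p) hN h5 j (by omega)
      rw [show h + j + 1 = h + 1 + j by ring]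
      have := h1.mul (zZ_I (p := p) hN h5 (j := h + j) (by omega))
      simpa using this
    · have h1 := c_big (p := p) hN h5 j (by omega)
      rw [show h + j + 1 = h + 1 + j by ring]
      have := h1.mul (zZ_I (p := p) hN h5 (j := h + j) (by omega))
      simpa using this

lemma Cc_val : I p 4 (Cc h (2 * h) - (Z (Nq h) 1 h ^ 3 / 6 + 1 / 12 * Z (Nq h) 3 h)) := by
  have h1 := Cc_half (p := p) hN h5
  rw [trans3, ← YY_eq] at h1
  have h2 := I.cst_mul h5 (-1 / 2) (-24) (by norm_num) (Z12_h (p := p) hN h5)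
  have h3 := I.cst_mul h5 (1 / 4) 12 (by norm_num) (YY_h (p := p) hN h5)
  have := (h1.add h2).add h3
  have e : Cc h (2 * h) - ((Z (Nq h) 1 h ^ 3 - 3 * Z (Nq h) 1 h * Z (Nq h) 2 h + 2 * Z (Nq h) 3 h) / 6 + YY (Nq h) h) +
      -1 / 2 * (Z (Nq h) 1 h * Z (Nq h) 2 h) + 1 / 4 * (4 * YY (Nq h) h + Z (Nq h) 3 h) =
      Cc h (2 * h) - (Z (Nq h) 1 h ^ 3 / 6 + 1 / 12 * Z (Nq h) 3 h) := by ring
  rwa [e] at this

end

end Pool.Agent.Helper88.PC
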