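import Pool.Agent.Helper88.PC

set_option autoImplicit false
set_option linter.unusedSectionVars false

namespace Pool.Agent.Helper88.PD

open Finset Pool.Agent.Helper857.Pad Pool.Agent.Helper857.W Pool.Agent.Helper88.Comb Pool.Agent.Helper88.Sq
  Pool.Agent.Helper88.PA Pool.Agent.Helper88.PB Pool.Agent.Helper88.PC

variable {p : ℕ} [hp : Fact p.Prime]

section
variable {h : ℕ} (hN : 2 * h + 1 = p ^ 1) (h5 : 3 < p)

def DD (h : ℕ) : ℚ := ∏ i ∈ range h, (1 - 1 / 2 * z (Nq h) i)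
def MMM (h : ℕ) : ℚ := ∏ i ∈ range h, (1 - z (Nq h) i)
def WQ (h : ℕ) : ℚ := ∏ i ∈ range (2 * h), (1 - z (Nq h) i ^ 2)
def G (h : ℕ) (x : ℚ) : ℚ := ∑ j ∈ range (2 * h + 1), Sq.F x j

lemma four_DD (h : ℕ) : (4 : ℚ) ^ h * DD h = MMM h := four_D h

lemma G_one (h : ℕ) : G h (Nq h) = DD h ^ 2 := by
  have := val_p h
  unfold G Nq
  rw [this, c_h, mul_pow, ← pow_mul, mul_comm h 2, pow_mul]
  norm_num
  rfl

lemma G_neg (h : ℕ) : G h (-(Nq h)) * (4 ^ h) ^ 2 = WQ h ^ 2 := by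
  have := val_neg_p h
  unfold G Nq
  rw [this, W_prod]
  have h4 : (4 : ℚ) ^ (2 * h + 1) = 4 * (4 ^ h) ^ 2 := by rw [pow_succ, ← pow_mul, mul_comm 2 h]; ring
  rw [h4]
  have h5 : (4 : ℚ) ^ h ≠ 0 := by positivity
  unfold WQ Nq
  field_simp
  ring

include hN h5

lemma G_exp (l : ℤ) : I p 4 (G h (l * Nq h) -
    (1 + l * Aa h (2 * h) - l ^ 2 * Bb h (2 * h) - l ^ 3 * Cc h (2 * h))) := gl hN h5 l le_rfl

lemma G_two : I p 4 (G h (2 * Nq h) - (-3 + 3 * G h (Nq h) + G h (-(Nq h)) - 6 * Cc h (2 * h))) := by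
  have h1 := G_exp (p := p) hN h5 1
  have h2 := G_exp (p := p) hN h5 (-1)
  have h3 := G_exp (p := p) hN h5 2
  push_cast at h1 h2 h3
  rw [one_mul] at h1
  rw [neg_one_mul] at h2
  have m3 : (3 : ℚ) ∈ Zp p := by exact_mod_cast nat_mem 3
  have := (h3.sub (I.mem_mul m3 h1)).sub h2
  have e : G h (2 * Nq h) - (1 + 2 * Aa h (2 * h) - 2 ^ 2 * Bb h (2 * h) - 2 ^ 3 * Cc h (2 * h)) -
      3 * (G h (Nq h) - (1 + 1 * Aa h (2 * h) - 1 ^ 2 * Bb h (2 * h) - 1 ^ 3 * Cc h (2 * h))) -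
      (G h (-(Nq h)) - (1 + -1 * Aa h (2 * h) - (-1) ^ 2 * Bb h (2 * h) - (-1) ^ 3 * Cc h (2 * h))) =
      G h (2 * Nq h) - (-3 + 3 * G h (Nq h) + G h (-(Nq h)) - 6 * Cc h (2 * h)) := by ring
  rwa [e] at this

lemma DD_val : Rl p (Z (Nq h) 1 h) (Z (Nq h) 3 h) (DD h) (-1 / 2) (5 / 48) := by
  unfold Rl
  have h1 := prodE (p := p) h5 (fun i => 1 / 2 * z (Nq h) i) h (fun i hi =>
    I.cst_mul h5 (1 / 2) 24 (by norm_num) (zI hN (by omega)))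
  have s1 : ∑ i ∈ range h, 1 / 2 * z (Nq h) i = 1 / 2 * Z (Nq h) 1 h := by
    unfold Z; rw [mul_sum]; simp
  have s2 : ∑ i ∈ range h, (1 / 2 * z (Nq h) i) ^ 2 = 1 / 4 * Z (Nq h) 2 h := by
    unfold Z; rw [mul_sum]; exact sum_congr rfl fun i _ => by ring
  have s3 : ∑ i ∈ range h, (1 / 2 * z (Nq h) i) ^ 3 = 1 / 8 * Z (Nq h) 3 h := by
    unfold Z; rw [mul_sum]; exact sum_congr rfl fun i _ => by ring
  rw [s1, s2, s3] at h1
  have h2 := I.cst_mul h5 (-1 / 8) (-6) (by norm_num) (Z2_h' (p := p) hN h5)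
  have h3 := I.cst_mul h5 (1 / 16) 3 (by norm_num) (Z12_h (p := p) hN h5)
  have := (h1.add h2).add h3
  unfold DD Ex
  unfold e3 at this
  generalize Z (Nq h) 1 h = s at *
  generalize Z (Nq h) 2 h = r at *
  generalize Z (Nq h) 3 h = t at *
  convert this using 1
  ring

lemma MMM_val : Rl p (Z (Nq h) 1 h) (Z (Nq h) 3 h) (MMM h) (-1) (1 / 4) := by
  unfold Rl
  have h1 := prodE (p := p) h5 (fun i => z (Nq h) i) h (fun i hi => zI hN (by omega))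
  have s1 : ∑ i ∈ range h, z (Nq h) i = Z (Nq h) 1 h := by
    unfold Z; simp
  have s2 : ∑ i ∈ range h, (z (Nq h) i) ^ 2 = Z (Nq h) 2 h := rfl
  have s3 : ∑ i ∈ range h, (z (Nq h) i) ^ 3 = Z (Nq h) 3 h := rfl
  rw [s1, s2, s3] at h1
  have h2 := I.cst_mul h5 (-1 / 2) (-24) (by norm_num) (Z2_h' (p := p) hN h5)
  have h3 := I.cst_mul h5 (1 / 2) 24 (by norm_num) (Z12_h (p := p) hN h5)
  have := (h1.add h2).add h3
  unfold MMM Ex
  unfold e3 at this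
  generalize Z (Nq h) 1 h = s at *
  generalize Z (Nq h) 2 h = r at *
  generalize Z (Nq h) 3 h = t at *
  convert this using 1
  ring

lemma Rl.one (s t x a α : ℚ) (hs : I p 1 s) (ht : I p 3 t) (ha : a ∈ Zp p) (hα : α ∈ Zp p)
    (hx : Rl p s t x a α) : I p 1 (x - 1) := by
  unfold Rl Ex at hx
  have h1 : I p 1 (a * s) := I.mem_mul ha hs
  have h2 : I p 1 (a ^ 2 * s ^ 2 / 2) := by
    have e : a ^ 2 * s ^ 2 / 2 = (a ^ 2 * (1 / 2)) * s ^ 2 := by ring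
    rw [e]
    have : I p 1 (s ^ 2) := (I.mono (by norm_num) (hs.pow 2) : I p 1 (s ^ 2))
    exact I.mem_mul ((Zp p).mul_mem ((Zp p).pow_mem ha 2) (cst' h5 (1 / 2) 24 (by norm_num))) this
  have h3 : I p 1 (a ^ 3 * s ^ 3 / 6) := by
    have e : a ^ 3 * s ^ 3 / 6 = (a ^ 3 * (1 / 6)) * s ^ 3 := by ring
    rw [e]
    have : I p 1 (s ^ 3) := (I.mono (by norm_num) (hs.pow 3) : I p 1 (s ^ 3))
    exact I.mem_mul ((Zp p).mul_mem ((Zp p).pow_mem ha 3) (cst' h5 (1 / 6) 8 (by norm_num))) this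
  have h4 : I p 1 (α * t) := I.mem_mul hα (ht.mono (by norm_num))
  have h6 := (((hx.mono (show 1 ≤ 4 by norm_num)).add h1).add (h2.add h3)).add h4
  have e : x - (1 + a * s + a ^ 2 * s ^ 2 / 2 + a ^ 3 * s ^ 3 / 6 + α * t) + a * s +
      (a ^ 2 * s ^ 2 / 2 + a ^ 3 * s ^ 3 / 6) + α * t = x - 1 := by ring
  rwa [e] at h6

lemma w_val : Rl p (Z (Nq h) 1 h) (Z (Nq h) 3 h) ((4 : ℚ) ^ h) (-1 / 2) (7 / 48) := by
  have hD := DD_val (p := p) hN h5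
  have hM := MMM_val (p := p) hN h5
  have hs := Z1_h (p := p) hN
  have ht := Z3_h (p := p) hN
  have c1 : (-1 / 2 : ℚ) ∈ Zp p := cst' h5 _ (-24) (by norm_num)
  have c2 : (7 / 48 : ℚ) ∈ Zp p := cst' h5 _ 7 (by norm_num)
  have c3 : (5 / 48 : ℚ) ∈ Zp p := cst' h5 _ 5 (by norm_num)
  set X := Ex (Z (Nq h) 1 h) (-1 / 2) + 7 / 48 * Z (Nq h) 3 h with hX
  have hXX : Rl p (Z (Nq h) 1 h) (Z (Nq h) 3 h) X (-1 / 2) (7 / 48) := by
    unfold Rl; rw [hX, sub_self]; exact I.zero 4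
  have hp1 := Rl.mul h5 hs ht c1 c1 c2 c3 hXX hD
  have e1 : (-1 / 2 + -1 / 2 : ℚ) = -1 := by norm_num
  have e2 : (7 / 48 + 5 / 48 : ℚ) = 1 / 4 := by norm_num
  rw [e1, e2] at hp1
  have hd1 : I p 1 (DD h - 1) := Rl.one hN h5 _ _ _ _ _ hs ht c1 c3 hD
  obtain ⟨d0, dm, -⟩ := unit hd1
  unfold Rl at hp1 hM ⊢
  have h3 := hM.sub hp1
  rw [← four_DD] at h3
  have h4 := h3.mul_mem dm
  have e : (4 ^ h * DD h - (Ex (Z (Nq h) 1 h) (-1) + 1 / 4 * Z (Nq h) 3 h) -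
      (X * DD h - (Ex (Z (Nq h) 1 h) (-1) + 1 / 4 * Z (Nq h) 3 h))) * (DD h)⁻¹ = (4 : ℚ) ^ h - X := by
    field_simp
    ring
  rwa [e] at h4

lemma W_val : Rl p (Z (Nq h) 1 h) (Z (Nq h) 3 h) (WQ h) 0 (1 / 3) := by
  have h1 := prod_one_sub (p := p) (m := 2) (fun i => z (Nq h) i ^ 2) (2 * h) (by
    intro i hi
    simpa using (zI (p := p) hN (i := i) (by omega)).pow 2)
  have h2 : I p 4 (∑ i ∈ range (2 * h), z (Nq h) i ^ 2 - (2 * Z (Nq h) 2 h + 2 * Z (Nq h) 3 h)) := by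
    have e0 : ∑ i ∈ range (2 * h), z (Nq h) i ^ 2 = ∑ m ∈ Icc 1 (2 * h), g (Nq h) m ^ 2 := by
      rw [sum_shift]; exact sum_congr rfl fun i _ => by rw [z_g]
    rw [e0, halves, Z_SS, Z_HH]
    unfold SS HH
    rw [mul_sum, mul_sum, ← sum_add_distrib, ← sum_sub_distrib]
    apply I.sum
    intro i hi
    rw [mem_Icc] at hi
    have := (g_refl (p := p) (le_refl 1) hN (m := i) (by omega) (by omega)).2
    rw [Nq_cast] at this
    have e : g (Nq h) i ^ 2 + g (Nq h) (2 * h + 1 - i) ^ 2 - (2 * g (Nq h) i ^ 2 + 2 * g (Nq h) i ^ 3) =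
      g (Nq h) (2 * h + 1 - i) ^ 2 - g (Nq h) i ^ 2 - 2 * g (Nq h) i ^ 3 := by ring
    rw [e]; exact this
  have h3 := I.mem_mul (show (-2 : ℚ) ∈ Zp p by exact_mod_cast int_mem (-2)) (Z2_h' (p := p) hN h5)
  unfold Rl WQ Ex
  have := (h1.sub h2).add h3
  convert this using 1
  ring

/-- the first sum: `W^2 G(2N) = w^4 (1 + 7/12 t)` -/
lemma key1 : I p 4 (WQ h ^ 2 * G h (2 * Nq h) - (4 ^ h) ^ 4 * (1 + 7 / 12 * Z (Nq h) 3 h)) := by
  have hs := Z1_h (p := p) hN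
  have ht := Z3_h (p := p) hN
  have hM := MMM_val (p := p) hN h5
  have hw := w_val (p := p) hN h5
  have hW := W_val (p := p) hN h5
  have g2 := G_two (p := p) hN h5
  have hc := Cc_val (p := p) hN h5
  have c1 : (-1 / 2 : ℚ) ∈ Zp p := cst' h5 _ (-24) (by norm_num)
  have c2 : (7 / 48 : ℚ) ∈ Zp p := cst' h5 _ 7 (by norm_num)
  have c4 : (1 / 4 : ℚ) ∈ Zp p := cst' h5 _ 12 (by norm_num)
  have c5 : (1 / 3 : ℚ) ∈ Zp p := cst' h5 _ 16 (by norm_num)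
  have c6 : (-1 : ℚ) ∈ Zp p := (Zp p).neg_mem (Zp p).one_mem
  have c0 : (0 : ℚ) ∈ Zp p := (Zp p).zero_mem
  have hw1 : I p 1 ((4 : ℚ) ^ h - 1) := Rl.one hN h5 _ _ _ _ _ hs ht c1 c2 hw
  obtain ⟨w0, wm, -⟩ := unit hw1
  have g1 := G_one h
  have gn := G_neg h
  have fd := four_DD h
  set s := Z (Nq h) 1 h with hsd
  set t := Z (Nq h) 3 h with htd
  set w : ℚ := 4 ^ h with hwd
  set W := WQ h with hWd
  set M := MMM h with hMd
  set D := DD h with hDd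
  -- squares
  have hw2 := Rl.mul h5 hs ht c1 c1 c2 c2 hw hw
  have hM2 := Rl.mul h5 hs ht c6 c6 c4 c4 hM hM
  have hW2 := Rl.mul h5 hs ht c0 c0 c5 c5 hW hW
  have e1 : (-1 / 2 + -1 / 2 : ℚ) = -1 := by norm_num
  have e2 : (7 / 48 + 7 / 48 : ℚ) = 7 / 24 := by norm_num
  have e3 : (-1 + -1 : ℚ) = -2 := by norm_num
  have e4 : (1 / 4 + 1 / 4 : ℚ) = 1 / 2 := by norm_num
  have e5 : (0 + 0 : ℚ) = 0 := by norm_num
  have e6 : (1 / 3 + 1 / 3 : ℚ) = 2 / 3 := by norm_num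
  rw [e1, e2] at hw2
  rw [e3, e4] at hM2
  rw [e5, e6] at hW2
  have d1 : (7 / 24 : ℚ) ∈ Zp p := cst' h5 _ 14 (by norm_num)
  have d2 : (2 / 3 : ℚ) ∈ Zp p := cst' h5 _ 32 (by norm_num)
  have d3 : (19 / 24 : ℚ) ∈ Zp p := cst' h5 _ 38 (by norm_num)
  have d4 : (-2 : ℚ) ∈ Zp p := by exact_mod_cast int_mem (-2)
  have d5 : (-3 : ℚ) ∈ Zp p := by exact_mod_cast int_mem (-3)
  have d6 : (3 : ℚ) ∈ Zp p := by exact_mod_cast int_mem 3
  have d7 : (7 / 12 : ℚ) ∈ Zp p := cst' h5 _ 28 (by norm_num)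
  have hw2one : I p 1 (w * w - 1) := Rl.one hN h5 _ _ _ _ _ hs ht c6 d1 hw2
  have hw2mem : w * w ∈ Zp p := by
    have := (Zp p).add_mem hw2one.mem (Zp p).one_mem
    rwa [sub_add_cancel] at this
  -- 6 w^2 Cc = s^3 + t/2
  have hcc : I p 3 (s ^ 3 / 6 + 1 / 12 * t) := by
    have a1 : I p 3 (s ^ 3) := by simpa using hs.pow 3
    have a2 := I.mem_mul (cst' h5 (1 / 6) 8 (by norm_num)) a1
    have a3 := I.mem_mul (cst' h5 (1 / 12) 4 (by norm_num)) ht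
    have := a2.add a3
    have e : 1 / 6 * s ^ 3 + 1 / 12 * t = s ^ 3 / 6 + 1 / 12 * t := by ring
    rwa [e] at this
  have hwc : I p 4 (w * w * Cc h (2 * h) - (s ^ 3 / 6 + 1 / 12 * t)) := by
    have a1 := I.mem_mul hw2mem hc
    have a2 : I p 4 ((w * w - 1) * (s ^ 3 / 6 + 1 / 12 * t)) := by simpa using hw2one.mul hcc
    have := a1.add a2
    have e : w * w * (Cc h (2 * h) - (s ^ 3 / 6 + 1 / 12 * t)) + (w * w - 1) * (s ^ 3 / 6 + 1 / 12 * t) =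
      w * w * Cc h (2 * h) - (s ^ 3 / 6 + 1 / 12 * t) := by ring
    rwa [e] at this
  -- w^2 G(2N)
  have hwg : Rl p s t (w * w * G h (2 * Nq h)) (-3) (19 / 24) := by
    unfold Rl at hw2 hM2 hW2 ⊢
    have a1 := I.mem_mul hw2mem g2
    have a2 := I.mem_mul d5 hw2
    have a3 := I.mem_mul d6 hM2
    have a4 := I.mem_mul (show (-6 : ℚ) ∈ Zp p by exact_mod_cast int_mem (-6)) hwc
    have := (((a1.add a2).add a3).add hW2).add a4
    convert this using 1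
    rw [g1]
    have gn' : w * w * G h (-Nq h) = W * W := by
      linear_combination gn
    have fd' : w * w * D ^ 2 = M * M := by
      rw [← fd]; ring
    unfold Ex
    linear_combination gn' + 3 * fd'
  have hfin := Rl.mul h5 hs ht c0 d5 d2 d3 hW2 hwg
  have f1 : (0 + -3 : ℚ) = -3 := by norm_num
  have f2 : (2 / 3 + 19 / 24 : ℚ) = 35 / 24 := by norm_num
  rw [f1, f2] at hfin
  -- w^6 (1 + 7/12 t)
  have hw4 := Rl.mul h5 hs ht c6 c6 d1 d1 hw2 hw2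
  have f3 : (7 / 24 + 7 / 24 : ℚ) = 7 / 12 := by norm_num
  rw [e3, f3] at hw4
  have hw6 := Rl.mul h5 hs ht d4 c6 d7 d1 hw4 hw2
  have f4 : (-2 + -1 : ℚ) = -3 := by norm_num
  have f5 : (7 / 12 + 7 / 24 : ℚ) = 7 / 8 := by norm_num
  rw [f4, f5] at hw6
  have h7 : Rl p s t (1 + 7 / 12 * t) 0 (7 / 12) := by
    unfold Rl Ex
    have : 1 + 7 / 12 * t - (1 + 0 * s + 0 ^ 2 * s ^ 2 / 2 + 0 ^ 3 * s ^ 3 / 6 + 7 / 12 * t) = 0 := by ring
    rw [this]; exact I.zero 4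
  have d8 : (7 / 8 : ℚ) ∈ Zp p := cst' h5 _ 42 (by norm_num)
  have h8 := Rl.mul h5 hs ht d5 c0 d8 d7 hw6 h7
  have f6 : (-3 + 0 : ℚ) = -3 := by norm_num
  have f7 : (7 / 8 + 7 / 12 : ℚ) = 35 / 24 := by norm_num
  rw [f6, f7] at h8
  unfold Rl at hfin h8
  have h9 := (hfin.sub h8).mul_mem ((Zp p).mul_mem wm wm)
  convert h9 using 1
  field_simp
  ring

end

end Pool.Agent.Helper88.PD
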