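import Pool.Agent.Helper88.PD

set_option autoImplicit false
set_option linter.unusedSectionVars false

namespace Pool.Agent.Helper88.PE

open Finset Pool.Agent.Helper857.Pad Pool.Agent.Helper857.W Pool.Agent.Helper88.Comb Pool.Agent.Helper88.Sq
  Pool.Agent.Helper88.PA Pool.Agent.Helper88.PB Pool.Agent.Helper88.PC Pool.Agent.Helper88.PD
  Pool.Agent.Results.MP_147bb8_nt.Divisibility

lemma u_F (m j : ℕ) (hj : j ≤ 2 * m + 2) : u m j = Sq.F (2 * (m : ℚ) + 2) j := by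
  induction j with
  | zero => simp [u, P, Sq.F_zero]
  | succ j ih =>
    have h1 := u_j m j (by omega)
    rw [ih (by omega)] at h1
    rw [Sq.F_succ]
    have h3 : (2 * ((j : ℚ) + 1) ^ 3) ≠ 0 := by positivity
    rw [mul_div_assoc', eq_div_iff h3, h1]
    ring

/-- the summand -/
noncomputable def s (k : ℕ) : ℚ := (28 * (k : ℚ) ^ 2 + 18 * k + 3) * tt k

lemma K_W (h : ℕ) : K (2 * h) = 3 * Nq h ^ 2 * WQ h ^ 2 / (4 ^ h) ^ 4 := by
  unfold K
  rw [W_prod]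
  have h4 : (16 : ℚ) ^ (2 * h + 1) = 16 * (4 ^ h) ^ 4 := by
    rw [pow_succ, ← pow_mul, show (16 : ℚ) = 4 ^ 2 by norm_num, ← pow_mul]; ring
  rw [h4]
  have h5 : (4 : ℚ) ^ h ≠ 0 := by positivity
  unfold WQ Nq
  push_cast
  field_simp
  ring

lemma K_D (h : ℕ) : K h = 3 * Nq h ^ 2 * DD h ^ 2 := by
  have e1 : K h = 12 * (((h : ℚ) + 1) * c (h + 1)) ^ 2 := by
    unfold K c
    have h4 : (16 : ℚ) ^ (h + 1) = (4 ^ (h + 1)) ^ 2 := by
      rw [← pow_mul, mul_comm, pow_mul]; norm_num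
    rw [h4]
    have h5 : (4 : ℚ) ^ (h + 1) ≠ 0 := by positivity
    field_simp
  have e2 : DD h ^ 2 = c h ^ 2 := by
    rw [c_h, mul_pow, ← pow_mul, mul_comm h 2, pow_mul]
    norm_num
    rfl
  rw [e1, e2, c_succ]
  have h3 : (h : ℚ) + 1 ≠ 0 := by positivity
  unfold Nq
  field_simp
  ring

/-- first sum -/
lemma sum1 (h : ℕ) : ∑ k ∈ range (2 * h + 1), s k = 3 * Nq h ^ 2 * WQ h ^ 2 / (4 ^ h) ^ 4 * G h (2 * Nq h) := by
  unfold s
  rw [Pool.Agent.Results.MP_147bb8_nt.Divisibility.wz (2 * h), K_W]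
  congr 1
  unfold PD.G
  apply sum_congr rfl
  intro j hj
  rw [mem_range] at hj
  rw [u_F _ _ (by omega)]
  congr 1
  unfold Nq
  push_cast
  ring

lemma sum2 (h : ℕ) : ∑ k ∈ range (h + 1), s k = 3 * Nq h ^ 2 * DD h ^ 2 * ∑ j ∈ range (h + 1), Sq.F (-(Nq h)) j := by
  unfold s
  rw [Pool.Agent.Results.MP_147bb8_nt.Divisibility.wz h, K_D]
  congr 1
  apply sum_congr rfl
  intro j hj
  rw [mem_range] at hj
  rw [u_F _ _ (by omega)]
  unfold Sq.F
  rw [← psi_symm]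
  congr 2
  unfold Nq
  ring

variable {p : ℕ} [hp : Fact p.Prime]

section
variable {h : ℕ} (hN : 2 * h + 1 = p ^ 1) (h5 : 3 < p)
include hN h5

lemma first : I p 6 (∑ k ∈ range p, s k - (3 * (p : ℚ) ^ 2 - 7 / 2 * p ^ 5 * bernoulli (p - 3))) := by
  have hs := Z1_h (p := p) hN
  have ht := Z3_h (p := p) hN
  have hw := w_val (p := p) hN h5
  have c1 : (-1 / 2 : ℚ) ∈ Zp p := cst' h5 _ (-24) (by norm_num)
  have c2 : (7 / 48 : ℚ) ∈ Zp p := cst' h5 _ 7 (by norm_num)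
  have hw1 : I p 1 ((4 : ℚ) ^ h - 1) := Rl.one hN h5 _ _ _ _ _ hs ht c1 c2 hw
  obtain ⟨w0, wm, -⟩ := unit hw1
  have k1 := key1 (p := p) hN h5
  have k2 := (k1.mul_mem ((Zp p).pow_mem wm 4))
  have e1 : (WQ h ^ 2 * G h (2 * Nq h) - (4 ^ h) ^ 4 * (1 + 7 / 12 * Z (Nq h) 3 h)) * ((4 : ℚ) ^ h)⁻¹ ^ 4 =
      WQ h ^ 2 * G h (2 * Nq h) / (4 ^ h) ^ 4 - (1 + 7 / 12 * Z (Nq h) 3 h) := by
    field_simp
  rw [e1] at k2
  have hpn : p = 2 * h + 1 := by rw [hN, pow_one]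
  have hsum := sum1 h
  rw [← hpn] at hsum
  rw [hsum]
  have hP : Nq h = (p : ℚ) := Nq_p hN
  -- Bernoulli
  have hb := harm3 (p := p) (by omega)
  have e2 : Z (Nq h) 3 h = (p : ℚ) ^ 3 * ∑ j ∈ Icc 1 ((p - 1) / 2), 1 / (j : ℚ) ^ 3 := by
    rw [Z_HH]
    unfold HH g
    rw [mul_sum, hP, show (p - 1) / 2 = h by omega]
    exact sum_congr rfl fun i _ => by rw [div_pow]; ring
  have hb3 := (I.p_pow (p := p) 3).mul hb
  have hb4 := I.cst_mul h5 (7 / 12) 28 (by norm_num) hb3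
  have h9 := k2.add hb4
  have m3 : (3 : ℚ) ∈ Zp p := by exact_mod_cast int_mem 3
  have h10 := (I.p_pow (p := p) 2).mul (I.mem_mul m3 h9)
  convert h10 using 1
  rw [e2, hP]
  ring

/-- alternating harmonic sum -/
def Al (h : ℕ) : ℚ := ∑ k ∈ range h, (-1) ^ (k + 1) / ((k : ℚ) + 1) ^ 2

lemma Aa_half : I p 3 (Aa h h + Z (Nq h) 1 h + Nq h ^ 2 * Al h) := by
  have h1 : I p 3 (Aa h h - ∑ j ∈ range h, b h (j + 1) * (1 - Nq h / 2 * Rr h (j + 1)) * z (Nq h) j) := by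
    unfold Aa
    rw [← sum_sub_distrib]
    apply I.sum
    intro j hj
    rw [mem_range] at hj
    rw [← sub_mul]
    have := (c_b2 (p := p) hN h5 (j := j + 1) (by omega)).mul (zI (p := p) hN (i := j) (by omega))
    simpa using this
  have e1 : ∑ j ∈ range h, b h (j + 1) * (1 - Nq h / 2 * Rr h (j + 1)) * z (Nq h) j =
      Nq h * T (fun j => 1 / ((j : ℚ) + 1)) h - Nq h ^ 2 / 2 * f1 h := by
    unfold T f1
    rw [mul_sum, mul_sum, ← sum_sub_distrib]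
    apply sum_congr rfl
    intro j _
    unfold z
    ring
  rw [e1, T_inv, f1_val] at h1
  have h2 := I.cst_mul h5 (-1 / 2) (-24) (by norm_num) (Z2_h (p := p) hN h5)
  have := h1.add h2
  convert this using 1
  have z1 := H_Z (Nq h) 1 h
  have z2 := H_Z (Nq h) 2 h
  rw [← z1, ← z2]
  unfold Al
  ring

lemma Bb_half : I p 3 (Bb h h + Z (Nq h) 1 h ^ 2 / 2) := by
  have h1 : I p 3 (Bb h h - ∑ j ∈ range h, b h (j + 1) * z (Nq h) j ^ 2) := by
    unfold Bb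
    rw [← sum_sub_distrib]
    apply I.sum
    intro j hj
    rw [mem_range] at hj
    rw [← sub_mul]
    have := (c_b1 (p := p) hN h5 (j := j + 1) (by omega)).mul ((zI (p := p) hN (i := j) (by omega)).pow 2)
    simpa using this
  have e1 : ∑ j ∈ range h, b h (j + 1) * z (Nq h) j ^ 2 =
      Nq h ^ 2 * T (fun j => 1 / ((j : ℚ) + 1) / ((j : ℚ) + 1)) h := by
    unfold T
    rw [mul_sum]
    apply sum_congr rfl
    intro j _
    unfold z
    have h3 : (j : ℚ) + 1 ≠ 0 := by positivity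
    field_simp
  rw [e1, T_inv2] at h1
  have h2 := I.cst_mul h5 (-1 / 2) (-24) (by norm_num) (Z2_h (p := p) hN h5)
  have := h1.add h2
  convert this using 1
  have z1 := H_Z (Nq h) 1 h
  have z2 := H_Z (Nq h) 2 h
  rw [← z1, ← z2]
  ring

lemma euler_al : I p 1 (Al h - 2 * (-1) ^ h * (Pool.Agent.R856.eulerE (p - 3) : ℚ)) := by
  have hpn : p = 2 * h + 1 := by rw [hN, pow_one]
  have hE := Pool.Agent.R856.eulerE_half p (by omega) h hpn (p - 3) (by omega) ⟨h - 1, by omega⟩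
  set A' : ℤ := ∑ k ∈ range h, (-1) ^ (k + 1) * ((k : ℤ) + 1) ^ (p - 3) with hA'
  have h1 : I p 1 (Al h - (A' : ℚ)) := by
    unfold Al
    rw [hA']
    push_cast
    rw [← sum_sub_distrib]
    apply I.sum
    intro k hk
    rw [mem_range] at hk
    have hk1 : ¬ p ∣ (k + 1) := fun hd => absurd (Nat.le_of_dvd (by omega) hd) (by omega)
    have hf := fermat (p := p) (k + 1) hk1
    have hm := inv_nat_mem (p := p) hk1
    have e : (-1 : ℚ) ^ (k + 1) / ((k : ℚ) + 1) ^ 2 - (-1) ^ (k + 1) * ((k : ℚ) + 1) ^ (p - 3) =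
        ((((k + 1 : ℕ) : ℚ)) ^ (p - 1) - 1) * (-((-1) ^ (k + 1)) * (((k + 1 : ℕ) : ℚ)⁻¹) ^ 2) := by
      have e0 : p - 1 = (p - 3) + 2 := by omega
      rw [e0, pow_add]
      have h3 : (k : ℚ) + 1 ≠ 0 := by positivity
      push_cast
      field_simp
      ring
    rw [e]
    refine hf.mul_mem ((Zp p).mul_mem ?_ ((Zp p).pow_mem hm 2))
    exact (Zp p).neg_mem ((Zp p).pow_mem ((Zp p).neg_mem (Zp p).one_mem) _)
  have h2 : ((Pool.Agent.R856.eulerE (p - 3) - 2 ^ (p - 3 + 1) * (-1) ^ h * A' : ℤ) : ZMod p) = 0 := by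
    rw [hA']
    push_cast
    rw [hE]
    ring
  rw [ZMod.intCast_zmod_eq_zero_iff_dvd] at h2
  obtain ⟨q, hq⟩ := h2
  have h3 : I p 1 ((Pool.Agent.R856.eulerE (p - 3) : ℚ) - 2 ^ (p - 3 + 1) * (-1) ^ h * (A' : ℚ)) := by
    refine ⟨(q : ℚ), int_mem q, ?_⟩
    rw [pow_one]
    exact_mod_cast hq
  have f2 := fermat (p := p) 2 (n2 h5)
  push_cast at f2
  have m : (-(-1 : ℚ) ^ h * 2) ∈ Zp p :=
    (Zp p).mul_mem ((Zp p).neg_mem ((Zp p).pow_mem ((Zp p).neg_mem (Zp p).one_mem) _)) (by exact_mod_cast nat_mem 2)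
  have h4 := (h1.add (I.mem_mul m h3)).add ((f2.mul_mem (int_mem A')).neg)
  convert h4 using 1
  have e0 : p - 1 = (p - 3 + 1) + 1 := by omega
  rw [e0, pow_succ (2 : ℚ) (p - 3 + 1)]
  have e5 : ((-1 : ℚ) ^ h) * (-1) ^ h = 1 := by rw [← mul_pow]; norm_num
  generalize (-1 : ℚ) ^ h = σ at *
  linear_combination (-2 * 2 ^ (p - 3 + 1) * (A' : ℚ)) * e5

lemma second : I p 5 (∑ k ∈ range (h + 1), s k -
    (3 * (p : ℚ) ^ 2 + 6 * (-1) ^ h * p ^ 4 * (Pool.Agent.R856.eulerE (p - 3) : ℚ))) := by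
  rw [sum2]
  have hs := Z1_h (p := p) hN
  have ht := Z3_h (p := p) hN
  have hP : Nq h = (p : ℚ) := Nq_p hN
  have g1 := gl (p := p) hN h5 (-1) (n := h) (by omega)
  push_cast at g1
  rw [neg_one_mul] at g1
  have hC : I p 3 (Cc h h) := by
    unfold Cc
    apply I.sum
    intro j hj
    rw [mem_range] at hj
    exact I.mem_mul (c_mem h5 _) (zZ_I hN h5 (by omega))
  have hA := Aa_half (p := p) hN h5
  have hB := Bb_half (p := p) hN h5
  have hE := (I.p_pow (p := p) 2).mul (euler_al (p := p) hN h5)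
  have hD := DD_val (p := p) hN h5
  have c1 : (-1 / 2 : ℚ) ∈ Zp p := cst' h5 _ (-24) (by norm_num)
  have c3 : (5 / 48 : ℚ) ∈ Zp p := cst' h5 _ 5 (by norm_num)
  have hD2 := Rl.mul h5 hs ht c1 c1 c3 c3 hD hD
  set V := ∑ j ∈ range (h + 1), Sq.F (-Nq h) j with hV
  set s1 := Z (Nq h) 1 h with hs1
  set t := Z (Nq h) 3 h with ht1
  set E : ℚ := (Pool.Agent.R856.eulerE (p - 3) : ℚ) with hEd
  have mE : E ∈ Zp p := int_mem _
  have ms : ((-1 : ℚ)) ^ h ∈ Zp p := (Zp p).pow_mem ((Zp p).neg_mem (Zp p).one_mem) _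
  -- V mod p^3
  have v1 : I p 3 (V - (1 + s1 + s1 ^ 2 / 2 + 2 * (-1) ^ h * (p : ℚ) ^ 2 * E)) := by
    have := ((((g1.mono (show 3 ≤ 4 by norm_num)).sub hA).sub hB).add hC).add (hE : I p 3 _)
    convert this using 1
    rw [hP]
    ring
  -- D^2 mod p^3
  have ds : I p 3 (DD h ^ 2 - (1 - s1 + s1 ^ 2 / 2)) := by
    unfold Rl Ex at hD2
    have a1 : I p 3 (s1 ^ 3) := by simpa using hs.pow 3
    have a2 := I.cst_mul h5 (-1 / 6) (-8) (by norm_num) a1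
    have a3 := I.cst_mul h5 (5 / 24) 10 (by norm_num) ht
    have := ((hD2.mono (show 3 ≤ 4 by norm_num)).add a2).add a3
    convert this using 1
    ring
  have hE2 : I p 2 (2 * (-1) ^ h * (p : ℚ) ^ 2 * E) := by
    have e : 2 * (-1) ^ h * (p : ℚ) ^ 2 * E = (p : ℚ) ^ 2 * (2 * (-1) ^ h * E) := by ring
    rw [e]
    exact (I.p_pow 2).mul_mem ((Zp p).mul_mem ((Zp p).mul_mem (by exact_mod_cast nat_mem 2) ms) mE)
  have hp2 : I p 2 (s1 ^ 2 / 2) := by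
    have : I p 2 (s1 ^ 2) := by simpa using hs.pow 2
    have := I.cst_mul h5 (1 / 2) 24 (by norm_num) this
    have e : 1 / 2 * s1 ^ 2 = s1 ^ 2 / 2 := by ring
    rwa [e] at this
  have hX : (1 - s1 + s1 ^ 2 / 2) ∈ Zp p :=
    (Zp p).add_mem ((Zp p).sub_mem (Zp p).one_mem hs.mem) hp2.mem
  have hY : (1 + s1 + s1 ^ 2 / 2 + 2 * (-1) ^ h * (p : ℚ) ^ 2 * E) ∈ Zp p :=
    (Zp p).add_mem ((Zp p).add_mem ((Zp p).add_mem (Zp p).one_mem hs.mem) hp2.mem) hE2.mem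
  have hVm : V ∈ Zp p := by
    have := (Zp p).add_mem v1.mem hY
    rwa [sub_add_cancel] at this
  have p1 := (ds.mul_mem hVm).add (I.mem_mul hX v1)
  -- remainder
  have r1 : I p 3 (s1 ^ 4 / 4) := by
    have := (hp2.mul hp2).mono (show 3 ≤ 2 + 2 by norm_num)
    convert this using 1
    ring
  have r2 : I p 3 ((-s1 + s1 ^ 2 / 2) * (2 * (-1) ^ h * (p : ℚ) ^ 2 * E)) := by
    have a1 : I p 1 (-s1 + s1 ^ 2 / 2) := hs.neg.add (hp2.mono (by norm_num))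
    have := a1.mul hE2
    simpa using this
  have fin := (p1.add r1).add r2
  have m3 : (3 : ℚ) ∈ Zp p := by exact_mod_cast int_mem 3
  have := (I.p_pow (p := p) 2).mul (I.mem_mul m3 fin)
  convert this using 1
  rw [hP]
  ring

end

end Pool.Agent.Helper88.PE
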