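import Pool.Agent.Helper88.PD

set_option autoImplicit false

namespace Pool.Agent.Helper88.QB

open Finset Pool.Agent.Helper88.Comb Pool.Agent.Helper88.Sq

/-- rising factorial -/
def ph (x : ℚ) (n : ℕ) : ℚ := ∏ i ∈ range n, (x + i)

lemma ph_zero (x : ℚ) : ph x 0 = 1 := by simp [ph]

lemma ph_succ (x : ℚ) (n : ℕ) : ph x (n + 1) = ph x n * (x + n) := by
  unfold ph; rw [prod_range_succ]

lemma ph_pos {x : ℚ} (hx : 0 < x) (n : ℕ) : 0 < ph x n := by
  unfold ph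
  exact prod_pos fun i _ => by positivity

lemma ph_ne {x : ℚ} (hx : 0 < x) (n : ℕ) : ph x n ≠ 0 := (ph_pos hx n).ne'

lemma ph_add (x : ℚ) (m n : ℕ) : ph x (m + n) = ph x m * ph (x + m) n := by
  induction n with
  | zero => simp [ph_zero]
  | succ n ih =>
    rw [← add_assoc, ph_succ, ih, ph_succ]
    push_cast
    ring

lemma ph_one (n : ℕ) : ph 1 n = (n.factorial : ℚ) := by
  induction n with
  | zero => simp [ph_zero]
  | succ n ih => rw [ph_succ, ih, Nat.factorial_succ]; push_cast; ring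

/-- beta numbers -/
def e (n l : ℕ) : ℚ := (n.factorial : ℚ) * (l.factorial : ℚ) / ((n + l + 1).factorial : ℚ)

lemma e_right (n l : ℕ) : e n (l + 1) = e n l * (((l : ℚ) + 1) / ((n : ℚ) + l + 2)) := by
  unfold e
  rw [show n + (l + 1) + 1 = (n + l + 1) + 1 by ring, Nat.factorial_succ (n + l + 1), Nat.factorial_succ l]
  have h1 : ((n + l + 1).factorial : ℚ) ≠ 0 := by positivity
  have h2 : (n : ℚ) + l + 2 ≠ 0 := by positivity
  have h3 : (n : ℚ) + l + 1 + 1 ≠ 0 := by positivity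
  push_cast
  field_simp
  ring

lemma e_left (n l : ℕ) : e (n + 1) l = e n l * (((n : ℚ) + 1) / ((n : ℚ) + l + 2)) := by
  unfold e
  rw [show n + 1 + l + 1 = (n + l + 1) + 1 by ring, Nat.factorial_succ (n + l + 1), Nat.factorial_succ n]
  have h1 : ((n + l + 1).factorial : ℚ) ≠ 0 := by positivity
  have h2 : (n : ℚ) + l + 2 ≠ 0 := by positivity
  have h3 : (n : ℚ) + l + 1 + 1 ≠ 0 := by positivity
  push_cast
  field_simp
  ring

lemma e_zero_right (n : ℕ) : e n 0 = 1 / ((n : ℚ) + 1) := by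
  unfold e
  rw [add_zero, Nat.factorial_succ]
  have h1 : (n.factorial : ℚ) ≠ 0 := by positivity
  have h3 : (n : ℚ) + 1 ≠ 0 := by positivity
  simp only [Nat.factorial_zero]
  push_cast
  field_simp

lemma e_symm (n l : ℕ) : e n l = e l n := by
  unfold e; rw [mul_comm, show n + l = l + n by ring]

lemma e_zero_left (n : ℕ) : e 0 n = 1 / ((n : ℚ) + 1) := by
  rw [e_symm, e_zero_right]

/-- `w k = k!/(1/2)_(k+1)` -/
def w (k : ℕ) : ℚ := (k.factorial : ℚ) / ph (1 / 2) (k + 1)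

lemma w_zero : w 0 = 2 := by simp [w, ph_succ, ph_zero]

lemma w_succ (k : ℕ) : w (k + 1) = w k * (((k : ℚ) + 1) / (k + 3 / 2)) := by
  unfold w
  rw [ph_succ _ (k + 1), Nat.factorial_succ]
  have h1 := ph_ne (show (0 : ℚ) < 1 / 2 by norm_num) (k + 1)
  have h2 : (k : ℚ) + 3 / 2 ≠ 0 := by positivity
  have h3 : (1 / 2 : ℚ) + ((k + 1 : ℕ) : ℚ) = k + 3 / 2 := by push_cast; ring
  rw [h3]
  push_cast
  field_simp

lemma c_ph (k : ℕ) : c k = ph (1 / 2) k / (k.factorial : ℚ) := by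
  induction k with
  | zero => simp [c_zero, ph_zero]
  | succ k ih =>
    rw [c_succ, ih, ph_succ, Nat.factorial_succ]
    have h1 : (k.factorial : ℚ) ≠ 0 := by positivity
    have h3 : (k : ℚ) + 1 ≠ 0 := by positivity
    push_cast
    field_simp
    ring

lemma w_c (k : ℕ) : w k * (((k : ℚ) + 1) * c (k + 1)) = 1 := by
  rw [c_ph, w, Nat.factorial_succ]
  have h1 := ph_ne (show (0 : ℚ) < 1 / 2 by norm_num) (k + 1)
  have h2 : (k.factorial : ℚ) ≠ 0 := by positivity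
  have h3 : (k : ℚ) + 1 ≠ 0 := by positivity
  push_cast
  field_simp

lemma w_c' (k : ℕ) : w k * ((2 * (k : ℚ) + 1) * c k) = 2 := by
  have := w_c k
  rw [c_succ] at this
  have h3 : (k : ℚ) + 1 ≠ 0 := by positivity
  field_simp at this
  linear_combination this

lemma e_w (n : ℕ) : e n (n + 1) = w n / 4 ^ (n + 1) := by
  induction n with
  | zero => rw [w_zero, e_zero_left]; norm_num
  | succ n ih =>
    rw [e_right, e_left, ih, w_succ]
    have h2 : (n : ℚ) + 3 / 2 ≠ 0 := by positivity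
    have h5 : (2 : ℚ) * n + 3 ≠ 0 := by positivity
    have h3 : (n : ℚ) + (n + 1 : ℕ) + 2 ≠ 0 := by positivity
    have h4 : ((n + 1 : ℕ) : ℚ) + (n + 1 : ℕ) + 2 ≠ 0 := by positivity
    rw [pow_succ (4 : ℚ) (n + 1)]
    push_cast at *
    field_simp
    ring

/-- sums of `1/(k² C(2k,k))` -/
def A3 (n : ℕ) : ℚ := ∑ m ∈ range n, w m / (((m : ℚ) + 1) * 4 ^ (m + 1))

/-- sums of `C(2k,k)/k` -/
def B (n : ℕ) : ℚ := ∑ k ∈ range n, 4 ^ (k + 1) * c (k + 1) / ((k : ℚ) + 1)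

def Rr (n : ℕ) : ℚ := ∑ k ∈ range (n + 1), e k (n - k) ^ 2

lemma Rr_succ (n : ℕ) : (2 * (n : ℚ) + 5) * Rr (n + 1) = ((n : ℚ) + 2) / 2 * Rr n + 3 / ((n : ℚ) + 2) := by
  have key : ∀ k ∈ range (n + 1), (2 * (n : ℚ) + 5) * e k (n + 1 - k) ^ 2 =
      ((n : ℚ) + 2) / 2 * e k (n - k) ^ 2 + ((((k + 1 : ℕ) : ℚ) - 3 / 2 * (n + 2)) * e (k + 1) (n + 1 - (k + 1)) ^ 2 -
        ((k : ℚ) - 3 / 2 * (n + 2)) * e k (n + 1 - k) ^ 2) := by
    intro k hk
    rw [mem_range] at hk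
    obtain ⟨m, rfl⟩ := Nat.exists_eq_add_of_le (show k ≤ n by omega)
    rw [show k + m + 1 - k = m + 1 by omega, show k + m - k = m by omega,
      show k + m + 1 - (k + 1) = m by omega, e_right, e_left]
    have h2 : (k : ℚ) + m + 2 ≠ 0 := by positivity
    push_cast
    field_simp
    ring
  unfold Rr
  rw [sum_range_succ _ (n + 1), mul_add, mul_sum, sum_congr rfl key, sum_add_distrib, ← mul_sum,
    sum_range_sub (fun k => ((k : ℚ) - 3 / 2 * (n + 2)) * e k (n + 1 - k) ^ 2)]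
  have h2 : (n : ℚ) + 2 ≠ 0 := by positivity
  rw [Nat.sub_self, e_zero_right, Nat.sub_zero, e_zero_left]
  push_cast
  have h3 : (n : ℚ) + 1 + 1 ≠ 0 := by positivity
  field_simp
  ring

lemma B_val (n : ℕ) : B (n + 1) = (2 * (n : ℚ) + 3) / 3 * (4 ^ (n + 1) * c (n + 1)) * Rr n := by
  induction n with
  | zero => simp [B, Rr, e_zero_right, c_succ, c_zero]
  | succ n ih =>
    have h1 := Rr_succ n
    have h2 : (n : ℚ) + 2 ≠ 0 := by positivity
    have h5 : (2 * (n : ℚ) + 5) ≠ 0 := by positivity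
    have h3 : Rr (n + 1) = (((n : ℚ) + 2) / 2 * Rr n + 3 / ((n : ℚ) + 2)) / (2 * (n : ℚ) + 5) := by
      rw [eq_div_iff h5, ← h1]; ring
    have h4 : B (n + 1 + 1) = B (n + 1) + 4 ^ (n + 1 + 1) * c (n + 1 + 1) / (((n + 1 : ℕ) : ℚ) + 1) := by
      unfold B; rw [sum_range_succ]
    rw [h4, ih, h3, c_succ (n + 1), pow_succ (4 : ℚ) (n + 1)]
    push_cast
    have h6 : (n : ℚ) + 1 + 1 ≠ 0 := by positivity
    field_simp
    ring

def Kk (n : ℕ) : ℚ := ∑ k ∈ range (n + 1), (-1) ^ k * (e k (n - k) * e k (n + 1))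

lemma Kk_succ (n : ℕ) : Kk (n + 1) + Kk n = (-1) ^ n * 3 * (w (n + 1) / (((n : ℚ) + 2) * 4 ^ (n + 2))) +
    2 / ((n : ℚ) + 2) ^ 2 := by
  have key : ∀ k ∈ range (n + 1), (-1) ^ k * (e k (n + 1 - k) * e k (n + 2)) =
      - ((-1) ^ k * (e k (n - k) * e k (n + 1))) +
      ((-(-1) ^ (k + 1) * (2 / ((n : ℚ) + 2)) * (((k + 1 : ℕ) : ℚ) + n + 3)) * (e (k + 1) (n + 1 - (k + 1)) * e (k + 1) (n + 2)) -
        (-(-1) ^ k * (2 / ((n : ℚ) + 2)) * ((k : ℚ) + n + 3)) * (e k (n + 1 - k) * e k (n + 2))) := by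
    intro k hk
    rw [mem_range] at hk
    obtain ⟨m, rfl⟩ := Nat.exists_eq_add_of_le (show k ≤ n by omega)
    rw [show k + m + 1 - k = m + 1 by omega, show k + m - k = m by omega,
      show k + m + 1 - (k + 1) = m by omega, e_right k m, e_left k m, e_left k (k + m + 2),
      show k + m + 2 = (k + m + 1) + 1 by ring, e_right k (k + m + 1), pow_succ]
    have h2 : (k : ℚ) + m + 2 ≠ 0 := by positivity
    have h3 : (k : ℚ) + (k + m + 1) + 2 ≠ 0 := by positivity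
    have h4 : (k : ℚ) + (k + m + 1 + 1) + 2 ≠ 0 := by positivity
    push_cast
    field_simp
    ring
  unfold Kk
  rw [sum_range_succ _ (n + 1), sum_congr rfl key, sum_add_distrib, sum_neg_distrib,
    sum_range_sub (fun k => (-(-1) ^ k * (2 / ((n : ℚ) + 2)) * ((k : ℚ) + n + 3)) * (e k (n + 1 - k) * e k (n + 2)))]
  have h2 : (n : ℚ) + 2 ≠ 0 := by positivity
  have h3 : (n : ℚ) + 1 + 1 ≠ 0 := by positivity
  have h4 : (n : ℚ) + 2 + 1 ≠ 0 := by positivity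
  rw [Nat.sub_self, e_zero_right, Nat.sub_zero, e_zero_left, e_zero_left, e_w, pow_succ]
  have h5 : (4 : ℚ) ^ (n + 1 + 1) ≠ 0 := by positivity
  push_cast
  field_simp
  ring

/-- alternating sum -/
def Al (h : ℕ) : ℚ := ∑ k ∈ range h, (-1) ^ (k + 1) / ((k : ℚ) + 1) ^ 2

lemma A3_val (n : ℕ) : 3 * A3 (n + 1) = -2 * Al (n + 1) + (-1) ^ (n + 1) * Kk n := by
  induction n with
  | zero => simp [A3, Al, Kk, e_zero_left, w_zero]; norm_num
  | succ n ih =>
    have h1 := Kk_succ n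
    have h2 : A3 (n + 1 + 1) = A3 (n + 1) + w (n + 1) / ((((n + 1 : ℕ) : ℚ) + 1) * 4 ^ (n + 1 + 1)) := by
      unfold A3; rw [sum_range_succ]
    have h3 : Al (n + 1 + 1) = Al (n + 1) + (-1) ^ (n + 1 + 1) / (((n + 1 : ℕ) : ℚ) + 1) ^ 2 := by
      unfold Al; rw [sum_range_succ]
    rw [h2, h3, mul_add, ih]
    have h4 : Kk (n + 1) = (-1) ^ n * 3 * (w (n + 1) / (((n : ℚ) + 2) * 4 ^ (n + 2))) + 2 / ((n : ℚ) + 2) ^ 2 - Kk n := by
      linear_combination h1
    rw [h4]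
    have h5 : (-1 : ℚ) ^ n * (-1) ^ n = 1 := by rw [← mul_pow]; norm_num
    have h6 : (n : ℚ) + 2 ≠ 0 := by positivity
    have h7 : (((n + 1 : ℕ) : ℚ)) + 1 = n + 2 := by push_cast; ring
    rw [h7]
    generalize hx : w (n + 1) / (((n : ℚ) + 2) * 4 ^ (n + 2)) = x
    have h9 : (-1 : ℚ) ^ (n + 1 + 1) / ((n : ℚ) + 2) ^ 2 = (-1 : ℚ) ^ n * (1 / ((n : ℚ) + 2) ^ 2) := by ring
    have h10 : 2 / ((n : ℚ) + 2) ^ 2 = 2 * (1 / ((n : ℚ) + 2) ^ 2) := by ring
    have h11 : (-1 : ℚ) ^ (n + 1 + 1) = (-1) ^ n := by ring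
    have h12 : (-1 : ℚ) ^ (n + 1) = -(-1) ^ n := by ring
    rw [h9, h10, h11, h12]
    linear_combination (-3 * x) * h5

def PP (n L : ℕ) : ℚ := ∑ l ∈ range L, e n l ^ 2

lemma PP_id (n L : ℕ) : ((n : ℚ) + 1) * PP (n + 1) L - 2 * (2 * n + 1) * PP n (L + 1) =
    (2 * L + 1 - n) * e n L ^ 2 - 3 / ((n : ℚ) + 1) := by
  induction L with
  | zero =>
    simp only [PP, sum_range_zero, sum_range_one, e_zero_right, zero_add]
    have h2 : (n : ℚ) + 1 ≠ 0 := by positivity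
    push_cast
    field_simp
    ring
  | succ L ih =>
    have h1 : PP (n + 1) (L + 1) = PP (n + 1) L + e (n + 1) L ^ 2 := by unfold PP; rw [sum_range_succ]
    have h2 : PP n (L + 1 + 1) = PP n (L + 1) + e n (L + 1) ^ 2 := by unfold PP; rw [sum_range_succ]
    rw [h1, h2]
    have h3 : ((n : ℚ) + 1) * e (n + 1) L ^ 2 - 2 * (2 * n + 1) * e n (L + 1) ^ 2 =
        (2 * ((L + 1 : ℕ) : ℚ) + 1 - n) * e n (L + 1) ^ 2 - (2 * L + 1 - n) * e n L ^ 2 := by
      rw [e_left, e_right]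
      have h2 : (n : ℚ) + L + 2 ≠ 0 := by positivity
      push_cast
      field_simp
      ring
    linear_combination ih + h3

/-- the sum for `(42k+5)/4096^k` -/
def VV (n : ℕ) : ℚ := ∑ k ∈ range n, (21 * (k : ℚ) + 13) * w k ^ 3 / 64 ^ k

lemma VV_val (n : ℕ) : VV n = 64 * (PP n n / (4 ^ n * c n) + 3 * A3 n) := by
  induction n with
  | zero => simp [VV, PP, A3]
  | succ n ih =>
    have h1 : VV (n + 1) = VV n + (21 * (n : ℚ) + 13) * w n ^ 3 / 64 ^ n := by unfold VV; rw [sum_range_succ]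
    have h2 : A3 (n + 1) = A3 n + w n / (((n : ℚ) + 1) * 4 ^ (n + 1)) := by unfold A3; rw [sum_range_succ]
    have h3 := PP_id n (n + 1)
    have h4 : PP n (n + 1 + 1) = PP n n + e n n ^ 2 + e n (n + 1) ^ 2 := by
      unfold PP; rw [sum_range_succ, sum_range_succ]
    have h5 : e n n = 2 * (w n / 4 ^ (n + 1)) := by
      have := e_right n n
      rw [e_w] at this
      rw [this]
      have : (n : ℚ) + 1 ≠ 0 := by positivity
      have : (n : ℚ) + n + 2 ≠ 0 := by positivity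
      field_simp
      ring
    rw [h4, h5, e_w] at h3
    rw [h1, h2, ih]
    have hw := w_c n
    have hc : c (n + 1) = 1 / (w n * ((n : ℚ) + 1)) := by
      have hw0 : w n ≠ 0 := by intro h; rw [h] at hw; simp at hw
      have : (n : ℚ) + 1 ≠ 0 := by positivity
      field_simp
      linear_combination hw
    have hw' := w_c' n
    have hw0 : w n ≠ 0 := by intro h; rw [h] at hw; simp at hw
    have hc' : c n = 2 / (w n * (2 * (n : ℚ) + 1)) := by
      have : 2 * (n : ℚ) + 1 ≠ 0 := by positivity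
      field_simp
      linear_combination hw'
    rw [hc, hc']
    have a1 : (n : ℚ) + 1 ≠ 0 := by positivity
    have a2 : 2 * (n : ℚ) + 1 ≠ 0 := by positivity
    have h6 : PP (n + 1) (n + 1) = (2 * (2 * n + 1) * (PP n n + (2 * (w n / 4 ^ (n + 1))) ^ 2 + (w n / 4 ^ (n + 1)) ^ 2) +
        (2 * ((n + 1 : ℕ) : ℚ) + 1 - n) * (w n / 4 ^ (n + 1)) ^ 2 - 3 / ((n : ℚ) + 1)) / ((n : ℚ) + 1) := by
      rw [eq_div_iff a1]
      linear_combination h3
    rw [h6]
    have e1 : (64 : ℚ) ^ n = (4 ^ n) ^ 3 := by rw [← pow_mul, mul_comm, pow_mul]; norm_num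
    have a4 : (4 : ℚ) ^ n ≠ 0 := by positivity
    rw [e1, pow_succ (4 : ℚ) n]
    push_cast
    generalize (4 : ℚ) ^ n = f at *
    field_simp
    ring

end Pool.Agent.Helper88.QB
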