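import Pool.Agent.Helper88.QB

set_option autoImplicit false

namespace Pool.Agent.Helper88.QC

open Finset Pool.Agent.Helper88.Comb Pool.Agent.Helper88.Sq Pool.Agent.Helper88.QB

lemma half_pos' : (0 : ℚ) < 1 / 2 := by norm_num

def r (m : ℕ) : ℚ := ph (1 / 2) m ^ 3 / (4 ^ m * (m.factorial : ℚ))
def q (k : ℕ) : ℚ := ph (1 / 2) k ^ 2
def s (n : ℕ) : ℚ := (n.factorial : ℚ) ^ 2

lemma r_succ (m : ℕ) : r (m + 1) = r m * ((2 * (m : ℚ) + 1) ^ 3 / (32 * ((m : ℚ) + 1))) := by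
  unfold r
  rw [ph_succ, Nat.factorial_succ, pow_succ (4 : ℚ)]
  have h1 : (m.factorial : ℚ) ≠ 0 := by positivity
  have h3 : (m : ℚ) + 1 ≠ 0 := by positivity
  push_cast
  field_simp
  ring

lemma q_succ (m : ℕ) : q (m + 1) = q m * ((2 * (m : ℚ) + 1) ^ 2 / 4) := by
  unfold q; rw [ph_succ]; ring

lemma s_succ (m : ℕ) : s (m + 1) = s m * ((m : ℚ) + 1) ^ 2 := by
  unfold s; rw [Nat.factorial_succ]; push_cast; ring

lemma q_ne (m : ℕ) : q m ≠ 0 := pow_ne_zero _ (ph_ne half_pos' m)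
lemma s_ne (m : ℕ) : s m ≠ 0 := by unfold s; positivity

/-- WZ pair -/
def g (n k : ℕ) : ℚ := (6 * (n : ℚ) + 2 * k + 1) * r (n + k) / (q k * s n)
def f (n k : ℕ) : ℚ := -(2 * (n : ℚ) + 6 * k + 3) * (n : ℚ) ^ 2 * r (n + k) / (q (k + 1) * s n)

lemma wz (n k : ℕ) : g n (k + 1) - g n k = f (n + 1) k - f n k := by
  unfold g f
  rw [show n + (k + 1) = (n + k) + 1 by ring, show n + 1 + k = (n + k) + 1 by ring, r_succ, q_succ, s_succ]
  have h1 := q_ne k
  have h2 := s_ne n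
  have h3 : (n : ℚ) + 1 ≠ 0 := by positivity
  have h4 : 2 * (k : ℚ) + 1 ≠ 0 := by positivity
  have h5 : (n : ℚ) + k + 1 ≠ 0 := by positivity
  push_cast
  field_simp
  ring

lemma rect (N K : ℕ) : ∑ n ∈ range N, g n K - ∑ n ∈ range N, g n 0 = ∑ k ∈ range K, f N k := by
  induction K with
  | zero => simp
  | succ K ih =>
    rw [sum_range_succ, ← ih]
    have h1 : ∑ n ∈ range N, (g n (K + 1) - g n K) = f N K := by
      rw [sum_congr rfl fun n _ => wz n K, sum_range_sub (fun n => f n K)]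
      simp [f]
    rw [sum_sub_distrib] at h1
    linear_combination h1

lemma g_zero (n : ℕ) : g n 0 = (6 * (n : ℚ) + 1) * c n ^ 3 / 4 ^ n := by
  unfold g r q s
  rw [c_ph, ph_zero, add_zero]
  have h1 : (n.factorial : ℚ) ≠ 0 := by positivity
  field_simp
  push_cast
  ring

/-- summand of the second form -/
def tA (N i : ℕ) : ℚ := (4 * (N : ℚ) + 1 - 6 * i) * r i * q (N - i) / s N

lemma A_id (N : ℕ) : ∑ n ∈ range (N + 1), g n 0 = ∑ i ∈ range (N + 1), tA N i := by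
  induction N with
  | zero => simp [g, tA, q, s, ph_zero]
  | succ N ih =>
    rw [sum_range_succ, ih, sum_range_succ' _ (N + 1)]
    have key : ∀ i ∈ range (N + 1), tA (N + 1) (i + 1) = tA N i +
        ((4 * ((N : ℚ) + 1) + 2 * ((i + 1 : ℕ) : ℚ) + 1) * r (i + 1) * q (N + 1 - (i + 1)) / s (N + 1) -
          (4 * ((N : ℚ) + 1) + 2 * (i : ℚ) + 1) * r i * q (N + 1 - i) / s (N + 1)) := by
      intro i hi
      rw [mem_range] at hi
      obtain ⟨m, rfl⟩ := Nat.exists_eq_add_of_le (show i ≤ N by omega)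
      unfold tA
      rw [show i + m + 1 - (i + 1) = m by omega, show i + m - i = m by omega,
        show i + m + 1 - i = m + 1 by omega, r_succ, q_succ, s_succ]
      have h2 := s_ne (i + m)
      have h3 : (i : ℚ) + 1 ≠ 0 := by positivity
      have h5 : (i : ℚ) + m + 1 ≠ 0 := by positivity
      push_cast
      field_simp
      ring
    rw [sum_congr rfl key, sum_add_distrib,
      sum_range_sub (fun i => (4 * ((N : ℚ) + 1) + 2 * (i : ℚ) + 1) * r i * q (N + 1 - i) / s (N + 1))]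
    unfold tA g
    simp only [Nat.sub_zero, Nat.sub_self, Nat.cast_zero]
    have : q 0 = 1 := by simp [q, ph_zero]
    rw [this]
    push_cast
    ring

/-- dual kernel -/
def rho (m : ℕ) : ℚ := (m.factorial : ℚ) ^ 3 / (4 ^ m * ph (1 / 2) (m + 1))

lemma rho_succ (m : ℕ) : rho (m + 1) = rho m * (((m : ℚ) + 1) ^ 3 / (2 * (2 * (m : ℚ) + 3))) := by
  unfold rho
  rw [ph_succ _ (m + 1), Nat.factorial_succ, pow_succ (4 : ℚ)]
  have h1 := ph_ne half_pos' (m + 1)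
  have h3 : (2 * (m : ℚ) + 3) ≠ 0 := by positivity
  have h4 : (1 / 2 : ℚ) + ((m + 1 : ℕ) : ℚ) = (2 * (m : ℚ) + 3) / 2 := by push_cast; ring
  rw [h4]
  push_cast
  field_simp
  ring

def gt (n k : ℕ) : ℚ := (3 * (n : ℚ) + k + 2) * rho (n + k) / (q k * q (n + 1))

lemma wz3 (n k : ℕ) : gt n (k + 1) - gt n k = gt k n - gt k (n + 1) := by
  unfold gt
  rw [show n + (k + 1) = (n + k) + 1 by ring, show k + n = n + k by ring, show k + (n + 1) = (n + k) + 1 by ring,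
    rho_succ, q_succ, q_succ]
  have h1 := q_ne k
  have h2 := q_ne n
  have h3 : 2 * (n : ℚ) + 1 ≠ 0 := by positivity
  have h4 : 2 * (k : ℚ) + 1 ≠ 0 := by positivity
  have h5 : 2 * ((n : ℚ) + k) + 3 ≠ 0 := by positivity
  push_cast
  field_simp
  ring

lemma sym3 (N : ℕ) : ∑ n ∈ range N, gt n 0 = ∑ n ∈ range N, gt n N := by
  have key : ∀ K : ℕ, ∑ n ∈ range N, gt n K - ∑ n ∈ range N, gt n 0 =
      ∑ k ∈ range K, gt k 0 - ∑ k ∈ range K, gt k N := by
    intro K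
    induction K with
    | zero => simp
    | succ K ih =>
      rw [sum_range_succ, sum_range_succ]
      have h1 : ∑ n ∈ range N, (gt n (K + 1) - gt n K) = gt K 0 - gt K N := by
        rw [sum_congr rfl fun n _ => wz3 n K, sum_range_sub' (fun n => gt K n)]
      rw [sum_sub_distrib] at h1
      linear_combination h1 + ih
  have := key N
  linear_combination (-1 / 2) * this

/-- second WZ identity -/
def s2 (N i : ℕ) : ℚ := (-1) ^ i * (4 * (N : ℚ) + 2 * i + 1) / (4 ^ N * 2 ^ i) * ph (1 / 2) i ^ 2 * ph (1 / 2) (2 * N - i) /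
  (s N * (i.factorial : ℚ))
def t2 (N i : ℕ) : ℚ := (-1) ^ i * 2 / (4 ^ N * 2 ^ i) * ph (1 / 2) i ^ 2 * ph (1 / 2) (2 * N + 1 - i) /
  (s N * (i.factorial : ℚ))

lemma t2_id (N : ℕ) : ∑ n ∈ range (N + 1), (6 * (n : ℚ) + 1) * c n ^ 3 / (-8) ^ n = ∑ i ∈ range (N + 1), t2 N i := by
  induction N with
  | zero => simp [t2, s, ph_zero, ph_succ, c_zero]
  | succ N ih =>
    rw [sum_range_succ, ih, sum_range_succ' _ (N + 1)]
    have key : ∀ i ∈ range (N + 1), t2 (N + 1) (i + 1) = t2 N i + (s2 (N + 1) (i + 1) - s2 (N + 1) i) := by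
      intro i hi
      rw [mem_range] at hi
      obtain ⟨m, rfl⟩ := Nat.exists_eq_add_of_le (show i ≤ N by omega)
      unfold t2 s2
      rw [show 2 * (i + m + 1) + 1 - (i + 1) = (i + 2 * m + 1) + 1 by omega, show 2 * (i + m) + 1 - i = i + 2 * m + 1 by omega,
        show 2 * (i + m + 1) - (i + 1) = i + 2 * m + 1 by omega, show 2 * (i + m + 1) - i = i + 2 * m + 1 + 1 by omega,
        s_succ, ph_succ _ (i + 2 * m + 1), ph_succ _ i, Nat.factorial_succ, pow_succ (4 : ℚ) (i + m), pow_succ (2 : ℚ) i,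
        pow_succ (-1 : ℚ) i]
      have h2 := s_ne (i + m)
      have h1 : (i.factorial : ℚ) ≠ 0 := by positivity
      have h3 : (i : ℚ) + 1 ≠ 0 := by positivity
      have h5 : (i : ℚ) + m + 1 ≠ 0 := by positivity
      push_cast
      field_simp
      ring
    rw [sum_congr rfl key, sum_add_distrib, sum_range_sub (fun i => s2 (N + 1) i)]
    have e1 : t2 (N + 1) 0 = s2 (N + 1) 0 := by
      unfold t2 s2
      rw [Nat.sub_zero, Nat.sub_zero, ph_succ]
      push_cast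
      ring
    have e2 : s2 (N + 1) (N + 1) = (6 * ((N + 1 : ℕ) : ℚ) + 1) * c (N + 1) ^ 3 / (-8) ^ (N + 1) := by
      unfold s2 s
      rw [c_ph, show 2 * (N + 1) - (N + 1) = N + 1 by omega]
      have h1 : ((N + 1).factorial : ℚ) ≠ 0 := by positivity
      have h4 : (4 : ℚ) ^ (N + 1) * 2 ^ (N + 1) = 8 ^ (N + 1) := by rw [← mul_pow]; norm_num
      have h5 : (-8 : ℚ) ^ (N + 1) = (-1) ^ (N + 1) * 8 ^ (N + 1) := by rw [← mul_pow]; norm_num
      have h6 : (-1 : ℚ) ^ (N + 1) * (-1) ^ (N + 1) = 1 := by rw [← mul_pow]; norm_num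
      have h7 : (-1 : ℚ) ^ (N + 1) ≠ 0 := pow_ne_zero _ (by norm_num)
      rw [h4, h5]
      field_simp
      push_cast
      linear_combination ((6 * (N : ℚ) + 7) * ph (1 / 2) (N + 1) ^ 3) * h6
    rw [e1, e2]
    ring

/-! ### harmonic sums -/

def O (m : ℕ) : ℚ := ∑ j ∈ range m, 1 / (2 * (j : ℚ) + 1)
def O2 (m : ℕ) : ℚ := ∑ j ∈ range m, 1 / (2 * (j : ℚ) + 1) ^ 2

lemma O_zero : O 0 = 0 := by simp [O]
lemma O2_zero : O2 0 = 0 := by simp [O2]
lemma O_succ (m : ℕ) : O (m + 1) = O m + 1 / (2 * (m : ℚ) + 1) := by unfold O; rw [sum_range_succ]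
lemma O2_succ (m : ℕ) : O2 (m + 1) = O2 m + 1 / (2 * (m : ℚ) + 1) ^ 2 := by unfold O2; rw [sum_range_succ]

/-- binomial transform -/
def Tb (f : ℕ → ℚ) (n : ℕ) : ℚ := ∑ i ∈ range (n + 1), b n i * f i

lemma Tb_zero (f : ℕ → ℚ) : Tb f 0 = f 0 := by simp [Tb, b_zero]

lemma Tb_succ (f : ℕ → ℚ) (n : ℕ) : Tb f (n + 1) = Tb f n - Tb (fun i => f (i + 1)) n := by
  unfold Tb
  rw [sum_range_succ']
  have h1 : ∑ k ∈ range (n + 1), b (n + 1) (k + 1) * f (k + 1) =
      ∑ k ∈ range (n + 1), b n (k + 1) * f (k + 1) - ∑ k ∈ range (n + 1), b n k * f (k + 1) := by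
    rw [← sum_sub_distrib]
    exact sum_congr rfl fun k _ => by rw [b_succ]; ring
  rw [h1, b_zero]
  have h2 : ∑ i ∈ range (n + 1), b n i * f i = ∑ k ∈ range (n + 1), b n (k + 1) * f (k + 1) + 1 * f 0 := by
    rw [sum_range_succ', b_zero, sum_range_succ _ n, b_top]; ring
  rw [h2]
  ring

/-- evaluation at `x` through the transform -/
lemma Tb_x (x : ℚ) (n : ℕ) : ∀ f : ℕ → ℚ, ∑ i ∈ range (n + 1), b n i * (x ^ i * f i) =
    ∑ m ∈ range (n + 1), (n.choose m : ℚ) * (x ^ m * (1 - x) ^ (n - m)) * Tb f m := by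
  induction n with
  | zero => intro f; simp [Tb, b_zero]
  | succ n ih =>
    intro f
    have h1 : ∑ i ∈ range (n + 1 + 1), b (n + 1) i * (x ^ i * f i) =
        ∑ i ∈ range (n + 1), b n i * (x ^ i * f i) - x * ∑ i ∈ range (n + 1), b n i * (x ^ i * f (i + 1)) := by
      have := Tb_succ (fun i => x ^ i * f i) n
      unfold Tb at this
      rw [this, mul_sum]
      congr 1
      exact sum_congr rfl fun i _ => by ring
    rw [h1, ih f, ih (fun i => f (i + 1))]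
    have h2 : ∑ m ∈ range (n + 1 + 1), ((n + 1).choose m : ℚ) * (x ^ m * (1 - x) ^ (n + 1 - m)) * Tb f m =
        (1 - x) * ∑ m ∈ range (n + 1), (n.choose m : ℚ) * (x ^ m * (1 - x) ^ (n - m)) * Tb f m +
        x * ∑ m ∈ range (n + 1), (n.choose m : ℚ) * (x ^ m * (1 - x) ^ (n - m)) * Tb f (m + 1) := by
      have e1 : (1 - x) * ∑ m ∈ range (n + 1), (n.choose m : ℚ) * (x ^ m * (1 - x) ^ (n - m)) * Tb f m =
          ∑ m ∈ range (n + 1 + 1), (n.choose m : ℚ) * (x ^ m * (1 - x) ^ (n + 1 - m)) * Tb f m := by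
        rw [sum_range_succ _ (n + 1), Nat.choose_succ_self, mul_sum]
        simp only [Nat.cast_zero, zero_mul, add_zero]
        apply sum_congr rfl
        intro m hm
        rw [mem_range] at hm
        rw [show n + 1 - m = (n - m) + 1 by omega, pow_succ]
        ring
      have e2 : x * ∑ m ∈ range (n + 1), (n.choose m : ℚ) * (x ^ m * (1 - x) ^ (n - m)) * Tb f (m + 1) =
          ∑ m ∈ range (n + 1), (n.choose m : ℚ) * (x ^ (m + 1) * (1 - x) ^ (n + 1 - (m + 1))) * Tb f (m + 1) := by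
        rw [mul_sum]
        apply sum_congr rfl
        intro m hm
        rw [show n + 1 - (m + 1) = n - m by omega, pow_succ]
        ring
      rw [e1, e2, sum_range_succ', sum_range_succ' _ (n + 1)]
      have e3 : ∑ k ∈ range (n + 1), ((n + 1).choose (k + 1) : ℚ) * (x ^ (k + 1) * (1 - x) ^ (n + 1 - (k + 1))) * Tb f (k + 1) =
          ∑ k ∈ range (n + 1), (n.choose (k + 1) : ℚ) * (x ^ (k + 1) * (1 - x) ^ (n + 1 - (k + 1))) * Tb f (k + 1) +
          ∑ k ∈ range (n + 1), (n.choose k : ℚ) * (x ^ (k + 1) * (1 - x) ^ (n + 1 - (k + 1))) * Tb f (k + 1) := by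
        rw [← sum_add_distrib]
        apply sum_congr rfl
        intro k _
        rw [Nat.choose_succ_succ]
        push_cast
        ring
      rw [e3]
      simp only [Nat.choose_zero_right]
      ring
    rw [h2]
    have h3 : ∑ m ∈ range (n + 1), (n.choose m : ℚ) * (x ^ m * (1 - x) ^ (n - m)) * Tb f (m + 1) =
        ∑ m ∈ range (n + 1), (n.choose m : ℚ) * (x ^ m * (1 - x) ^ (n - m)) * Tb f m -
        ∑ m ∈ range (n + 1), (n.choose m : ℚ) * (x ^ m * (1 - x) ^ (n - m)) * Tb (fun i => f (i + 1)) m := by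
      rw [← sum_sub_distrib]
      exact sum_congr rfl fun m _ => by rw [Tb_succ]; ring
    rw [h3]
    ring

lemma b_rel (m i : ℕ) : (i : ℚ) * b (m + 1) i = ((m : ℚ) + 1) * (b (m + 1) i - b m i) := by
  cases i with
  | zero => simp [b_zero]
  | succ i =>
    have h1 := b_div m i
    have h2 := b_succ m i
    have h3 : (m : ℚ) + 1 ≠ 0 := by positivity
    have h4 : ((m : ℚ) + 1) * b m i = -((i : ℚ) + 1) * b (m + 1) (i + 1) := by
      rw [h1]; field_simp
    push_cast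
    rw [show b (m + 1) (i + 1) - b m (i + 1) = - b m i by rw [h2]; ring]
    linear_combination h4

lemma Tb_rel (m : ℕ) (f : ℕ → ℚ) : ∑ i ∈ range (m + 2), b (m + 1) i * (i * f i) =
    ((m : ℚ) + 1) * (Tb f (m + 1) - Tb f m) := by
  have h2 : Tb f m = ∑ i ∈ range (m + 2), b m i * f i := by
    unfold Tb; rw [sum_range_succ _ (m + 1), b_top]; ring
  rw [h2]
  unfold Tb
  rw [← sum_sub_distrib, mul_sum]
  apply sum_congr rfl
  intro i _
  have := b_rel m i
  linear_combination (f i) * this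

lemma Tb_a (m : ℕ) : Tb (fun i => 1 / (2 * (i : ℚ) + 1)) m = w m / 2 := by
  induction m with
  | zero => rw [Tb_zero, w_zero]; norm_num
  | succ m ih =>
    have h1 := Tb_rel m (fun i => 1 / (2 * (i : ℚ) + 1))
    have h2 : ∑ i ∈ range (m + 2), b (m + 1) i * (i * (1 / (2 * (i : ℚ) + 1))) =
        1 / 2 * ∑ i ∈ range (m + 2), b (m + 1) i - 1 / 2 * Tb (fun i => 1 / (2 * (i : ℚ) + 1)) (m + 1) := by
      unfold Tb
      rw [mul_sum, mul_sum, ← sum_sub_distrib]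
      apply sum_congr rfl
      intro i _
      have : 2 * (i : ℚ) + 1 ≠ 0 := by positivity
      field_simp
      ring
    rw [h2, sum_b, ih] at h1
    rw [w_succ]
    have h3 : (m : ℚ) + 3 / 2 ≠ 0 := by positivity
    have h5 : 2 * (m : ℚ) + 3 ≠ 0 := by positivity
    field_simp
    linear_combination (-2) * h1

lemma Tb_b (m : ℕ) : Tb (fun i => 1 / (2 * (i : ℚ) + 1) ^ 2) m = w m / 2 * O (m + 1) := by
  induction m with
  | zero => rw [Tb_zero, w_zero, O_succ, O_zero]; norm_num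
  | succ m ih =>
    have h1 := Tb_rel m (fun i => 1 / (2 * (i : ℚ) + 1) ^ 2)
    have h2 : ∑ i ∈ range (m + 2), b (m + 1) i * (i * (1 / (2 * (i : ℚ) + 1) ^ 2)) =
        1 / 2 * Tb (fun i => 1 / (2 * (i : ℚ) + 1)) (m + 1) - 1 / 2 * Tb (fun i => 1 / (2 * (i : ℚ) + 1) ^ 2) (m + 1) := by
      unfold Tb
      rw [mul_sum, mul_sum, ← sum_sub_distrib]
      apply sum_congr rfl
      intro i _
      have : 2 * (i : ℚ) + 1 ≠ 0 := by positivity
      field_simp
      ring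
    rw [h2, ih, Tb_a] at h1
    rw [O_succ (m + 1), w_succ]
    rw [w_succ] at h1
    have h3 : (m : ℚ) + 3 / 2 ≠ 0 := by positivity
    have h5 : 2 * (m : ℚ) + 3 ≠ 0 := by positivity
    have h6 : 2 * ((m + 1 : ℕ) : ℚ) + 1 = 2 * m + 3 := by push_cast; ring
    rw [h6]
    field_simp at h1 ⊢
    linear_combination (-1) * h1

lemma Tb_O2 (m : ℕ) : Tb O2 (m + 1) = - (w m / 2 * O (m + 1)) := by
  rw [Tb_succ, ← Tb_b]
  unfold Tb
  rw [← sum_sub_distrib, ← sum_neg_distrib]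
  apply sum_congr rfl
  intro i _
  change b m i * O2 i - b m i * O2 (i + 1) = -(b m i * (1 / (2 * (i : ℚ) + 1) ^ 2))
  rw [O2_succ]
  ring

/-- the `Z` sum -/
lemma Z_val (n : ℕ) : ∑ i ∈ range (n + 1), b n i * ((1 / 2) ^ i * O2 i) =
    -(1 / 2) ^ n * ∑ m ∈ range n, (n.choose (m + 1) : ℚ) * (w m / 2 * O (m + 1)) := by
  rw [Tb_x, sum_range_succ', Tb_zero, O2_zero, mul_zero, add_zero, neg_mul, mul_sum, ← sum_neg_distrib]
  apply sum_congr rfl
  intro m hm
  rw [mem_range] at hm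
  rw [Tb_O2]
  have : (1 / 2 : ℚ) ^ (m + 1) * (1 - 1 / 2) ^ (n - (m + 1)) = (1 / 2) ^ n := by
    rw [show (1 - 1 / 2 : ℚ) = 1 / 2 by norm_num, ← pow_add]
    congr 1
    omega
  rw [this]
  ring

/-! ### Legendre type sums -/

def L (n k : ℕ) : ℚ := (-1) ^ k * (n.choose k : ℚ) * ((n + k).choose k : ℚ)
def sl (n k : ℕ) : ℚ := (-1) ^ k * (n.choose k : ℚ) * ((n + 1 + k).choose k : ℚ)

lemma ch1 (n k : ℕ) : ((n.choose (k + 1) : ℕ) : ℚ) = (n.choose k : ℚ) * (((n : ℚ) - k) / ((k : ℚ) + 1)) := by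
  have h := Nat.choose_succ_right_eq n k
  have h3 : (k : ℚ) + 1 ≠ 0 := by positivity
  have h' : (n.choose (k + 1) : ℚ) * (k + 1) = n.choose k * ((n : ℚ) - k) := by
    rcases Nat.lt_or_ge n k with hlt | hge
    · rw [Nat.choose_eq_zero_of_lt hlt, Nat.choose_eq_zero_of_lt (by omega)]; simp
    · rw [← Nat.cast_sub hge]; exact_mod_cast h
  field_simp
  linear_combination h'

lemma ch2 (n k : ℕ) : (((n + (k + 1)).choose (k + 1) : ℕ) : ℚ) = ((n + k).choose k : ℚ) * (((n : ℚ) + k + 1) / ((k : ℚ) + 1)) := by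
  have h := Nat.add_one_mul_choose_eq (n + k) k
  have h3 : (k : ℚ) + 1 ≠ 0 := by positivity
  have h' : ((n : ℚ) + k + 1) * ((n + k).choose k : ℚ) = ((n + (k + 1)).choose (k + 1) : ℚ) * (k + 1) := by
    have : n + (k + 1) = n + k + 1 := by ring
    rw [this]; exact_mod_cast h
  field_simp
  linear_combination (-1) * h'

lemma L_succ (n k : ℕ) : L n (k + 1) = - L n k * (((n : ℚ) - k) * ((n : ℚ) + k + 1) / ((k : ℚ) + 1) ^ 2) := by
  unfold L
  rw [ch1, ch2, pow_succ]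
  have h3 : (k : ℚ) + 1 ≠ 0 := by positivity
  field_simp

lemma L_zero (n : ℕ) : L n 0 = 1 := by simp [L]

lemma L_up (n k : ℕ) : L (n + 1) k * ((n : ℚ) + 1 - k) = L n k * ((n : ℚ) + 1 + k) := by
  induction k with
  | zero => simp [L_zero]
  | succ k ih =>
    rw [L_succ, L_succ]
    have h3 : (k : ℚ) + 1 ≠ 0 := by positivity
    push_cast
    have e1 : -L (n + 1) k * (((n : ℚ) + 1 - k) * ((n : ℚ) + 1 + k + 1) / ((k : ℚ) + 1) ^ 2) * ((n : ℚ) + 1 - (k + 1)) =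
        -(L (n + 1) k * ((n : ℚ) + 1 - k)) * ((((n : ℚ) + 1 + k + 1) / ((k : ℚ) + 1) ^ 2) * ((n : ℚ) + 1 - (k + 1))) := by ring
    rw [e1, ih]
    ring

lemma sl_L (n k : ℕ) : sl n k * ((n : ℚ) + 1) = L (n + 1) k * ((n : ℚ) + 1 - k) := by
  unfold sl L
  have h := Nat.choose_mul_succ_eq n k
  have h' : (n.choose k : ℚ) * ((n : ℚ) + 1) = ((n + 1).choose k : ℚ) * ((n : ℚ) + 1 - k) := by
    rcases Nat.lt_or_ge (n + 1) k with hlt | hge
    · rw [Nat.choose_eq_zero_of_lt hlt, Nat.choose_eq_zero_of_lt (by omega)]; simp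
    · have : ((n + 1 - k : ℕ) : ℚ) = (n : ℚ) + 1 - k := by rw [Nat.cast_sub hge]; push_cast; ring
      rw [← this]; exact_mod_cast h
  linear_combination ((-1) ^ k * ((n + 1 + k).choose k : ℚ)) * h'

lemma sl_top (n : ℕ) : sl n (n + 1) = 0 := by simp [sl]
lemma L_top (n : ℕ) : L n (n + 1) = 0 := by simp [L]
lemma sl_zero (n : ℕ) : sl n 0 = 1 := by simp [sl]

lemma sl_diff (n k : ℕ) : L (n + 1) (k + 1) + L n (k + 1) = 2 * (sl n (k + 1) - sl n k) := by
  have h3 : (n : ℚ) + 1 ≠ 0 := by positivity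
  have h4 : (k : ℚ) + 1 ≠ 0 := by positivity
  have a1 := sl_L n (k + 1)
  have a2 := sl_L n k
  have a3 := L_up n k
  have a4 := L_succ (n + 1) k
  have a5 := L_succ n k
  have a6 := L_up n (k + 1)
  apply mul_left_cancel₀ h3
  apply mul_left_cancel₀ (pow_ne_zero 2 h4)
  have b4 : ((k : ℚ) + 1) ^ 2 * L (n + 1) (k + 1) = - L (n + 1) k * (((n : ℚ) + 1 - k) * ((n : ℚ) + 1 + k + 1)) := by
    rw [a4]; push_cast; field_simp
  have b5 : ((k : ℚ) + 1) ^ 2 * L n (k + 1) = - L n k * (((n : ℚ) - k) * ((n : ℚ) + k + 1)) := by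
    rw [a5]; field_simp
  push_cast at a1
  linear_combination (-2 * ((k : ℚ) + 1) ^ 2) * a1 + 2 * ((k : ℚ) + 1) ^ 2 * a2 + ((n : ℚ) + 1 - 2 * ((n : ℚ) - k)) * b4 +
    ((n : ℚ) + 1) * b5 + (-(2 * (k : ℚ) + 1 - n) * (n + k + 2) + 2 * (k + 1) ^ 2) * a3

/-- Legendre transform -/
def SL (f : ℕ → ℚ) (n : ℕ) : ℚ := ∑ k ∈ range (n + 1), L n k * f k

lemma SL_ext (f : ℕ → ℚ) (n : ℕ) : SL f n = ∑ k ∈ range (n + 2), L n k * f k := by
  unfold SL; rw [sum_range_succ _ (n + 1), L_top]; ring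

lemma SL_add (f : ℕ → ℚ) (n : ℕ) : SL f (n + 1) + SL f n =
    -2 * ∑ k ∈ range (n + 1), sl n k * (f (k + 1) - f k) := by
  rw [SL_ext f n]
  unfold SL
  rw [← sum_add_distrib, sum_range_succ']
  have h1 : ∀ k ∈ range (n + 1), L (n + 1) (k + 1) * f (k + 1) + L n (k + 1) * f (k + 1) =
      2 * (sl n (k + 1) * f (k + 1) - sl n k * f k) - 2 * (sl n k * (f (k + 1) - f k)) := by
    intro k _
    have := sl_diff n k
    linear_combination (f (k + 1)) * this
  rw [sum_congr rfl h1, sum_sub_distrib, ← mul_sum, ← mul_sum, sum_range_sub (fun k => sl n k * f k), sl_top,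
    sl_zero, L_zero, L_zero]
  ring

lemma SL_one (n : ℕ) : SL (fun _ => 1) n = (-1) ^ n := by
  induction n with
  | zero => simp [SL, L_zero]
  | succ n ih =>
    have := SL_add (fun _ => 1) n
    simp only [sub_self, mul_zero, sum_const_zero] at this
    rw [ih] at this
    rw [pow_succ]
    linear_combination this

lemma SL_rel (n : ℕ) (f : ℕ → ℚ) : ∑ k ∈ range (n + 2), (L (n + 1) k + L n k) * (k * f k) =
    ((n : ℚ) + 1) * (SL f (n + 1) - SL f n) := by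
  rw [SL_ext f n]
  unfold SL
  rw [← sum_sub_distrib, mul_sum]
  apply sum_congr rfl
  intro k _
  have := L_up n k
  linear_combination (-f k) * this

lemma SL_a (n : ℕ) : SL (fun i => 1 / (2 * (i : ℚ) + 1)) n = 1 / (2 * (n : ℚ) + 1) := by
  induction n with
  | zero => simp [SL, L_zero]
  | succ n ih =>
    have h1 := SL_rel n (fun i => 1 / (2 * (i : ℚ) + 1))
    have h2 : ∑ k ∈ range (n + 2), (L (n + 1) k + L n k) * (k * (1 / (2 * (k : ℚ) + 1))) =
        1 / 2 * (SL (fun _ => 1) (n + 1) + SL (fun _ => 1) n) -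
        1 / 2 * (SL (fun i => 1 / (2 * (i : ℚ) + 1)) (n + 1) + SL (fun i => 1 / (2 * (i : ℚ) + 1)) n) := by
      rw [SL_ext _ n, SL_ext _ n]
      unfold SL
      rw [← sum_add_distrib, ← sum_add_distrib, mul_sum, mul_sum, ← sum_sub_distrib]
      apply sum_congr rfl
      intro i _
      have : 2 * (i : ℚ) + 1 ≠ 0 := by positivity
      field_simp
      ring
    rw [h2, SL_one, SL_one, ih, pow_succ] at h1
    have h3 : 2 * (n : ℚ) + 1 ≠ 0 := by positivity
    have h5 : 2 * (n : ℚ) + 3 ≠ 0 := by positivity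
    have h6 : 2 * ((n + 1 : ℕ) : ℚ) + 1 = 2 * n + 3 := by push_cast; ring
    rw [h6, eq_div_iff h5]
    have h7 : (2 * (n : ℚ) + 1) * (1 / (2 * (n : ℚ) + 1)) = 1 := by field_simp
    linear_combination (-2) * h1 + h7

lemma SL_b (n : ℕ) : SL (fun i => 1 / (2 * (i : ℚ) + 1) ^ 2) n = (O n + O (n + 1)) / (2 * (n : ℚ) + 1) := by
  induction n with
  | zero => simp [SL, L_zero, O_zero, O_succ]
  | succ n ih =>
    have h1 := SL_rel n (fun i => 1 / (2 * (i : ℚ) + 1) ^ 2)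
    have h2 : ∑ k ∈ range (n + 2), (L (n + 1) k + L n k) * (k * (1 / (2 * (k : ℚ) + 1) ^ 2)) =
        1 / 2 * (SL (fun i => 1 / (2 * (i : ℚ) + 1)) (n + 1) + SL (fun i => 1 / (2 * (i : ℚ) + 1)) n) -
        1 / 2 * (SL (fun i => 1 / (2 * (i : ℚ) + 1) ^ 2) (n + 1) + SL (fun i => 1 / (2 * (i : ℚ) + 1) ^ 2) n) := by
      rw [SL_ext _ n, SL_ext _ n]
      unfold SL
      rw [← sum_add_distrib, ← sum_add_distrib, mul_sum, mul_sum, ← sum_sub_distrib]
      apply sum_congr rfl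
      intro i _
      have : 2 * (i : ℚ) + 1 ≠ 0 := by positivity
      field_simp
      ring
    rw [h2, SL_a, SL_a, ih] at h1
    have h3 : 2 * (n : ℚ) + 1 ≠ 0 := by positivity
    have h5 : 2 * (n : ℚ) + 3 ≠ 0 := by positivity
    have h6 : 2 * ((n + 1 : ℕ) : ℚ) + 1 = 2 * n + 3 := by push_cast; ring
    rw [O_succ (n + 1), h6, eq_div_iff h5]
    rw [h6] at h1
    have h7 : (2 * (n : ℚ) + 1) * ((O n + O (n + 1)) / (2 * (n : ℚ) + 1)) = O n + O (n + 1) := by field_simp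
    have h8 := O_succ n
    linear_combination (-2) * h1 + h7 - h8

lemma sl_sum (n : ℕ) : ∑ k ∈ range (n + 1), sl n k * (1 / (2 * (k : ℚ) + 1) ^ 2) = O (n + 1) / ((n : ℚ) + 1) := by
  have h3 : (n : ℚ) + 1 ≠ 0 := by positivity
  have h1 : ((n : ℚ) + 1) * ∑ k ∈ range (n + 1), sl n k * (1 / (2 * (k : ℚ) + 1) ^ 2) =
      (2 * (n : ℚ) + 3) / 2 * SL (fun i => 1 / (2 * (i : ℚ) + 1) ^ 2) (n + 1) - 1 / 2 * SL (fun i => 1 / (2 * (i : ℚ) + 1)) (n + 1) := by
    unfold SL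
    have e1 : ∑ k ∈ range (n + 1), sl n k * (1 / (2 * (k : ℚ) + 1) ^ 2) =
        ∑ k ∈ range (n + 1 + 1), sl n k * (1 / (2 * (k : ℚ) + 1) ^ 2) := by
      rw [sum_range_succ _ (n + 1), sl_top]; ring
    rw [e1, mul_sum, mul_sum, mul_sum, ← sum_sub_distrib]
    apply sum_congr rfl
    intro k _
    have h2 := sl_L n k
    have h4 : 2 * (k : ℚ) + 1 ≠ 0 := by positivity
    have h5 : ((n : ℚ) + 1) * (sl n k * (1 / (2 * (k : ℚ) + 1) ^ 2)) = (L (n + 1) k * ((n : ℚ) + 1 - k)) * (1 / (2 * (k : ℚ) + 1) ^ 2) := by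
      rw [← h2]; ring
    rw [h5]
    field_simp
    ring
  rw [SL_a, SL_b] at h1
  have h5 : 2 * (n : ℚ) + 3 ≠ 0 := by positivity
  have h6 : 2 * ((n + 1 : ℕ) : ℚ) + 1 = 2 * n + 3 := by push_cast; ring
  rw [O_succ (n + 1), h6] at h1
  rw [eq_div_iff h3]
  have h7 : (2 * (n : ℚ) + 3) / 2 * ((O (n + 1) + (O (n + 1) + 1 / (2 * (n : ℚ) + 3))) / (2 * (n : ℚ) + 3)) =
      O (n + 1) + 1 / 2 * (1 / (2 * (n : ℚ) + 3)) := by field_simp; ring
  linear_combination h1 + h7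

/-- `σ_n` -/
def sg (n : ℕ) : ℚ := ∑ m ∈ range n, (-1) ^ (m + 1) * O (m + 1) / ((m : ℚ) + 1)

lemma SL_O2 (n : ℕ) : SL O2 n = -2 * (-1) ^ n * sg n := by
  induction n with
  | zero => simp [SL, L_zero, O2_zero, sg]
  | succ n ih =>
    have h1 := SL_add O2 n
    have h2 : ∑ k ∈ range (n + 1), sl n k * (O2 (k + 1) - O2 k) = O (n + 1) / ((n : ℚ) + 1) := by
      rw [← sl_sum]
      exact sum_congr rfl fun k _ => by rw [O2_succ]; ring
    rw [h2, ih] at h1
    have h3 : sg (n + 1) = sg n + (-1) ^ (n + 1) * O (n + 1) / ((n : ℚ) + 1) := by unfold sg; rw [sum_range_succ]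
    rw [h3]
    have h5 : (-1 : ℚ) ^ n * (-1) ^ n = 1 := by rw [← mul_pow]; norm_num
    rw [pow_succ]
    have h6 : (-1 : ℚ) ^ n * -1 * O (n + 1) / ((n : ℚ) + 1) = -(-1 : ℚ) ^ n * (O (n + 1) / ((n : ℚ) + 1)) := by ring
    rw [h6]
    linear_combination h1 + (2 * (O (n + 1) / ((n : ℚ) + 1))) * h5

lemma SL_H2 (n : ℕ) : SL (H 2) n = -2 * (-1) ^ n * Al n := by
  induction n with
  | zero => simp [SL, L_zero, Al]
  | succ n ih =>
    have h3 : (n : ℚ) + 1 ≠ 0 := by positivity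
    have h1 := SL_add (H 2) n
    -- sl n k/(k+1)^2 in terms of differences
    have key : ∀ k : ℕ, sl n k * (1 / ((k : ℚ) + 1) ^ 2) = -(1 / ((n : ℚ) + 1) ^ 2) * ((L (n + 1) (k + 1) + L n (k + 1)) / 2) := by
      intro k
      have h4 : (k : ℚ) + 1 ≠ 0 := by positivity
      have a2 := sl_L n k
      have a3 := L_up n k
      have b4 : ((k : ℚ) + 1) ^ 2 * L (n + 1) (k + 1) = - L (n + 1) k * (((n : ℚ) + 1 - k) * ((n : ℚ) + 1 + k + 1)) := by
        rw [L_succ]; push_cast; field_simp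
      have b5 : ((k : ℚ) + 1) ^ 2 * L n (k + 1) = - L n k * (((n : ℚ) - k) * ((n : ℚ) + k + 1)) := by
        rw [L_succ]; field_simp
      field_simp
      linear_combination (2 * ((n : ℚ) + 1)) * a2 + b4 + b5 + (n - k : ℚ) * a3
    have h2 : ∑ k ∈ range (n + 1), sl n k * (H 2 (k + 1) - H 2 k) = 1 / ((n : ℚ) + 1) ^ 2 := by
      have e1 : ∀ k ∈ range (n + 1), sl n k * (H 2 (k + 1) - H 2 k) =
          -(1 / ((n : ℚ) + 1) ^ 2) * (sl n (k + 1) - sl n k) := by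
        intro k _
        rw [H_succ, add_sub_cancel_left, key, sl_diff]
        ring
      rw [sum_congr rfl e1, ← mul_sum, sum_range_sub (fun k => sl n k), sl_top, sl_zero]
      ring
    rw [h2, ih] at h1
    have h4 : Al (n + 1) = Al n + (-1) ^ (n + 1) / ((n : ℚ) + 1) ^ 2 := by unfold Al; rw [sum_range_succ]
    rw [h4]
    have h5 : (-1 : ℚ) ^ n * (-1) ^ n = 1 := by rw [← mul_pow]; norm_num
    rw [pow_succ]
    have h6 : (-1 : ℚ) ^ n * -1 / ((n : ℚ) + 1) ^ 2 = -(-1 : ℚ) ^ n * (1 / ((n : ℚ) + 1) ^ 2) := by ring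
    rw [h6]
    linear_combination h1 + (2 * (1 / ((n : ℚ) + 1) ^ 2)) * h5

end Pool.Agent.Helper88.QC
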