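import Pool.Agent.Helper88.QC
import Pool.Agent.Helper88.PE

set_option autoImplicit false
set_option linter.unusedSectionVars false

namespace Pool.Agent.Helper88.QD

open Pool.Agent.Helper857.W hiding w
open Finset Pool.Agent.Helper857.Pad Pool.Agent.Helper88.Comb Pool.Agent.Helper88.Sq
  Pool.Agent.Helper88.PA Pool.Agent.Helper88.PB Pool.Agent.Helper88.PC Pool.Agent.Helper88.PD
  Pool.Agent.Helper88.QB Pool.Agent.Helper88.QC

variable {p : ℕ} [hp : Fact p.Prime]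

/-! ### calculus -/

/-- units -/
structure U (p : ℕ) [Fact p.Prime] (x : ℚ) : Prop where
  ne : x ≠ 0
  mem : x ∈ Zp p
  inv : x⁻¹ ∈ Zp p

lemma U.mul {x y : ℚ} (hx : U p x) (hy : U p y) : U p (x * y) :=
  ⟨mul_ne_zero hx.ne hy.ne, (Zp p).mul_mem hx.mem hy.mem, by rw [mul_inv]; exact (Zp p).mul_mem hx.inv hy.inv⟩

lemma U.inv' {x : ℚ} (hx : U p x) : U p x⁻¹ := ⟨inv_ne_zero hx.ne, hx.inv, by rw [inv_inv]; exact hx.mem⟩

lemma U.div {x y : ℚ} (hx : U p x) (hy : U p y) : U p (x / y) := by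
  rw [div_eq_mul_inv]; exact hx.mul hy.inv'

lemma U.neg {x : ℚ} (hx : U p x) : U p (-x) :=
  ⟨neg_ne_zero.mpr hx.ne, (Zp p).neg_mem hx.mem, by rw [inv_neg]; exact (Zp p).neg_mem hx.inv⟩

lemma U.one : U p (1 : ℚ) := ⟨one_ne_zero, (Zp p).one_mem, by rw [inv_one]; exact (Zp p).one_mem⟩

lemma U.pow {x : ℚ} (hx : U p x) (n : ℕ) : U p (x ^ n) := by
  induction n with
  | zero => simpa using U.one
  | succ n ih => rw [pow_succ]; exact ih.mul hx

lemma U.prod (f : ℕ → ℚ) (n : ℕ) (hf : ∀ i < n, U p (f i)) : U p (∏ i ∈ range n, f i) := by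
  induction n with
  | zero => simpa using U.one
  | succ n ih => rw [prod_range_succ]; exact (ih fun i hi => hf i (by omega)).mul (hf n (by omega))

lemma U.nat {n : ℕ} (h : ¬ p ∣ n) : U p (n : ℚ) :=
  ⟨by intro h0; apply h; have : n = 0 := by exact_mod_cast h0
      rw [this]; exact dvd_zero p, nat_mem n, inv_nat_mem h⟩

lemma U.natlt {n : ℕ} (h0 : 0 < n) (h : n < p) : U p (n : ℚ) :=
  U.nat fun hd => absurd (Nat.le_of_dvd h0 hd) (by omega)

lemma U.of_one {x : ℚ} (h : I p 1 (x - 1)) : U p x := by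
  obtain ⟨h1, h2, -⟩ := unit h
  refine ⟨h1, ?_, h2⟩
  have := (Zp p).add_mem h.mem (Zp p).one_mem
  rwa [sub_add_cancel] at this

lemma U.congr {x a : ℚ} (ha : U p a) (h : I p 1 (x - a)) : U p x := by
  have h1 : I p 1 (x * a⁻¹ - 1) := by
    have : x * a⁻¹ - 1 = (x - a) * a⁻¹ := by have := ha.ne; field_simp
    rw [this]; exact h.mul_mem ha.inv
  have h2 := (U.of_one h1).mul ha
  have : x * a⁻¹ * a = x := by have := ha.ne; field_simp
  rwa [this] at h2

/-- congruence to a unit -/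
structure M (p k : ℕ) [Fact p.Prime] (x a : ℚ) : Prop where
  u : U p a
  i : I p (k + 1) (x - a)

lemma M.ux {k : ℕ} {x a : ℚ} (h : M p k x a) : U p x := h.u.congr (h.i.mono (by omega))

lemma M.refl (k : ℕ) {a : ℚ} (h : U p a) : M p k a a := ⟨h, by rw [sub_self]; exact I.zero _⟩

lemma M.mul {k : ℕ} {x y a b : ℚ} (hx : M p k x a) (hy : M p k y b) : M p k (x * y) (a * b) := by
  refine ⟨hx.u.mul hy.u, ?_⟩
  have e : x * y - a * b = (x - a) * y + a * (y - b) := by ring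
  rw [e]
  exact (hx.i.mul_mem hy.ux.mem).add (I.mem_mul hx.u.mem hy.i)

lemma M.inv {k : ℕ} {x a : ℚ} (hx : M p k x a) : M p k x⁻¹ a⁻¹ := by
  refine ⟨hx.u.inv', ?_⟩
  have h1 := hx.ux
  have e : x⁻¹ - a⁻¹ = -(x - a) * (x⁻¹ * a⁻¹) := by
    have := h1.ne; have := hx.u.ne
    field_simp
    ring
  rw [e]
  exact hx.i.neg.mul_mem ((Zp p).mul_mem h1.inv hx.u.inv)

lemma M.div {k : ℕ} {x y a b : ℚ} (hx : M p k x a) (hy : M p k y b) : M p k (x / y) (a / b) := by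
  rw [div_eq_mul_inv, div_eq_mul_inv]; exact hx.mul hy.inv

lemma M.pow {k : ℕ} {x a : ℚ} (hx : M p k x a) (n : ℕ) : M p k (x ^ n) (a ^ n) := by
  induction n with
  | zero => simpa using M.refl k U.one
  | succ n ih => rw [pow_succ, pow_succ]; exact ih.mul hx

lemma M.one_of {k : ℕ} {x : ℚ} (h : I p (k + 1) (x - 1)) : M p k x 1 := ⟨U.one, h⟩

lemma M.neg {k : ℕ} {x a : ℚ} (hx : M p k x a) : M p k (-x) (-a) :=
  ⟨hx.u.neg, by have e : -x - -a = -(x - a) := by ring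
                rw [e]; exact hx.i.neg⟩

lemma M.mono {j k : ℕ} (hjk : j ≤ k) {x a : ℚ} (hx : M p k x a) : M p j x a := ⟨hx.u, hx.i.mono (by omega)⟩

/-- `y x ≡ y a` -/
lemma M.sc {k : ℕ} {x a y : ℚ} (hx : M p k x a) (hy : y ∈ Zp p) : I p (k + 1) (y * x - y * a) := by
  rw [← mul_sub]; exact I.mem_mul hy hx.i

lemma Icongr_mul {k : ℕ} {x y a b : ℚ} (hx : I p k (x - a)) (hy : I p k (y - b)) (my : y ∈ Zp p) (ma : a ∈ Zp p) :
    I p k (x * y - a * b) := by
  have e : x * y - a * b = (x - a) * y + a * (y - b) := by ring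
  rw [e]
  exact (hx.mul_mem my).add (I.mem_mul ma hy)

/-- first order expansions -/
structure F1 (p : ℕ) [Fact p.Prime] (x a : ℚ) : Prop where
  m : a ∈ Zp p
  i : I p 2 (x - (1 + p * a))

lemma F1.one_i {x a : ℚ} (h : F1 p x a) : I p 1 (x - 1) := by
  have h1 := h.i.mono (show 1 ≤ 2 by norm_num)
  have h2 : I p 1 ((p : ℚ) * a) := by simpa using (I.p_pow (p := p) 1).mul_mem h.m
  have := h1.add h2
  convert this using 1
  ring

lemma F1.u {x a : ℚ} (h : F1 p x a) : U p x := U.of_one h.one_i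

lemma F1.M0 {x a : ℚ} (h : F1 p x a) : M p 0 x 1 := M.one_of h.one_i

lemma F1.mul {x y a b : ℚ} (hx : F1 p x a) (hy : F1 p y b) : F1 p (x * y) (a + b) := by
  refine ⟨(Zp p).add_mem hx.m hy.m, ?_⟩
  have e : x * y - (1 + p * (a + b)) = (x - (1 + p * a)) * y + (1 + p * a) * (y - (1 + p * b)) + (p : ℚ) ^ 2 * (a * b) := by
    ring
  rw [e]
  have m1 : (1 + (p : ℚ) * a) ∈ Zp p := (Zp p).add_mem (Zp p).one_mem ((Zp p).mul_mem (nat_mem p) hx.m)
  exact ((hx.i.mul_mem hy.u.mem).add (I.mem_mul m1 hy.i)).add ((I.p_pow 2).mul_mem ((Zp p).mul_mem hx.m hy.m))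

lemma F1.basic {a : ℚ} (ha : a ∈ Zp p) : F1 p (1 + p * a) a := ⟨ha, by rw [sub_self]; exact I.zero _⟩

lemma F1.one : F1 p (1 : ℚ) 0 := ⟨(Zp p).zero_mem, by simpa using I.zero 2⟩

lemma F1.inv {x a : ℚ} (hx : F1 p x a) : F1 p x⁻¹ (-a) := by
  refine ⟨(Zp p).neg_mem hx.m, ?_⟩
  have hu := hx.u
  have e : x⁻¹ - (1 + p * -a) = (-(x - (1 + p * a)) * (1 - p * a) + (p : ℚ) ^ 2 * a ^ 2) * x⁻¹ := by
    have := hu.ne
    field_simp
    ring
  rw [e]
  have m1 : (1 - (p : ℚ) * a) ∈ Zp p := (Zp p).sub_mem (Zp p).one_mem ((Zp p).mul_mem (nat_mem p) hx.m)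
  exact ((hx.i.neg.mul_mem m1).add ((I.p_pow 2).mul_mem ((Zp p).pow_mem hx.m 2))).mul_mem hu.inv

lemma F1.congr {x a b : ℚ} (hx : F1 p x a) (e : a = b) : F1 p x b := e ▸ hx

lemma F1.pow {x a : ℚ} (hx : F1 p x a) (n : ℕ) : F1 p (x ^ n) (n * a) := by
  induction n with
  | zero => simpa using (F1.one (p := p))
  | succ n ih =>
    rw [pow_succ]
    exact (ih.mul hx).congr (by push_cast; ring)

lemma F1.prod (a : ℕ → ℚ) (n : ℕ) (ha : ∀ i < n, a i ∈ Zp p) :
    F1 p (∏ i ∈ range n, (1 + p * a i)) (∑ i ∈ range n, a i) := by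
  induction n with
  | zero => simpa using F1.one (p := p)
  | succ n ih =>
    rw [prod_range_succ, sum_range_succ]
    exact (ih fun i hi => ha i (by omega)).mul (F1.basic (ha n (by omega)))

lemma F1.sum (v x a : ℕ → ℚ) (n : ℕ) (hv : ∀ i < n, v i ∈ Zp p) (hx : ∀ i < n, F1 p (x i) (a i)) :
    I p 2 (∑ i ∈ range n, v i * x i - (∑ i ∈ range n, v i + p * ∑ i ∈ range n, v i * a i)) := by
  rw [mul_sum, ← sum_add_distrib, ← sum_sub_distrib]
  apply I.sum
  intro i hi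
  rw [mem_range] at hi
  have e : v i * x i - (v i + p * (v i * a i)) = v i * (x i - (1 + p * a i)) := by ring
  rw [e]
  exact I.mem_mul (hv i hi) (hx i hi).i

section
variable {h : ℕ} (hN : 2 * h + 1 = p ^ 1) (h5 : 3 < p)

omit hp in
lemma hpn (hN : 2 * h + 1 = p ^ 1) : p = 2 * h + 1 := by rw [hN, pow_one]

include hN

omit hp in
lemma P_eq : (p : ℚ) = 2 * (h : ℚ) + 1 := by rw [hpn hN]; push_cast; ring

lemma u_odd {i : ℕ} (hi : i < h) : U p (2 * (i : ℚ) + 1) := by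
  have := hpn hN
  have := U.natlt (p := p) (n := 2 * i + 1) (by omega) (by omega)
  push_cast at this
  exact this

lemma u_succ {i : ℕ} (hi : i < 2 * h) : U p ((i : ℚ) + 1) := by
  have := hpn hN
  have := U.natlt (p := p) (n := i + 1) (by omega) (by omega)
  push_cast at this
  exact this

lemma u_fac {n : ℕ} (hn : n ≤ 2 * h) : U p (n.factorial : ℚ) := by
  apply U.nat
  rw [hp.out.dvd_factorial]
  have := hpn hN
  omega

/-- products -/
def pA (p : ℕ) (t : ℚ) (n : ℕ) : ℚ := ∏ j ∈ range n, (1 + (p : ℚ) * (t / (2 * (j : ℚ) + 1)))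
def pB (p : ℕ) (t : ℚ) (n : ℕ) : ℚ := ∏ j ∈ range n, (1 + (p : ℚ) * (t / ((j : ℚ) + 1)))

omit hp hN in
lemma pA_succ (t : ℚ) (n : ℕ) : pA p t (n + 1) = pA p t n * (1 + (p : ℚ) * (t / (2 * (n : ℚ) + 1))) := by
  unfold pA; rw [prod_range_succ]

omit hp hN in
lemma pB_succ (t : ℚ) (n : ℕ) : pB p t (n + 1) = pB p t n * (1 + (p : ℚ) * (t / ((n : ℚ) + 1))) := by
  unfold pB; rw [prod_range_succ]

omit hp hN in
lemma pA_zero (t : ℚ) : pA p t 0 = 1 := by simp [pA]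
omit hp hN in
lemma pB_zero (t : ℚ) : pB p t 0 = 1 := by simp [pB]

lemma F1A {t : ℚ} (ht : t ∈ Zp p) {n : ℕ} (hn : n ≤ h) : F1 p (pA p t n) (t * O n) := by
  have := F1.prod (p := p) (fun j => t / (2 * (j : ℚ) + 1)) n (fun i hi => by
    rw [div_eq_mul_inv]
    exact (Zp p).mul_mem ht (u_odd hN (by omega)).inv)
  refine this.congr ?_
  unfold O
  rw [mul_sum]
  exact sum_congr rfl fun i _ => by ring

lemma F1B {t : ℚ} (ht : t ∈ Zp p) {n : ℕ} (hn : n ≤ 2 * h) : F1 p (pB p t n) (t * H 1 n) := by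
  have := F1.prod (p := p) (fun j => t / ((j : ℚ) + 1)) n (fun i hi => by
    rw [div_eq_mul_inv]
    exact (Zp p).mul_mem ht (u_succ hN (by omega)).inv)
  refine this.congr ?_
  unfold H
  rw [mul_sum]
  exact sum_congr rfl fun i _ => by ring

omit hp hN in
lemma ph_A (x t : ℚ) (n : ℕ) (hx : x = 1 / 2 + (p : ℚ) * t / 2) : ph x n = ph (1 / 2) n * pA p t n := by
  induction n with
  | zero => simp [ph_zero, pA_zero]
  | succ n ih =>
    rw [ph_succ, ih, ph_succ, pA_succ, hx]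
    have : 2 * (n : ℚ) + 1 ≠ 0 := by positivity
    field_simp
    ring

omit hp hN in
lemma ph_B (x t : ℚ) (n : ℕ) (hx : x = 1 + (p : ℚ) * t) : ph x n = (n.factorial : ℚ) * pB p t n := by
  induction n with
  | zero => simp [ph_zero, pB_zero]
  | succ n ih =>
    rw [ph_succ, ih, pB_succ, hx, Nat.factorial_succ]
    have : (n : ℚ) + 1 ≠ 0 := by positivity
    push_cast
    field_simp
    ring

lemma u_ph {n : ℕ} (hn : n ≤ h) : U p (ph (1 / 2) n) := by
  unfold ph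
  apply U.prod
  intro i hi
  have h1 := (u_odd (p := p) hN (i := i) (by omega))
  have h2 : U p (2 : ℚ) := by
    have := hpn hN
    exact_mod_cast U.natlt (p := p) (n := 2) (by norm_num) (by omega)
  have := h1.div h2
  convert this using 1
  ring

lemma u_c {n : ℕ} (hn : n ≤ h) : U p (c n) := by
  rw [c_ph]; exact (u_ph hN hn).div (u_fac hN (by omega))

lemma u_w {n : ℕ} (hn : n < h) : U p (w n) := (u_fac hN (by omega)).div (u_ph hN (by omega))

/-- `(1/2)_{h+1+k}` -/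
lemma ph_top (k : ℕ) : ph (1 / 2) (h + 1 + k) = ph (1 / 2) h * ((p : ℚ) / 2) * ((k.factorial : ℚ) * pB p (1 / 2) k) := by
  have hP := P_eq (p := p) hN
  rw [ph_add, ph_succ, ← ph_B (p := p) (1 / 2 + ((h + 1 : ℕ) : ℚ)) (1 / 2) k (by rw [hP]; push_cast; ring), hP]
  ring

/-- `(h+1+k)!` -/
lemma fac_top (k : ℕ) : (((h + k).factorial : ℕ) : ℚ) = (h.factorial : ℚ) * (ph (1 / 2) k * pA p 1 k) := by
  have hP := P_eq (p := p) hN
  rw [← ph_one, ph_add, ph_one, ← ph_A (p := p) (1 + (h : ℚ)) 1 k (by rw [hP]; ring)]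

/-- the central binomials in the upper half -/
lemma c_top (k : ℕ) : c (h + 1 + k) = c h * ((p : ℚ) / 2) * (w k * (pB p (1 / 2) k / pA p 1 (k + 1))) := by
  rw [c_ph, ph_top hN, show h + 1 + k = h + (k + 1) by ring, fac_top (p := p) hN, c_ph, w]
  have h1 : (h.factorial : ℚ) ≠ 0 := by positivity
  have h2 := ph_ne half_pos' (k + 1)
  by_cases h3 : pA p 1 (k + 1) = 0
  · rw [h3]; simp
  · field_simp

lemma F1top {k : ℕ} (hk : k < h) (h2 : (1 / 2 : ℚ) ∈ Zp p) : M p 0 (pB p (1 / 2) k / pA p 1 (k + 1)) 1 := by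
  have h1 := (F1B (p := p) hN h2 (n := k) (by omega)).M0
  have h3 := (F1A (p := p) hN (Zp p).one_mem (n := k + 1) (by omega)).M0
  simpa using h1.div h3

include h5

omit hN in
lemma half_m : (1 / 2 : ℚ) ∈ Zp p := cst' h5 _ 24 (by norm_num)

lemma four_one : I p 1 ((4 : ℚ) ^ h - 1) :=
  Rl.one hN h5 _ _ _ _ _ (Z1_h (p := p) hN) (Z3_h (p := p) hN) (cst' h5 _ (-24) (by norm_num))
    (cst' h5 _ 7 (by norm_num)) (w_val (p := p) hN h5)

lemma DD_four : I p 3 (DD h - (4 : ℚ) ^ h) := by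
  have h1 := DD_val (p := p) hN h5
  have h2 := w_val (p := p) hN h5
  unfold Rl at h1 h2
  have h3 := (h1.sub h2).mono (show 3 ≤ 4 by norm_num)
  have h4 := I.cst_mul h5 (-1 / 24) (-2) (by norm_num) (Z3_h (p := p) hN)
  have := h3.add h4
  convert this using 1
  ring

lemma c_sign : c h = (-1) ^ h * DD h := by
  rw [c_h]; rfl

lemma sgn_U (n : ℕ) : U p ((-1 : ℚ) ^ n) := U.one.neg.pow n

/-- `c_h / 4^h ≡ (-1)^h` modulo `p^3` -/
lemma mu : M p 2 (c h / 4 ^ h) ((-1) ^ h) := by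
  have h4 := (U.of_one (four_one (p := p) hN h5))
  refine ⟨sgn_U hN h5 h, ?_⟩
  rw [c_sign (p := p) hN h5]
  have e : (-1) ^ h * DD h / 4 ^ h - (-1) ^ h = (DD h - (4 : ℚ) ^ h) * ((-1) ^ h * ((4 : ℚ) ^ h)⁻¹) := by
    have := h4.ne
    field_simp
  rw [e]
  exact (DD_four hN h5).mul_mem ((Zp p).mul_mem (sgn_U hN h5 h).mem h4.inv)

lemma c_one : M p 0 (c h) ((-1) ^ h) := by
  have h4 := M.one_of (k := 0) (four_one (p := p) hN h5)
  have h1 := ((mu (p := p) hN h5).mono (show 0 ≤ 2 by norm_num)).mul h4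
  have := h4.ux.ne
  have e : c h / 4 ^ h * 4 ^ h = c h := by field_simp
  rw [e, mul_one] at h1
  exact h1

/-- the weights -/
def v (i : ℕ) : ℚ := c i / (4 ^ i * (2 * (i : ℚ) + 1))

omit hN in
lemma u_four (i : ℕ) : U p ((4 : ℚ) ^ i) := by
  have : U p (4 : ℚ) := by
    exact_mod_cast U.nat (p := p) (n := 4) (fun hd => by
      have := n4pow (p := p) h5 1
      exact this (by simpa using hd))
  exact this.pow i

lemma v_mem {i : ℕ} (hi : i < h) : v i ∈ Zp p := by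
  unfold v
  exact ((u_c hN (by omega)).div ((u_four h5 i).mul (u_odd hN hi))).mem

end

end Pool.Agent.Helper88.QD
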