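import Pool.Agent.Helper88.QD

set_option autoImplicit false
set_option linter.unusedSectionVars false

namespace Pool.Agent.Helper88.QE

open Finset Pool.Agent.Helper857.Pad Pool.Agent.Helper88.Comb Pool.Agent.Helper88.Sq
  Pool.Agent.Helper88.PA Pool.Agent.Helper88.PB Pool.Agent.Helper88.PC Pool.Agent.Helper88.PD
  Pool.Agent.Helper88.QB Pool.Agent.Helper88.QC Pool.Agent.Helper88.QD

/-! ### Chebyshev sums -/

def Dd (y : ℚ) (n : ℕ) : ℚ := ∑ i ∈ range (n + 1), ((n + i + 1).choose (2 * i + 1) : ℚ) * y ^ i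

lemma Dd_ext (y : ℚ) (n m : ℕ) (hm : n + 1 ≤ m) : Dd y n = ∑ i ∈ range m, ((n + i + 1).choose (2 * i + 1) : ℚ) * y ^ i := by
  unfold Dd
  apply sum_subset (range_mono hm)
  intro i _ hi
  rw [mem_range, not_lt] at hi
  rw [Nat.choose_eq_zero_of_lt (by omega)]
  simp

lemma Dd_rec (y : ℚ) (n : ℕ) : Dd y (n + 2) + Dd y n = (2 + y) * Dd y (n + 1) := by
  rw [Dd_ext y (n + 2) (n + 3) le_rfl, Dd_ext y n (n + 3) (by omega)]
  have e1 : Dd y (n + 1) = ∑ i ∈ range (n + 3), ((n + 1 + i + 1).choose (2 * i + 1) : ℚ) * y ^ i :=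
    Dd_ext y (n + 1) (n + 3) (by omega)
  have e2 : (2 + y) * Dd y (n + 1) = 2 * (∑ i ∈ range (n + 3), ((n + 1 + i + 1).choose (2 * i + 1) : ℚ) * y ^ i) +
      y * ∑ i ∈ range (n + 2), ((n + 1 + i + 1).choose (2 * i + 1) : ℚ) * y ^ i := by
    rw [← e1]; unfold Dd; ring
  rw [e2, sum_range_succ', sum_range_succ' _ (n + 2), sum_range_succ' _ (n + 2)]
  have key : ∀ i : ℕ, ((n + 2 + (i + 1) + 1).choose (2 * (i + 1) + 1) : ℚ) + ((n + (i + 1) + 1).choose (2 * (i + 1) + 1) : ℚ) =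
      2 * ((n + 1 + (i + 1) + 1).choose (2 * (i + 1) + 1) : ℚ) + ((n + 1 + i + 1).choose (2 * i + 1) : ℚ) := by
    intro i
    rw [show n + 2 + (i + 1) + 1 = (n + i + 2) + 1 + 1 by ring, show n + 1 + (i + 1) + 1 = (n + i + 2) + 1 by ring,
      show n + (i + 1) + 1 = n + i + 2 by ring, show n + 1 + i + 1 = n + i + 2 by ring,
      show 2 * (i + 1) + 1 = (2 * i + 1) + 1 + 1 by ring, Nat.choose_succ_succ (n + i + 2 + 1),
      Nat.choose_succ_succ (n + i + 2), Nat.choose_succ_succ (n + i + 2)]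
    push_cast
    ring
  have h1 : ∑ k ∈ range (n + 2), ((n + 2 + (k + 1) + 1).choose (2 * (k + 1) + 1) : ℚ) * y ^ (k + 1) +
      ∑ k ∈ range (n + 2), ((n + (k + 1) + 1).choose (2 * (k + 1) + 1) : ℚ) * y ^ (k + 1) =
      2 * ∑ k ∈ range (n + 2), ((n + 1 + (k + 1) + 1).choose (2 * (k + 1) + 1) : ℚ) * y ^ (k + 1) +
      y * ∑ i ∈ range (n + 2), ((n + 1 + i + 1).choose (2 * i + 1) : ℚ) * y ^ i := by
    rw [← sum_add_distrib, mul_sum, mul_sum, ← sum_add_distrib]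
    apply sum_congr rfl
    intro i _
    rw [pow_succ]
    linear_combination (y ^ i * y) * key i
  simp only [mul_zero, zero_add, Nat.choose_one_right, pow_zero, mul_one, add_zero]
  push_cast
  linear_combination h1

/-- second kind at `X = 1/4` -/
lemma Dd_m1 (k : ℕ) : Dd (-1) (3 * k) = (-1) ^ k ∧ Dd (-1) (3 * k + 1) = (-1) ^ k ∧ Dd (-1) (3 * k + 2) = 0 := by
  induction k with
  | zero =>
    have h0 : Dd (-1) 0 = 1 := by simp [Dd]
    have h1 : Dd (-1) 1 = 1 := by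
      simp only [Dd, sum_range_succ, sum_range_zero]
      norm_num
    have h2 := Dd_rec (-1) 0
    rw [zero_add, zero_add, h0, h1] at h2
    exact ⟨by simpa using h0, by simpa using h1, by simpa using by linarith⟩
  | succ k ih =>
    obtain ⟨a0, a1, a2⟩ := ih
    have r1 := Dd_rec (-1) (3 * k + 1)
    have r2 := Dd_rec (-1) (3 * k + 2)
    have r3 := Dd_rec (-1) (3 * k + 3)
    rw [show 3 * k + 1 + 1 = 3 * k + 2 by ring, show 3 * k + 1 + 2 = 3 * k + 3 by ring, a1, a2] at r1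
    rw [show 3 * k + 2 + 1 = 3 * k + 3 by ring, show 3 * k + 2 + 2 = 3 * k + 4 by ring, a2] at r2
    rw [show 3 * k + 3 + 1 = 3 * k + 4 by ring, show 3 * k + 3 + 2 = 3 * k + 5 by ring] at r3
    rw [show 3 * (k + 1) = 3 * k + 3 by ring, show 3 * k + 3 + 1 = 3 * k + 4 by ring, show 3 * k + 3 + 2 = 3 * k + 5 by ring,
      pow_succ]
    refine ⟨by linarith, by linarith, by linarith⟩

/-- second kind at `X = 1/2` -/
lemma Dd_m2 (k : ℕ) : Dd (-2) (2 * k) = (-1) ^ k ∧ Dd (-2) (2 * k + 1) = 0 := by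
  induction k with
  | zero =>
    have h0 : Dd (-2) 0 = 1 := by simp [Dd]
    have h1 : Dd (-2) 1 = 0 := by
      simp only [Dd, sum_range_succ, sum_range_zero]
      norm_num
    exact ⟨by simpa using h0, by simpa using h1⟩
  | succ k ih =>
    obtain ⟨a0, a1⟩ := ih
    have r1 := Dd_rec (-2) (2 * k)
    have r2 := Dd_rec (-2) (2 * k + 1)
    rw [a0, a1] at r1
    rw [show 2 * k + 1 + 2 = 2 * k + 3 by ring, show 2 * k + 1 + 1 = 2 * k + 2 by ring, a1] at r2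
    rw [show 2 * (k + 1) = 2 * k + 2 by ring, show 2 * k + 2 + 1 = 2 * k + 3 by ring, pow_succ]
    refine ⟨by linarith, by linarith⟩

/-- `(2n+1)/(2i+1) C(n+i,2i)` -/
lemma ch_U (n i : ℕ) : (2 * ((n + 1 : ℕ) : ℚ) + 1) * (((n + 1 + i).choose (2 * i) : ℚ) / (2 * (i : ℚ) + 1)) =
    ((n + 1 + i + 1).choose (2 * i + 1) : ℚ) + ((n + i + 1).choose (2 * i + 1) : ℚ) := by
  have h1 := Nat.add_one_mul_choose_eq (n + 1 + i) (2 * i)
  have h2 : ((n : ℚ) + 1 + i + 1) * ((n + 1 + i).choose (2 * i) : ℚ) =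
      ((n + 1 + i + 1).choose (2 * i + 1) : ℚ) * (2 * (i : ℚ) + 1) := by exact_mod_cast h1
  have h3 := Nat.choose_succ_succ (n + 1 + i) (2 * i)
  have h4 : ((n + 1 + i + 1).choose (2 * i + 1) : ℚ) = ((n + 1 + i).choose (2 * i) : ℚ) + ((n + 1 + i).choose (2 * i + 1) : ℚ) := by
    exact_mod_cast h3
  rw [show n + i + 1 = n + 1 + i by ring]
  have h5 : 2 * (i : ℚ) + 1 ≠ 0 := by positivity
  have h6 : ((n + 1 + i).choose (2 * i + 1) : ℚ) = ((n + 1 + i + 1).choose (2 * i + 1) : ℚ) - ((n + 1 + i).choose (2 * i) : ℚ) := by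
    linear_combination (-1) * h4
  rw [h6]
  push_cast
  field_simp
  linear_combination 2 * h2

lemma ch_V (n i : ℕ) : ((n + 1 + i).choose (2 * i) : ℚ) =
    ((n + 1 + i + 1).choose (2 * i + 1) : ℚ) - ((n + i + 1).choose (2 * i + 1) : ℚ) := by
  have h3 := Nat.choose_succ_succ (n + 1 + i) (2 * i)
  have h4 : ((n + 1 + i + 1).choose (2 * i + 1) : ℚ) = ((n + 1 + i).choose (2 * i) : ℚ) + ((n + 1 + i).choose (2 * i + 1) : ℚ) := by
    exact_mod_cast h3
  rw [show n + i + 1 = n + 1 + i by ring, h4]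
  ring

lemma U_sum (y : ℚ) (n : ℕ) : (2 * ((n + 1 : ℕ) : ℚ) + 1) * ∑ i ∈ range (n + 2), ((n + 1 + i).choose (2 * i) : ℚ) / (2 * (i : ℚ) + 1) * y ^ i =
    Dd y (n + 1) + Dd y n := by
  rw [Dd_ext y n (n + 2) (by omega)]
  unfold Dd
  rw [← sum_add_distrib, mul_sum]
  apply sum_congr rfl
  intro i _
  have := ch_U n i
  linear_combination (y ^ i) * this

lemma V_sum (y : ℚ) (n : ℕ) : ∑ i ∈ range (n + 2), ((n + 1 + i).choose (2 * i) : ℚ) * y ^ i = Dd y (n + 1) - Dd y n := by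
  rw [Dd_ext y n (n + 2) (by omega)]
  unfold Dd
  rw [← sum_sub_distrib]
  apply sum_congr rfl
  intro i _
  have := ch_V n i
  linear_combination (y ^ i) * this

/-- `Π (1 - P²/(2j+1)²)` -/
def pC (P : ℚ) (n : ℕ) : ℚ := ∏ j ∈ range n, (1 - (P / (2 * (j : ℚ) + 1)) ^ 2)

lemma pC_succ (P : ℚ) (n : ℕ) : pC P (n + 1) = pC P n * (1 - (P / (2 * (n : ℚ) + 1)) ^ 2) := by
  unfold pC; rw [prod_range_succ]

lemma c_pC (h i : ℕ) : c i * pC (2 * (h : ℚ) + 1) i = (-4) ^ i * ((h + i).choose (2 * i) : ℚ) := by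
  induction i with
  | zero => simp [c_zero, pC]
  | succ i ih =>
    rw [c_succ, pC_succ, pow_succ (-4 : ℚ) i]
    have h1 := ch1 (h + i + 1) (2 * i + 1)
    have h2 := Nat.add_one_mul_choose_eq (h + i) (2 * i)
    have h3 : ((h : ℚ) + i + 1) * ((h + i).choose (2 * i) : ℚ) = ((h + i + 1).choose (2 * i + 1) : ℚ) * (2 * (i : ℚ) + 1) := by
      exact_mod_cast h2
    rw [show h + (i + 1) = h + i + 1 by ring, show 2 * (i + 1) = 2 * i + 1 + 1 by ring, h1]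
    have h5 : 2 * (i : ℚ) + 1 ≠ 0 := by positivity
    have h6 : (i : ℚ) + 1 ≠ 0 := by positivity
    have h7 : ((h + i + 1).choose (2 * i + 1) : ℚ) = ((h : ℚ) + i + 1) * ((h + i).choose (2 * i) : ℚ) / (2 * (i : ℚ) + 1) := by
      rw [eq_div_iff h5, h3]
    have h8 : (2 * (i : ℚ) + 1 + 1) ≠ 0 := by positivity
    rw [h7]
    have e1 : c i * ((2 * (i : ℚ) + 1) / (2 * ((i : ℚ) + 1))) * (pC (2 * (h : ℚ) + 1) i * (1 - ((2 * (h : ℚ) + 1) / (2 * (i : ℚ) + 1)) ^ 2)) =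
        (c i * pC (2 * (h : ℚ) + 1) i) * (((2 * (i : ℚ) + 1) / (2 * ((i : ℚ) + 1))) * (1 - ((2 * (h : ℚ) + 1) / (2 * (i : ℚ) + 1)) ^ 2)) := by
      ring
    rw [e1, ih]
    push_cast
    field_simp
    ring

variable {p : ℕ} [hp : Fact p.Prime]

def X0 (h : ℕ) : ℚ := ∑ i ∈ range h, v i
def X1 (h : ℕ) : ℚ := ∑ i ∈ range h, v i * (1 / (2 * (i : ℚ) + 1))
def XO (h : ℕ) : ℚ := ∑ i ∈ range h, v i * O i
def X3 (h : ℕ) : ℚ := ∑ i ∈ range h, v i * H 1 i
def Qs (h : ℕ) : ℚ := ∑ k ∈ range h, w k ^ 2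
def Ys (h : ℕ) : ℚ := ∑ k ∈ range h, (3 * (k : ℚ) + 2) / 4 ^ k * w k ^ 3

section
variable {h : ℕ} (hN : 2 * h + 1 = p ^ 1) (h5 : 3 < p)
include hN h5

lemma X0_exact : ∑ i ∈ range h, v i * pC (p : ℚ) i = 0 := by
  have hP := P_eq (p := p) hN
  have hpn' := hpn hN
  obtain ⟨n, rfl⟩ : ∃ n, h = n + 1 := ⟨h - 1, by omega⟩
  have e1 : ∑ i ∈ range (n + 1), v i * pC (p : ℚ) i =
      ∑ i ∈ range (n + 1), ((n + 1 + i).choose (2 * i) : ℚ) / (2 * (i : ℚ) + 1) * (-1) ^ i := by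
    apply sum_congr rfl
    intro i _
    have h1 := c_pC (n + 1) i
    rw [hP]
    unfold v
    have h4 : (4 : ℚ) ^ i ≠ 0 := by positivity
    have h5 : 2 * (i : ℚ) + 1 ≠ 0 := by positivity
    have e : (-4 : ℚ) ^ i = (-1) ^ i * 4 ^ i := by rw [← mul_pow]; norm_num
    rw [e] at h1
    field_simp
    linear_combination h1
  rw [e1]
  have h1 := U_sum (-1) n
  rw [sum_range_succ] at h1
  have h2 : (2 * ((n + 1 : ℕ) : ℚ) + 1) * (((n + 1 + (n + 1)).choose (2 * (n + 1)) : ℚ) / (2 * ((n + 1 : ℕ) : ℚ) + 1) * (-1) ^ (n + 1)) =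
      (-1) ^ (n + 1) := by
    rw [show n + 1 + (n + 1) = 2 * (n + 1) by ring, Nat.choose_self]
    have : 2 * ((n + 1 : ℕ) : ℚ) + 1 ≠ 0 := by positivity
    field_simp
    push_cast
    ring
  rw [mul_add, h2] at h1
  have h3 : Dd (-1) (n + 1) + Dd (-1) n = (-1) ^ (n + 1) := by
    have hmod : n % 3 ≠ 0 := by
      intro h0
      obtain ⟨k, hk⟩ : ∃ k, n = 3 * k := ⟨n / 3, by omega⟩
      have : p = 3 * (2 * k + 1) := by omega
      rcases (Nat.Prime.eq_one_or_self_of_dvd hp.out 3 ⟨_, this⟩) with h | h <;> omega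
    rcases (show n % 3 = 1 ∨ n % 3 = 2 by omega) with h1 | h2
    · obtain ⟨k, rfl⟩ : ∃ k, n = 3 * k + 1 := ⟨n / 3, by omega⟩
      obtain ⟨-, a1, a2⟩ := Dd_m1 k
      rw [show 3 * k + 1 + 1 = 3 * k + 2 by ring, a1, a2]
      have e : (-1 : ℚ) ^ (3 * k + 2) = ((-1) ^ k) ^ 3 := by rw [← pow_mul, mul_comm k 3, pow_add]; norm_num
      have e2 : ((-1 : ℚ) ^ k) ^ 2 = 1 := by rw [← pow_mul, mul_comm, pow_mul]; norm_num
      rw [e]
      linear_combination (-(-1 : ℚ) ^ k) * e2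
    · obtain ⟨k, rfl⟩ : ∃ k, n = 3 * k + 2 := ⟨n / 3, by omega⟩
      obtain ⟨-, -, a2⟩ := Dd_m1 k
      obtain ⟨a0, -, -⟩ := Dd_m1 (k + 1)
      rw [show 3 * k + 2 + 1 = 3 * (k + 1) by ring, a0, a2]
      have e : (-1 : ℚ) ^ (3 * (k + 1)) = ((-1) ^ (k + 1)) ^ 3 := by rw [← pow_mul, mul_comm (k + 1) 3]
      have e2 : ((-1 : ℚ) ^ (k + 1)) ^ 2 = 1 := by rw [← pow_mul, mul_comm, pow_mul]; norm_num
      rw [e]
      linear_combination (-(-1 : ℚ) ^ (k + 1)) * e2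
  rw [h3] at h1
  have h4 : (2 * ((n + 1 : ℕ) : ℚ) + 1) ≠ 0 := by positivity
  have h6 : (2 * ((n + 1 : ℕ) : ℚ) + 1) * ∑ i ∈ range (n + 1), ((n + 1 + i).choose (2 * i) : ℚ) / (2 * (i : ℚ) + 1) * (-1) ^ i = 0 := by
    linear_combination h1
  exact (mul_eq_zero.mp h6).resolve_left h4

lemma X0_I : I p 2 (X0 h) := by
  have h1 := X0_exact (p := p) hN h5
  have h2 : I p 2 (∑ i ∈ range h, v i * pC (p : ℚ) i - X0 h) := by
    unfold X0
    rw [← sum_sub_distrib]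
    apply I.sum
    intro i hi
    rw [mem_range] at hi
    have e : v i * pC (p : ℚ) i - v i = v i * (pC (p : ℚ) i - 1) := by ring
    rw [e]
    apply I.mem_mul (v_mem hN h5 hi)
    unfold pC
    apply prod_one
    intro j hj
    have e : 1 - ((p : ℚ) / (2 * (j : ℚ) + 1)) ^ 2 - 1 = (p : ℚ) ^ 2 * (-((2 * (j : ℚ) + 1)⁻¹) ^ 2) := by
      rw [div_pow, div_eq_mul_inv, inv_pow]; ring
    rw [e]
    exact (I.p_pow 2).mul_mem ((Zp p).neg_mem ((Zp p).pow_mem (u_odd hN (by omega)).inv 2))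
  rw [h1] at h2
  have := h2.neg
  simpa using this

/-- a generic evaluation of `Σ v_i x_i` with first-order `x_i` -/
lemma FS (x : ℕ → ℚ) (α β γ : ℚ)
    (hx : ∀ i < h, F1 p (x i) (α * (1 / (2 * (i : ℚ) + 1)) + β * O i + γ * H 1 i)) :
    I p 2 (∑ i ∈ range h, v i * x i - p * (α * X1 h + β * XO h + γ * X3 h)) := by
  have h1 := F1.sum v x (fun i => α * (1 / (2 * (i : ℚ) + 1)) + β * O i + γ * H 1 i) h
    (fun i hi => v_mem hN h5 hi) hx
  have h2 := X0_I (p := p) hN h5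
  have e : ∑ i ∈ range h, v i * (α * (1 / (2 * (i : ℚ) + 1)) + β * O i + γ * H 1 i) = α * X1 h + β * XO h + γ * X3 h := by
    unfold X1 XO X3
    rw [mul_sum, mul_sum, mul_sum, ← sum_add_distrib, ← sum_add_distrib]
    exact sum_congr rfl fun i _ => by ring
  rw [e] at h1
  have := h1.add h2
  convert this using 1
  unfold X0
  ring

lemma O_mem {i : ℕ} (hi : i ≤ h) : O i ∈ Zp p := by
  unfold O
  exact Subring.sum_mem _ fun j hj => by
    rw [mem_range] at hj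
    rw [one_div]
    exact (u_odd hN (by omega)).inv

lemma H_mem {i : ℕ} (hi : i ≤ 2 * h) : H 1 i ∈ Zp p := by
  unfold H
  exact Subring.sum_mem _ fun j hj => by
    rw [mem_range] at hj
    rw [one_div, pow_one]
    exact (u_succ hN (by omega)).inv

/-- the factor `1 + α p/(2i+1)` -/
lemma F1o {i : ℕ} (hi : i < h) {α : ℚ} (mα : α ∈ Zp p) : F1 p (1 + (p : ℚ) * (α / (2 * (i : ℚ) + 1))) (α * (1 / (2 * (i : ℚ) + 1))) := by
  have := F1.basic (p := p) (a := α / (2 * (i : ℚ) + 1)) (by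
    rw [div_eq_mul_inv]
    exact (Zp p).mul_mem mα (u_odd hN hi).inv)
  exact this.congr (by ring)

/-- central binomials at reflected places -/
lemma c_refl {i : ℕ} (hi : i ≤ h) : c (h - i) = c h * c i * (pA p (-1) i / pB p (-1 / 2) i) := by
  have hP := P_eq (p := p) hN
  have mh : (-1 / 2 : ℚ) ∈ Zp p := cst' h5 _ (-24) (by norm_num)
  induction i with
  | zero => simp [c_zero, pA_zero, pB_zero]
  | succ i ih =>
    have ih' := ih (by omega)
    obtain ⟨k, hk⟩ : ∃ k, h = k + (i + 1) := ⟨h - (i + 1), by omega⟩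
    have e1 : h - i = k + 1 := by omega
    have e2 : h - (i + 1) = k := by omega
    rw [e1, c_succ] at ih'
    rw [e2, c_succ i, pA_succ, pB_succ]
    have b1 := (F1B (p := p) hN mh (n := i) (by omega)).u.ne
    have b2 := (F1B (p := p) hN mh (n := i + 1) (by omega)).u.ne
    rw [pB_succ] at b2
    have b3 := right_ne_zero_of_mul b2
    have a1 : 2 * (k : ℚ) + 1 ≠ 0 := by positivity
    have a2 : 2 * (i : ℚ) + 1 ≠ 0 := by positivity
    have a3 : (i : ℚ) + 1 ≠ 0 := by positivity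
    have a4 : (k : ℚ) + 1 ≠ 0 := by positivity
    have hh : (h : ℚ) = k + (i + 1) := by rw [hk]; push_cast; ring
    have e3 : 1 + (p : ℚ) * (-1 / (2 * (i : ℚ) + 1)) = -(2 * ((k : ℚ) + 1)) / (2 * (i : ℚ) + 1) := by
      rw [hP, hh]; field_simp; ring
    have e4 : 1 + (p : ℚ) * (-1 / 2 / ((i : ℚ) + 1)) = -(2 * (k : ℚ) + 1) / (2 * ((i : ℚ) + 1)) := by
      rw [hP, hh]; field_simp; ring
    rw [e3, e4]
    have e5 : c k = c k * ((2 * (k : ℚ) + 1) / (2 * ((k : ℚ) + 1))) * ((2 * ((k : ℚ) + 1)) / (2 * (k : ℚ) + 1)) := by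
      field_simp
    rw [e5, ih']
    field_simp

lemma B_refl : B h = -2 * (4 ^ h * c h) * ∑ i ∈ range h, v i * (pA p (-1) i * (pB p (-1 / 2) i)⁻¹ *
    (1 + (p : ℚ) * (-1 / (2 * (i : ℚ) + 1)))⁻¹) := by
  have hP := P_eq (p := p) hN
  unfold B
  rw [← sum_range_reflect, mul_sum]
  apply sum_congr rfl
  intro i hi
  rw [mem_range] at hi
  obtain ⟨k, hk⟩ : ∃ k, h = k + (i + 1) := ⟨h - (i + 1), by omega⟩
  have e1 : h - 1 - i = k := by omega
  have h1 := c_refl (p := p) hN h5 (i := i) (by omega)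
  have e2 : h - i = k + 1 := by omega
  rw [e2] at h1
  rw [e1, h1]
  have hh : (h : ℚ) = k + (i + 1) := by rw [hk]; push_cast; ring
  have a2 : 2 * (i : ℚ) + 1 ≠ 0 := by positivity
  have a4 : (k : ℚ) + 1 ≠ 0 := by positivity
  have e3 : 1 + (p : ℚ) * (-1 / (2 * (i : ℚ) + 1)) = -(2 * ((k : ℚ) + 1)) / (2 * (i : ℚ) + 1) := by
    rw [hP, hh]; field_simp; ring
  rw [e3]
  have e4 : (4 : ℚ) ^ h = 4 ^ (k + 1) * 4 ^ i := by rw [← pow_add]; congr 1; omega
  rw [e4]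
  unfold v
  have a5 : (4 : ℚ) ^ i ≠ 0 := by positivity
  field_simp

/-- relation (r5') -/
lemma rel5 : I p 2 (B h - p * ((-1) ^ h * (-2 * X1 h + 2 * XO h - X3 h))) := by
  have mh : (-1 / 2 : ℚ) ∈ Zp p := cst' h5 _ (-24) (by norm_num)
  have m1 : (-1 : ℚ) ∈ Zp p := (Zp p).neg_mem (Zp p).one_mem
  have h1 := FS (p := p) hN h5 (fun i => pA p (-1) i * (pB p (-1 / 2) i)⁻¹ *
    (1 + (p : ℚ) * (-1 / (2 * (i : ℚ) + 1)))⁻¹) 1 (-1) (1 / 2) (fun i hi => by
      have f1 := F1A (p := p) hN m1 (n := i) (by omega)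
      have f2 := (F1B (p := p) hN mh (n := i) (by omega)).inv
      have f3 := (F1o (p := p) hN h5 hi m1).inv
      exact ((f1.mul f2).mul f3).congr (by ring))
  have hm : M p 0 (4 ^ h * c h) ((-1) ^ h) := by
    have := (M.one_of (k := 0) (four_one (p := p) hN h5)).mul (c_one hN h5)
    rwa [one_mul] at this
  rw [B_refl (p := p) hN h5]
  set S := ∑ i ∈ range h, v i * (pA p (-1) i * (pB p (-1 / 2) i)⁻¹ * (1 + (p : ℚ) * (-1 / (2 * (i : ℚ) + 1)))⁻¹) with hS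
  have m2 : (-2 : ℚ) ∈ Zp p := by exact_mod_cast int_mem (p := p) (-2)
  -- S is divisible by p
  have mX : (1 * X1 h + -1 * XO h + 1 / 2 * X3 h) ∈ Zp p := by
    have a : X1 h ∈ Zp p := Subring.sum_mem _ fun i hi => by
      rw [mem_range] at hi
      rw [one_div]
      exact (Zp p).mul_mem (v_mem hN h5 hi) (u_odd hN hi).inv
    have b : XO h ∈ Zp p := Subring.sum_mem _ fun i hi => by
      rw [mem_range] at hi
      exact (Zp p).mul_mem (v_mem hN h5 hi) (O_mem hN h5 (by omega))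
    have c : X3 h ∈ Zp p := Subring.sum_mem _ fun i hi => by
      rw [mem_range] at hi
      exact (Zp p).mul_mem (v_mem hN h5 hi) (H_mem hN h5 (by omega))
    exact (Zp p).add_mem ((Zp p).add_mem ((Zp p).mul_mem (Zp p).one_mem a) ((Zp p).mul_mem m1 b))
      ((Zp p).mul_mem (half_m h5) c)
  have hS1 : I p 1 S := by
    have a := h1.mono (show 1 ≤ 2 by norm_num)
    have b : I p 1 ((p : ℚ) * (1 * X1 h + -1 * XO h + 1 / 2 * X3 h)) := by
      simpa using (I.p_pow (p := p) 1).mul_mem mX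
    have := a.add b
    rwa [sub_add_cancel] at this
  have h2 := hm.i.mul hS1
  rw [zero_add] at h2
  have h3 := (h2.mul_mem m2).add (h1.mul_mem ((Zp p).mul_mem m2 (sgn_U hN h5 h).mem))
  convert h3 using 1
  ring

end

end Pool.Agent.Helper88.QE
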