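import Pool.Agent.Helper88.QE

set_option autoImplicit false
set_option linter.unusedSectionVars false

namespace Pool.Agent.Helper88.QF

open Finset Pool.Agent.Helper857.Pad Pool.Agent.Helper88.Comb Pool.Agent.Helper88.Sq
  Pool.Agent.Helper88.PA Pool.Agent.Helper88.PB Pool.Agent.Helper88.PC Pool.Agent.Helper88.PD
  Pool.Agent.Helper88.QB Pool.Agent.Helper88.QC Pool.Agent.Helper88.QD Pool.Agent.Helper88.QE

lemma ph_fac (n : ℕ) : ph (1 / 2) n * (n.factorial : ℚ) * 4 ^ n = ((2 * n).factorial : ℚ) := by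
  induction n with
  | zero => simp [ph_zero]
  | succ n ih =>
    rw [show 2 * (n + 1) = 2 * n + 1 + 1 by ring, Nat.factorial_succ (2 * n + 1), Nat.factorial_succ (2 * n), ph_succ,
      Nat.factorial_succ n, pow_succ]
    push_cast
    rw [← ih]
    ring

lemma q_ph (N i : ℕ) (hi : i ≤ N + 1) : q (N + 1) = q (N + 1 - i) * ph (1 / 2 - ((N + 1 : ℕ) : ℚ)) i ^ 2 := by
  induction i with
  | zero => simp [ph_zero]
  | succ i ih =>
    obtain ⟨k, hk⟩ : ∃ k, N + 1 = k + (i + 1) := ⟨N + 1 - (i + 1), by omega⟩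
    rw [ih (by omega), show N + 1 - i = k + 1 by omega, show N + 1 - (i + 1) = k by omega, q_succ, ph_succ, hk]
    push_cast
    ring

lemma gt_zero (n : ℕ) : gt n 0 = (3 * (n : ℚ) + 2) / 4 ^ n * w n ^ 3 := by
  unfold gt rho q w
  rw [add_zero, ph_zero]
  have h1 := ph_ne half_pos' (n + 1)
  push_cast
  field_simp
  ring

variable {p : ℕ} [hp : Fact p.Prime]

section
variable {h : ℕ} (hN : 2 * h + 1 = p ^ 1) (h5 : 3 < p)
include hN h5

lemma nA {t : ℚ} (ht : t ∈ Zp p) {n : ℕ} (hn : n ≤ h) : pA p t n ≠ 0 := (F1A hN ht hn).u.ne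
lemma nB {t : ℚ} (ht : t ∈ Zp p) {n : ℕ} (hn : n ≤ 2 * h) : pB p t n ≠ 0 := (F1B hN ht hn).u.ne

lemma m13 : (1 / 3 : ℚ) ∈ Zp p := cst' h5 _ 16 (by norm_num)
lemma m43 : (-4 / 3 : ℚ) ∈ Zp p := cst' h5 _ (-64) (by norm_num)
lemma mmh : (-1 / 2 : ℚ) ∈ Zp p := cst' h5 _ (-24) (by norm_num)
lemma m18 : (1 / 8 : ℚ) ∈ Zp p := cst' h5 _ 6 (by norm_num)
lemma mi (n : ℤ) : (n : ℚ) ∈ Zp p := int_mem n

/-! ### (W3) -/

lemma gt_h {n : ℕ} (hn : n < h) : (p : ℚ) / 2 * (c h ^ 3 * 4 ^ h) * gt n h =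
    6 * (v n * ((1 + (p : ℚ) * ((1 / 3) / (2 * (n : ℚ) + 1))) * pA p 1 n ^ 3 * (pB p (1 / 2) n)⁻¹)) := by
  have hP := P_eq (p := p) hN
  have hb := nB (p := p) hN h5 (half_m h5) (n := n) (by omega)
  unfold gt rho v q
  rw [show n + h + 1 = h + 1 + n by ring, ph_top (p := p) hN, show n + h = h + n by ring, fac_top (p := p) hN, ph_succ,
    pow_add, c_ph, c_ph]
  have h1 := ph_ne half_pos' h
  have h2 := ph_ne half_pos' n
  have h3 : (h.factorial : ℚ) ≠ 0 := by positivity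
  have h4 : (n.factorial : ℚ) ≠ 0 := by positivity
  have hp0 : (p : ℚ) ≠ 0 := by exact_mod_cast hp.out.ne_zero
  have h7 : 2 * (n : ℚ) + 1 ≠ 0 := by positivity
  have h8 : (1 : ℚ) + 2 * n ≠ 0 := by positivity
  have hh : (h : ℚ) = (p - 1) / 2 := by rw [hP]; ring
  rw [hh]
  field_simp
  ring

lemma Ys_mem : Ys h ∈ Zp p := Subring.sum_mem _ fun i hi => by
  rw [mem_range] at hi
  rw [div_eq_mul_inv]
  have a : (3 * (i : ℚ) + 2) ∈ Zp p := by exact_mod_cast nat_mem (p := p) (3 * i + 2)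
  exact (Zp p).mul_mem ((Zp p).mul_mem a (u_four h5 i).inv) ((Zp p).pow_mem (u_w hN hi).mem 3)

lemma relW : I p 1 (Ys h - (-1) ^ h * (4 * X1 h + 36 * XO h - 6 * X3 h)) := by
  have e1 : Ys h = ∑ n ∈ range h, gt n h := by
    rw [← sym3]; unfold Ys; exact sum_congr rfl fun n _ => by rw [gt_zero]
  have h1 := FS (p := p) hN h5 (fun n => (1 + (p : ℚ) * ((1 / 3) / (2 * (n : ℚ) + 1))) * pA p 1 n ^ 3 * (pB p (1 / 2) n)⁻¹)
    (1 / 3) 3 (-1 / 2) (fun i hi => by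
      have f1 := F1o (p := p) hN h5 hi (m13 hN h5)
      have f2 := (F1A (p := p) hN (Zp p).one_mem (n := i) (by omega)).pow 3
      have f3 := (F1B (p := p) hN (half_m h5) (n := i) (by omega)).inv
      exact ((f1.mul f2).mul f3).congr (by push_cast; ring))
  have e2 : (p : ℚ) / 2 * (c h ^ 3 * 4 ^ h) * Ys h = 6 * ∑ i ∈ range h, v i *
      ((1 + (p : ℚ) * ((1 / 3) / (2 * (i : ℚ) + 1))) * pA p 1 i ^ 3 * (pB p (1 / 2) i)⁻¹) := by
    rw [e1, mul_sum, mul_sum]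
    exact sum_congr rfl fun n hn => by rw [mem_range] at hn; exact gt_h hN h5 hn
  have m6 : (6 : ℚ) ∈ Zp p := by exact_mod_cast nat_mem (p := p) 6
  have h2 := I.mem_mul m6 h1
  rw [mul_sub, ← e2] at h2
  have h3 : I p 1 (1 / 2 * (c h ^ 3 * 4 ^ h) * Ys h - 6 * (1 / 3 * X1 h + 3 * XO h + -1 / 2 * X3 h)) := by
    apply I.cancel_p
    convert h2 using 1
    ring
  have h4 : M p 0 (c h ^ 3 * 4 ^ h) ((-1) ^ h) := by
    have := ((c_one (p := p) hN h5).pow 3).mul (M.one_of (k := 0) (four_one (p := p) hN h5))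
    convert this using 1
    rw [← pow_mul, mul_comm h 3, pow_mul]
    norm_num
  have m2 : (2 : ℚ) ∈ Zp p := by exact_mod_cast nat_mem (p := p) 2
  have hs := sgn_U (p := p) hN h5 h
  have h6 := (I.mem_mul ((Zp p).mul_mem m2 hs.mem) h3).sub ((h4.i.mul_mem (Ys_mem hN h5)).mul_mem hs.mem)
  convert h6 using 1
  have e5 : ((-1 : ℚ) ^ h) * (-1) ^ h = 1 := by rw [← mul_pow]; norm_num
  linear_combination (-(Ys h)) * e5

/-! ### leading terms -/

lemma r_top (k : ℕ) (hk : k < h) : r (h + 1 + k) = ((p : ℚ) / 2) ^ 3 * (ph (1 / 2) h ^ 3 / (4 ^ h * (h.factorial : ℚ))) *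
    ((k.factorial : ℚ) ^ 3 / (4 ^ (k + 1) * ph (1 / 2) (k + 1))) * (pB p (1 / 2) k ^ 3 / pA p 1 (k + 1)) := by
  have ha := nA (p := p) hN h5 (Zp p).one_mem (n := k + 1) (by omega)
  unfold r
  rw [ph_top (p := p) hN, show h + 1 + k = h + (k + 1) by ring, fac_top (p := p) hN, pow_add]
  have h1 := ph_ne half_pos' (k + 1)
  have h3 : (h.factorial : ℚ) ≠ 0 := by positivity
  field_simp

lemma g_top (k : ℕ) (hk : k < h) : g (k + 1) h = (p : ℚ) ^ 3 * ((6 * ((k : ℚ) + 1) + p) * (1 / 8 * ((c h / 4 ^ h) *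
    (w k / (((k : ℚ) + 1) ^ 2 * 4 ^ (k + 1)) * (pB p (1 / 2) k ^ 3 / pA p 1 (k + 1)))))) := by
  have hP := P_eq (p := p) hN
  have ha := nA (p := p) hN h5 (Zp p).one_mem (n := k + 1) (by omega)
  unfold g
  rw [show k + 1 + h = h + 1 + k by ring, r_top hN h5 k hk, c_ph, w]
  unfold q s
  rw [Nat.factorial_succ k]
  have h1 := ph_ne half_pos' (k + 1)
  have h2 := ph_ne half_pos' h
  have h3 : (h.factorial : ℚ) ≠ 0 := by positivity
  have h4 : (k.factorial : ℚ) ≠ 0 := by positivity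
  have h6 : (k : ℚ) + 1 ≠ 0 := by positivity
  have hh : (h : ℚ) = (p - 1) / 2 := by rw [hP]; ring
  rw [hh]
  push_cast
  field_simp
  ring

lemma f_top (k : ℕ) (hk : k < h) : f (h + 1) k = -((p : ℚ) ^ 3 * (((p : ℚ) + 6 * k + 4) * (1 / 8 * ((c h ^ 3 / 4 ^ h) *
    (w k ^ 3 / 4 ^ (k + 1) * (pB p (1 / 2) k ^ 3 / pA p 1 (k + 1))))))) := by
  have hP := P_eq (p := p) hN
  have ha := nA (p := p) hN h5 (Zp p).one_mem (n := k + 1) (by omega)
  unfold f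
  rw [r_top hN h5 k hk, c_ph, w]
  unfold q s
  rw [Nat.factorial_succ h]
  have h1 := ph_ne half_pos' (k + 1)
  have h2 := ph_ne half_pos' h
  have h3 : (h.factorial : ℚ) ≠ 0 := by positivity
  have h4 : (k.factorial : ℚ) ≠ 0 := by positivity
  have h6 : (h : ℚ) + 1 ≠ 0 := by positivity
  push_cast
  rw [hP]
  field_simp
  ring

lemma g_up (k : ℕ) (hk : k < h) : g (h + 1 + k) 0 = (p : ℚ) ^ 3 * ((3 * (p : ℚ) + 6 * k + 4) * (1 / 8 * ((c h ^ 3 / 4 ^ h) *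
    (w k ^ 3 / 4 ^ (k + 1) * (pB p (1 / 2) k / pA p 1 (k + 1)) ^ 3)))) := by
  have hP := P_eq (p := p) hN
  rw [g_zero, c_top (p := p) hN, show h + 1 + k = h + (k + 1) by ring, pow_add]
  have hh : (h : ℚ) = (p - 1) / 2 := by rw [hP]; ring
  push_cast
  rw [hh]
  field_simp
  ring

lemma u6 : U p (1 / 8 : ℚ) := by
  have : U p (8 : ℚ) := by
    have h2 : U p (2 : ℚ) := by
      have := hpn hN
      exact_mod_cast U.natlt (p := p) (n := 2) (by norm_num) (by omega)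
    have := h2.pow 3
    norm_num at this
    exact this
  rw [one_div]
  exact this.inv'

lemma w_den {k : ℕ} (hk : k < h) : U p (w k / (((k : ℚ) + 1) ^ 2 * 4 ^ (k + 1))) :=
  (u_w hN hk).div (((u_succ hN (by omega)).pow 2).mul (u_four h5 _))

lemma w_den3 {k : ℕ} (hk : k < h) : U p (w k ^ 3 / 4 ^ (k + 1)) :=
  ((u_w hN hk).pow 3).div (u_four h5 _)

lemma RBA {k : ℕ} (hk : k < h) : M p 0 (pB p (1 / 2) k ^ 3 / pA p 1 (k + 1)) 1 := by
  have h1 := ((F1B (p := p) hN (half_m h5) (n := k) (by omega)).M0.pow 3)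
  have h3 := (F1A (p := p) hN (Zp p).one_mem (n := k + 1) (by omega)).M0
  simpa using h1.div h3

lemma mu0 : M p 0 (c h / 4 ^ h) ((-1) ^ h) := (mu (p := p) hN h5).mono (by norm_num)

lemma mu3 : M p 0 (c h ^ 3 / 4 ^ h) ((-1) ^ h) := by
  have := ((c_one (p := p) hN h5).pow 3).div (M.one_of (k := 0) (four_one (p := p) hN h5))
  convert this using 1
  rw [← pow_mul, mul_comm h 3, pow_mul]
  norm_num

/-- lift a congruence mod `p` to mod `p^4` -/
lemma lift4 {y y' x a : ℚ} (hy : I p 1 (y - y')) (my : y' ∈ Zp p) (hx : M p 0 x a) :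
    I p 4 ((p : ℚ) ^ 3 * (y * x) - (p : ℚ) ^ 3 * (y' * a)) := by
  have h1 := Icongr_mul hy (show I p 1 (x - a) from hx.i) hx.ux.mem my
  have := (I.p_pow (p := p) 3).mul h1
  rw [← mul_sub]
  exact this

lemma g_top' (k : ℕ) (hk : k < h) : I p 4 (g (k + 1) h - (p : ℚ) ^ 3 * ((-1) ^ h * (3 / 4) * (w k / (((k : ℚ) + 1) * 4 ^ (k + 1))))) := by
  rw [g_top hN h5 k hk]
  have h1 : I p 1 ((6 * ((k : ℚ) + 1) + p) - 6 * ((k : ℚ) + 1)) := by
    rw [add_sub_cancel_left]; simpa using I.p_pow (p := p) 1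
  have m1 : (6 * ((k : ℚ) + 1)) ∈ Zp p := by exact_mod_cast nat_mem (p := p) (6 * (k + 1))
  have h2 := (M.refl 0 (u6 (p := p) hN h5)).mul ((mu0 (p := p) hN h5).mul ((M.refl 0 (w_den hN h5 hk)).mul (RBA hN h5 hk)))
  have := lift4 hN h5 h1 m1 h2
  convert this using 2
  have h6 : (k : ℚ) + 1 ≠ 0 := by positivity
  field_simp
  ring

lemma f_top' (k : ℕ) (hk : k < h) : I p 4 (f (h + 1) k + (p : ℚ) ^ 3 * ((-1) ^ h * (1 / 16) * ((3 * (k : ℚ) + 2) / 4 ^ k * w k ^ 3))) := by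
  rw [f_top hN h5 k hk]
  have h1 : I p 1 (((p : ℚ) + 6 * k + 4) - (6 * k + 4)) := by
    have e : ((p : ℚ) + 6 * k + 4) - (6 * k + 4) = p := by ring
    rw [e]; simpa using I.p_pow (p := p) 1
  have m1 : (6 * (k : ℚ) + 4) ∈ Zp p := by exact_mod_cast nat_mem (p := p) (6 * k + 4)
  have h2 := (M.refl 0 (u6 (p := p) hN h5)).mul ((mu3 (p := p) hN h5).mul ((M.refl 0 (w_den3 hN h5 hk)).mul (RBA hN h5 hk)))
  have := (lift4 hN h5 h1 m1 h2).neg
  convert this using 1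
  rw [pow_succ]
  field_simp
  ring

lemma g_up' (k : ℕ) (hk : k < h) : I p 4 (g (h + 1 + k) 0 - (p : ℚ) ^ 3 * ((-1) ^ h * (1 / 16) * ((3 * (k : ℚ) + 2) / 4 ^ k * w k ^ 3))) := by
  rw [g_up hN h5 k hk]
  have h1 : I p 1 ((3 * (p : ℚ) + 6 * k + 4) - (6 * k + 4)) := by
    have e : (3 * (p : ℚ) + 6 * k + 4) - (6 * k + 4) = p ^ 1 * 3 := by ring
    rw [e]; exact (I.p_pow (p := p) 1).mul_mem (by exact_mod_cast nat_mem (p := p) 3)
  have m1 : (6 * (k : ℚ) + 4) ∈ Zp p := by exact_mod_cast nat_mem (p := p) (6 * k + 4)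
  have hR := (F1top (p := p) hN hk (half_m h5)).pow 3
  have h2 := (M.refl 0 (u6 (p := p) hN h5)).mul ((mu3 (p := p) hN h5).mul ((M.refl 0 (w_den3 hN h5 hk)).mul hR))
  have := (lift4 hN h5 h1 m1 h2)
  convert this using 1
  rw [pow_succ]
  field_simp
  ring

/-- the full sum -/
noncomputable def S1 (h : ℕ) : ℚ := ∑ n ∈ range (2 * h + 1), g n 0

lemma pmu : I p 4 ((p : ℚ) * (c h / 4 ^ h) - (-1) ^ h * p) := by
  have := (I.p_pow (p := p) 1).mul (mu (p := p) hN h5).i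
  convert this using 1
  ring

lemma relB : I p 4 (S1 h - ((-1) ^ h * p + (p : ℚ) ^ 3 * ((-1) ^ h * (3 / 4 * A3 h + 1 / 8 * Ys h)))) := by
  have hP := P_eq (p := p) hN
  have e1 : S1 h = g 0 h + ∑ k ∈ range h, g (k + 1) h - ∑ k ∈ range h, f (h + 1) k + ∑ k ∈ range h, g (h + 1 + k) 0 := by
    unfold S1
    rw [show 2 * h + 1 = (h + 1) + h by ring, sum_range_add, ← rect (h + 1) h, sum_range_succ' (fun n => g n h) h]
    ring
  have e2 : g 0 h = (p : ℚ) * (c h / 4 ^ h) := by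
    unfold g r q s
    rw [zero_add, c_ph]
    have h1 := ph_ne half_pos' h
    simp only [Nat.factorial_zero]
    push_cast
    rw [hP]
    field_simp
    ring
  have h1 : I p 4 (∑ k ∈ range h, g (k + 1) h - (p : ℚ) ^ 3 * ((-1) ^ h * (3 / 4) * A3 h)) := by
    unfold A3
    rw [mul_sum, mul_sum, ← sum_sub_distrib]
    exact I.sum _ _ fun k hk => g_top' hN h5 k (mem_range.mp hk)
  have h2 : I p 4 (∑ k ∈ range h, f (h + 1) k + (p : ℚ) ^ 3 * ((-1) ^ h * (1 / 16) * Ys h)) := by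
    unfold Ys
    rw [mul_sum, mul_sum, ← sum_add_distrib]
    exact I.sum _ _ fun k hk => f_top' hN h5 k (mem_range.mp hk)
  have h3 : I p 4 (∑ k ∈ range h, g (h + 1 + k) 0 - (p : ℚ) ^ 3 * ((-1) ^ h * (1 / 16) * Ys h)) := by
    unfold Ys
    rw [mul_sum, mul_sum, ← sum_sub_distrib]
    exact I.sum _ _ fun k hk => g_up' hN h5 k (mem_range.mp hk)
  have h4 := pmu (p := p) hN h5
  have := ((h4.add h1).sub h2).add h3
  rw [e1, e2]
  convert this using 1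
  ring

/-! ### approach A -/

lemma q_s : q (2 * h + 1) / s (2 * h) = (p : ℚ) ^ 2 / 4 * (pB p (1 / 2) h / 4 ^ h) ^ 2 := by
  unfold q s
  rw [show 2 * h + 1 = h + 1 + h by ring, ph_top (p := p) hN, ← ph_fac h]
  have h1 := ph_ne half_pos' h
  have h3 : (h.factorial : ℚ) ≠ 0 := by positivity
  field_simp
  ring

lemma tA_eq {i : ℕ} (hi : i ≤ 2 * h) : tA (2 * h) i = (4 * (p : ℚ) - 3 - 6 * i) * r i *
    ((p : ℚ) ^ 2 / 4 * (pB p (1 / 2) h / 4 ^ h) ^ 2) / ph (1 / 2 - (p : ℚ)) (i + 1) ^ 2 := by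
  have hP := P_eq (p := p) hN
  have h1 := q_ph (2 * h) (i + 1) (by omega)
  rw [show 2 * h + 1 - (i + 1) = 2 * h - i by omega] at h1
  have e : ((2 * h + 1 : ℕ) : ℚ) = (p : ℚ) := by rw [hP]; push_cast; ring
  rw [e] at h1
  rw [← q_s hN h5]
  have h2 : ph (1 / 2 - (p : ℚ)) (i + 1) ≠ 0 := by
    intro h0
    rw [h0] at h1
    exact q_ne (2 * h + 1) (by rw [h1]; ring)
  have h3 : q (2 * h - i) = q (2 * h + 1) / ph (1 / 2 - (p : ℚ)) (i + 1) ^ 2 := by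
    rw [h1, mul_div_assoc, div_self (pow_ne_zero 2 h2), mul_one]
  unfold tA
  rw [h3, hP]
  have := s_ne (2 * h)
  rw [hP] at h2
  push_cast
  field_simp
  ring

lemma tA_low {i : ℕ} (hi : i < h) : tA (2 * h) i = -3 * ((p : ℚ) ^ 2 * (pB p (1 / 2) h / 4 ^ h) ^ 2) *
    (v i * ((1 + (p : ℚ) * ((-4 / 3) / (2 * (i : ℚ) + 1))) * (pA p (-2) (i + 1) ^ 2)⁻¹)) := by
  have m2 : (-2 : ℚ) ∈ Zp p := by exact_mod_cast int_mem (p := p) (-2)
  have ha := nA (p := p) hN h5 m2 (n := i + 1) (by omega)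
  rw [tA_eq hN h5 (by omega), ph_A (p := p) (1 / 2 - (p : ℚ)) (-2) (i + 1) (by ring), ph_succ]
  unfold r v
  rw [c_ph]
  have h1 := ph_ne half_pos' i
  have h3 : (i.factorial : ℚ) ≠ 0 := by positivity
  have h7 : 2 * (i : ℚ) + 1 ≠ 0 := by positivity
  have h8 : (1 : ℚ) + 2 * i ≠ 0 := by positivity
  field_simp
  ring

lemma tA_mid : tA (2 * h) h = (p : ℚ) * (c h / 4 ^ h) ^ 3 := by
  have hP := P_eq (p := p) hN
  unfold tA r q s
  rw [show 2 * h - h = h by omega, ← ph_fac h, c_ph, hP]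
  have h1 := ph_ne half_pos' h
  have h3 : (h.factorial : ℚ) ≠ 0 := by positivity
  push_cast
  field_simp
  ring

lemma tA_up {k : ℕ} (hk : k < h) : tA (2 * h) (h + 1 + k) = (p : ℚ) ^ 3 * (((p : ℚ) - 6 * ((k : ℚ) + 1)) * (1 / 8 *
    ((c h / 4 ^ h) * (w k / (((k : ℚ) + 1) ^ 2 * 4 ^ (k + 1)) * (pB p (1 / 2) k ^ 3 / pA p 1 (k + 1))) *
    ((pB p (1 / 2) h / 4 ^ h) ^ 2 / (pA p (-2) h ^ 2 * pB p (-1 / 2) (k + 1) ^ 2))))) := by
  have hP := P_eq (p := p) hN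
  have m2 : (-2 : ℚ) ∈ Zp p := by exact_mod_cast int_mem (p := p) (-2)
  have ha := nA (p := p) hN h5 (Zp p).one_mem (n := k + 1) (by omega)
  have ha2 := nA (p := p) hN h5 m2 (n := h) (by omega)
  have hb := nB (p := p) hN h5 (mmh (p := p) hN h5) (n := k + 1) (by omega)
  have e1 : ph (1 / 2 - (p : ℚ)) (h + 1 + k + 1) = ph (1 / 2) h * pA p (-2) h * (-(p : ℚ) / 2) *
      (((k + 1).factorial : ℚ) * pB p (-1 / 2) (k + 1)) := by
    rw [show h + 1 + k + 1 = (h + 1) + (k + 1) by ring, ph_add, ph_succ, ph_A (p := p) (1 / 2 - (p : ℚ)) (-2) h (by ring),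
      ph_B (p := p) (1 / 2 - (p : ℚ) + ((h + 1 : ℕ) : ℚ)) (-1 / 2) (k + 1) (by rw [hP]; push_cast; ring), hP]
    ring
  rw [tA_eq hN h5 (by omega), e1, r_top hN h5 k hk, c_ph, w, Nat.factorial_succ k]
  have h1 := ph_ne half_pos' (k + 1)
  have h2 := ph_ne half_pos' h
  have h3 : (h.factorial : ℚ) ≠ 0 := by positivity
  have h4 : (k.factorial : ℚ) ≠ 0 := by positivity
  have h6 : (k : ℚ) + 1 ≠ 0 := by positivity
  have hp0 : (p : ℚ) ≠ 0 := by exact_mod_cast hp.out.ne_zero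
  have hh : (h : ℚ) = (p - 1) / 2 := by rw [hP]; ring
  push_cast
  rw [hh]
  field_simp
  ring

lemma om : M p 0 ((pB p (1 / 2) h / 4 ^ h) ^ 2) 1 := by
  have h1 := (F1B (p := p) hN (half_m h5) (n := h) (by omega)).M0
  have h2 := (h1.div (M.one_of (k := 0) (four_one (p := p) hN h5))).pow 2
  simpa using h2

lemma tA_up' {k : ℕ} (hk : k < h) : I p 4 (tA (2 * h) (h + 1 + k) + (p : ℚ) ^ 3 * ((-1) ^ h * (3 / 4) * (w k / (((k : ℚ) + 1) * 4 ^ (k + 1))))) := by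
  have m2 : (-2 : ℚ) ∈ Zp p := by exact_mod_cast int_mem (p := p) (-2)
  rw [tA_up hN h5 hk]
  have h1 : I p 1 (((p : ℚ) - 6 * ((k : ℚ) + 1)) - (-(6 * ((k : ℚ) + 1)))) := by
    have e : ((p : ℚ) - 6 * ((k : ℚ) + 1)) - (-(6 * ((k : ℚ) + 1))) = p := by ring
    rw [e]; simpa using I.p_pow (p := p) 1
  have m1 : (-(6 * ((k : ℚ) + 1))) ∈ Zp p := (Zp p).neg_mem (by exact_mod_cast nat_mem (p := p) (6 * (k + 1)))
  have h3 : M p 0 ((pB p (1 / 2) h / 4 ^ h) ^ 2 / (pA p (-2) h ^ 2 * pB p (-1 / 2) (k + 1) ^ 2)) 1 := by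
    have a := (F1A (p := p) hN m2 (n := h) (by omega)).M0.pow 2
    have b := (F1B (p := p) hN (mmh (p := p) hN h5) (n := k + 1) (by omega)).M0.pow 2
    simpa using (om (p := p) hN h5).div (a.mul b)
  have h2 := (M.refl 0 (u6 (p := p) hN h5)).mul (((mu0 (p := p) hN h5).mul ((M.refl 0 (w_den hN h5 hk)).mul (RBA hN h5 hk))).mul h3)
  have := lift4 hN h5 h1 m1 h2
  convert this using 1
  have h6 : (k : ℚ) + 1 ≠ 0 := by positivity
  field_simp
  ring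

lemma relA : I p 4 (S1 h - ((-1) ^ h * p + (p : ℚ) ^ 3 * (-8 * X1 h - 12 * XO h - 3 / 4 * (-1) ^ h * A3 h))) := by
  have hP := P_eq (p := p) hN
  have m2 : (-2 : ℚ) ∈ Zp p := by exact_mod_cast int_mem (p := p) (-2)
  have m3 : (-3 : ℚ) ∈ Zp p := by exact_mod_cast int_mem (p := p) (-3)
  have e1 : S1 h = ∑ i ∈ range h, tA (2 * h) i + tA (2 * h) h + ∑ k ∈ range h, tA (2 * h) (h + 1 + k) := by
    unfold S1
    rw [A_id, show 2 * h + 1 = (h + 1) + h by ring, sum_range_add, sum_range_succ]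
  have h1 := FS (p := p) hN h5 (fun i => (1 + (p : ℚ) * ((-4 / 3) / (2 * (i : ℚ) + 1))) * (pA p (-2) (i + 1) ^ 2)⁻¹)
    (8 / 3) 4 0 (fun i hi => by
      have f1 := F1o (p := p) hN h5 hi (m43 hN h5)
      have f2 := ((F1A (p := p) hN m2 (n := i + 1) (by omega)).pow 2).inv
      exact (f1.mul f2).congr (by rw [O_succ]; push_cast; ring))
  set Sg := ∑ i ∈ range h, v i * ((1 + (p : ℚ) * ((-4 / 3) / (2 * (i : ℚ) + 1))) * (pA p (-2) (i + 1) ^ 2)⁻¹) with hSg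
  have e2 : ∑ i ∈ range h, tA (2 * h) i = -3 * ((p : ℚ) ^ 2 * (pB p (1 / 2) h / 4 ^ h) ^ 2) * Sg := by
    rw [hSg, mul_sum]
    exact sum_congr rfl fun i hi => tA_low hN h5 (mem_range.mp hi)
  have mX1 : X1 h ∈ Zp p := Subring.sum_mem _ fun i hi => by
    rw [mem_range] at hi
    rw [one_div]
    exact (Zp p).mul_mem (v_mem hN h5 hi) (u_odd hN hi).inv
  have mXO : XO h ∈ Zp p := Subring.sum_mem _ fun i hi => by
    rw [mem_range] at hi
    exact (Zp p).mul_mem (v_mem hN h5 hi) (O_mem hN h5 (by omega))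
  have m83 : (8 / 3 : ℚ) ∈ Zp p := cst' h5 _ 128 (by norm_num)
  have m4 : (4 : ℚ) ∈ Zp p := by exact_mod_cast nat_mem (p := p) 4
  have hS1 : I p 1 Sg := by
    have a := h1.mono (show 1 ≤ 2 by norm_num)
    have b : I p 1 ((p : ℚ) * (8 / 3 * X1 h + 4 * XO h + 0 * X3 h)) := by
      have : (8 / 3 * X1 h + 4 * XO h + 0 * X3 h) ∈ Zp p := by
        rw [zero_mul, add_zero]
        exact (Zp p).add_mem ((Zp p).mul_mem m83 mX1) ((Zp p).mul_mem m4 mXO)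
      simpa using (I.p_pow (p := p) 1).mul_mem this
    have := a.add b
    rwa [sub_add_cancel] at this
  have h2 : I p 4 (∑ i ∈ range h, tA (2 * h) i - (p : ℚ) ^ 3 * (-8 * X1 h - 12 * XO h)) := by
    rw [e2]
    have a := (I.p_pow (p := p) 2).mul (I.mem_mul m3 ((om (p := p) hN h5).i.mul hS1))
    have b := (I.p_pow (p := p) 2).mul (I.mem_mul m3 h1)
    have := a.add b
    convert this using 1
    ring
  have h3 : I p 4 (∑ k ∈ range h, tA (2 * h) (h + 1 + k) + (p : ℚ) ^ 3 * ((-1) ^ h * (3 / 4) * A3 h)) := by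
    unfold A3
    rw [mul_sum, mul_sum, ← sum_add_distrib]
    exact I.sum _ _ fun k hk => tA_up' hN h5 (mem_range.mp hk)
  have h4 : I p 4 ((p : ℚ) * (c h / 4 ^ h) ^ 3 - (-1) ^ h * p) := by
    have a := (I.p_pow (p := p) 1).mul ((mu (p := p) hN h5).pow 3).i
    convert a using 1
    rw [← pow_mul, mul_comm h 3, pow_mul]
    norm_num
    ring
  rw [e1, tA_mid hN h5]
  have := (h2.add h4).add h3
  convert this using 1
  ring

end

end Pool.Agent.Helper88.QF
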