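import Pool.Agent.Helper88.QF

set_option autoImplicit false
set_option linter.unusedSectionVars false

namespace Pool.Agent.Helper88.QG

open Finset Pool.Agent.Helper857.Pad Pool.Agent.Helper88.Comb Pool.Agent.Helper88.Sq
  Pool.Agent.Helper88.PA Pool.Agent.Helper88.PB Pool.Agent.Helper88.PC Pool.Agent.Helper88.PD
  Pool.Agent.Helper88.QB Pool.Agent.Helper88.QC Pool.Agent.Helper88.QD Pool.Agent.Helper88.QE Pool.Agent.Helper88.QF

variable {p : ℕ} [hp : Fact p.Prime]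

section
variable {h : ℕ} (hN : 2 * h + 1 = p ^ 1) (h5 : 3 < p)
include hN h5

lemma mm1 : (-1 : ℚ) ∈ Zp p := (Zp p).neg_mem (Zp p).one_mem

lemma e_low {k : ℕ} (hk : k < h) : e k (h - 1 - k) = (-1) ^ (k + 1) * (w k / pA p (-1) (k + 1)) := by
  have hP := P_eq (p := p) hN
  induction k with
  | zero =>
    have ha := nA (p := p) hN h5 (mm1 hN h5) (n := 0 + 1) (by omega)
    rw [Nat.sub_zero, e_zero_left, w_zero, pA_succ, pA_zero]
    rw [pA_succ, pA_zero] at ha
    obtain ⟨n, rfl⟩ : ∃ n, h = n + 1 := ⟨h - 1, by omega⟩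
    rw [show n + 1 - 1 = n by omega, hP] at *
    have h6 : (n : ℚ) + 1 ≠ 0 := by positivity
    push_cast at *
    field_simp at *
    ring
  | succ k ih =>
    have ih' := ih (by omega)
    obtain ⟨m, hm⟩ : ∃ m, h = m + 1 + (k + 1) := ⟨h - 1 - (k + 1), by omega⟩
    rw [show h - 1 - k = m + 1 by omega, e_right] at ih'
    rw [show h - 1 - (k + 1) = m by omega, e_left, w_succ, pA_succ]
    have ha := nA (p := p) hN h5 (mm1 hN h5) (n := k + 1 + 1) (by omega)
    have ha1 := nA (p := p) hN h5 (mm1 hN h5) (n := k + 1) (by omega)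
    have e1 : 1 + (p : ℚ) * (-1 / (2 * ((k + 1 : ℕ) : ℚ) + 1)) = -(2 * ((m : ℚ) + 1)) / (2 * (k : ℚ) + 3) := by
      rw [hP, hm]
      have : 2 * (k : ℚ) + 3 ≠ 0 := by positivity
      have : 2 * ((k : ℚ) + 1) + 1 ≠ 0 := by positivity
      push_cast
      field_simp
      ring
    rw [e1]
    have a1 : (m : ℚ) + 1 ≠ 0 := by positivity
    have a2 : 2 * (k : ℚ) + 3 ≠ 0 := by positivity
    have a3 : (k : ℚ) + 3 / 2 ≠ 0 := by positivity
    have a4 : (k : ℚ) + m + 2 ≠ 0 := by positivity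
    have e2 : e k m = (-1) ^ (k + 1) * (w k / pA p (-1) (k + 1)) * (((k : ℚ) + m + 2) / ((m : ℚ) + 1)) := by
      rw [← ih']; field_simp
    rw [e2, pow_succ (-1 : ℚ) (k + 1)]
    field_simp

lemma e_high (k : ℕ) : e k h = w k / pA p 1 (k + 1) := by
  have h1 := fac_top (p := p) hN (k + 1)
  unfold e w
  rw [show k + h + 1 = h + (k + 1) by ring, h1]
  have h2 := ph_ne half_pos' (k + 1)
  have h3 : (h.factorial : ℚ) ≠ 0 := by positivity
  by_cases h0 : pA p 1 (k + 1) = 0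
  · rw [h0]; simp
  · field_simp

lemma MA {t : ℚ} (ht : t ∈ Zp p) {n : ℕ} (hn : n ≤ h) : M p 0 (pA p t n) 1 := (F1A hN ht hn).M0
lemma MB {t : ℚ} (ht : t ∈ Zp p) {n : ℕ} (hn : n ≤ 2 * h) : M p 0 (pB p t n) 1 := (F1B hN ht hn).M0

lemma Me_low {k : ℕ} (hk : k < h) : M p 0 (e k (h - 1 - k)) ((-1) ^ (k + 1) * w k) := by
  rw [e_low hN h5 hk]
  have := (M.refl 0 (sgn_U (p := p) hN h5 (k + 1))).mul ((M.refl 0 (u_w (p := p) hN hk)).div (MA hN h5 (mm1 hN h5) (n := k + 1) (by omega)))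
  simpa using this

lemma Me_high {k : ℕ} (hk : k < h) : M p 0 (e k h) (w k) := by
  rw [e_high (p := p) hN h5]
  have := ((M.refl 0 (u_w (p := p) hN hk)).div (MA hN h5 (Zp p).one_mem (n := k + 1) (by omega)))
  simpa using this

lemma sgn2 (n : ℕ) : ((-1 : ℚ) ^ n) * (-1) ^ n = 1 := by rw [← mul_pow]; norm_num

lemma KQ : I p 1 (Kk (h - 1) + Qs h) := by
  unfold Kk Qs
  have hpn' := hpn hN
  rw [show h - 1 + 1 = h by omega, ← sum_add_distrib]
  apply I.sum
  intro k hk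
  rw [mem_range] at hk
  have h1 := (M.refl 0 (sgn_U (p := p) hN h5 k)).mul ((Me_low hN h5 hk).mul (Me_high hN h5 hk))
  have := h1.i
  convert this using 1
  have := sgn2 (p := p) hN h5 k
  rw [pow_succ]
  linear_combination (-(w k ^ 2)) * this

lemma RQ : I p 1 (QB.Rr (h - 1) - Qs h) := by
  unfold QB.Rr Qs
  have hpn' := hpn hN
  rw [show h - 1 + 1 = h by omega, ← sum_sub_distrib]
  apply I.sum
  intro k hk
  rw [mem_range] at hk
  have h1 := ((Me_low hN h5 hk).pow 2)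
  have := h1.i
  convert this using 1
  have := sgn2 (p := p) hN h5 (k + 1)
  linear_combination (w k ^ 2) * this

lemma PQ : I p 1 (PP h h - Qs h) := by
  unfold PP Qs
  rw [← sum_sub_distrib]
  apply I.sum
  intro k hk
  rw [mem_range] at hk
  have h1 := ((Me_high hN h5 hk).pow 2)
  rw [e_symm]
  exact h1.i

lemma Qs_mem : Qs h ∈ Zp p := Subring.sum_mem _ fun i hi => by
  rw [mem_range] at hi
  exact (Zp p).pow_mem (u_w hN hi).mem 2

lemma A3_mem : A3 h ∈ Zp p := Subring.sum_mem _ fun i hi => by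
  rw [mem_range] at hi
  exact ((u_w hN hi).div ((u_succ hN (by omega)).mul (u_four h5 _))).mem

lemma fc : M p 0 (4 ^ h * c h) ((-1) ^ h) := by
  have := (M.one_of (k := 0) (four_one (p := p) hN h5)).mul (c_one hN h5)
  rwa [one_mul] at this

lemma B_low : I p 2 (B h - p * (1 / 3 * (-1) ^ h * Qs h)) := by
  have hP := P_eq (p := p) hN
  have hpn' := hpn hN
  have h1 := B_val (h - 1)
  have e1 : ((h - 1 : ℕ) : ℚ) = (h : ℚ) - 1 := by rw [Nat.cast_sub (by omega)]; simp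
  rw [show h - 1 + 1 = h by omega, e1] at h1
  have e2 : B h = (p : ℚ) * (1 / 3 * ((4 ^ h * c h) * QB.Rr (h - 1))) := by
    rw [h1, hP]; ring
  rw [e2]
  have h2 := Icongr_mul (fc (p := p) hN h5).i (RQ (p := p) hN h5) (by
    have := (Zp p).add_mem (RQ (p := p) hN h5).mem (Qs_mem (p := p) hN h5)
    rwa [sub_add_cancel] at this) (sgn_U (p := p) hN h5 h).mem
  have h3 := (I.p_pow (p := p) 1).mul (I.mem_mul (m13 (p := p) hN h5) h2)
  convert h3 using 1
  ring

lemma H2h : I p 1 (H 2 h) := by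
  have h1 := Z2_h (p := p) hN h5
  rw [← H_Z, Nq_p hN] at h1
  have e : (p : ℚ) ^ 2 * H 2 h = p * (p * H 2 h) := by ring
  rw [e] at h1
  exact I.cancel_p (I.cancel_p h1)

lemma H2full : I p 1 (H 2 (2 * h)) := by
  have hP := P_eq (p := p) hN
  have h1 := H2h (p := p) hN h5
  have e1 : H 2 (2 * h) = H 2 h + ∑ j ∈ range h, 1 / (((h + j : ℕ) : ℚ) + 1) ^ 2 := by
    unfold H; rw [two_mul, sum_range_add]
  have e2 : I p 1 (∑ j ∈ range h, 1 / (((h + j : ℕ) : ℚ) + 1) ^ 2 - H 2 h) := by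
    unfold H
    rw [← sum_range_reflect, ← sum_sub_distrib]
    apply I.sum
    intro j hj
    rw [mem_range] at hj
    have u1 := (u_succ (p := p) hN (i := j) (by omega))
    have hM : M p 0 (-(((h + (h - 1 - j) : ℕ) : ℚ) + 1)) ((j : ℚ) + 1) := by
      refine ⟨u1, ?_⟩
      obtain ⟨m, hm⟩ : ∃ m, h = m + (j + 1) := ⟨h - (j + 1), by omega⟩
      rw [show h - 1 - j = m by omega]
      have e : -(((h + m : ℕ) : ℚ) + 1) - ((j : ℚ) + 1) = p ^ 1 * (-1) := by
        rw [hP, hm]; push_cast; ring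
      rw [e]
      exact (I.p_pow 1).mul_mem (mm1 hN h5)
    have := (hM.pow 2).inv.i
    rw [zero_add] at this
    convert this using 1
    rw [one_div, one_div]
    ring
  rw [e1]
  have := (h1.add (e2.add h1))
  convert this using 1
  ring

lemma e_full {k : ℕ} (hk : k < 2 * h) : e k (2 * h - 1 - k) = (-1) ^ (k + 1) * (1 / (((k : ℚ) + 1) * pB p (-1) (k + 1))) := by
  have hP := P_eq (p := p) hN
  induction k with
  | zero =>
    rw [Nat.sub_zero, e_zero_left, pB_succ, pB_zero]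
    have hh : 0 < (h : ℚ) := by exact_mod_cast (show 0 < h by omega)
    have e1 : ((2 * h - 1 : ℕ) : ℚ) + 1 = 2 * h := by rw [Nat.cast_sub (by omega)]; push_cast; ring
    rw [e1]
    have e2 : (1 + (p : ℚ) * (-1 / (((0 : ℕ) : ℚ) + 1))) = -(2 * h) := by rw [hP]; push_cast; ring
    rw [e2]
    have := hh.ne'
    push_cast
    field_simp
    ring
  | succ k ih =>
    have ih' := ih (by omega)
    obtain ⟨m, hm⟩ : ∃ m, 2 * h = m + 1 + (k + 1) := ⟨2 * h - 1 - (k + 1), by omega⟩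
    rw [show 2 * h - 1 - k = m + 1 by omega, e_right] at ih'
    rw [show 2 * h - 1 - (k + 1) = m by omega, e_left, pB_succ]
    have ha1 := nB (p := p) hN h5 (mm1 hN h5) (n := k + 1) (by omega)
    have hm' : 2 * (h : ℚ) = m + 1 + (k + 1) := by exact_mod_cast hm
    have e1 : 1 + (p : ℚ) * (-1 / (((k + 1 : ℕ) : ℚ) + 1)) = -((m : ℚ) + 1) / ((k : ℚ) + 2) := by
      rw [hP, hm']
      have : (k : ℚ) + 2 ≠ 0 := by positivity
      have : (k : ℚ) + 1 + 1 ≠ 0 := by positivity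
      push_cast
      field_simp
      ring
    rw [e1]
    have a1 : (m : ℚ) + 1 ≠ 0 := by positivity
    have a2 : (k : ℚ) + 2 ≠ 0 := by positivity
    have a3 : (k : ℚ) + 1 ≠ 0 := by positivity
    have a5 : (k : ℚ) + 1 + 1 ≠ 0 := by positivity
    have a4 : (k : ℚ) + m + 2 ≠ 0 := by positivity
    have e2 : e k m = (-1) ^ (k + 1) * (1 / (((k : ℚ) + 1) * pB p (-1) (k + 1))) * (((k : ℚ) + m + 2) / ((m : ℚ) + 1)) := by
      rw [← ih']; field_simp
    rw [e2, pow_succ (-1 : ℚ) (k + 1)]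
    push_cast
    field_simp
    ring

lemma R_full : I p 1 (QB.Rr (2 * h - 1)) := by
  have hpn' := hpn hN
  have h2 := H2full (p := p) hN h5
  have h1 : I p 1 (QB.Rr (2 * h - 1) - H 2 (2 * h)) := by
    unfold QB.Rr H
    rw [show 2 * h - 1 + 1 = 2 * h by omega, ← sum_sub_distrib]
    apply I.sum
    intro k hk
    rw [mem_range] at hk
    have u1 := (u_succ (p := p) hN (i := k) (by omega))
    have hM : M p 0 (e k (2 * h - 1 - k)) ((-1) ^ (k + 1) * (1 / ((k : ℚ) + 1))) := by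
      rw [e_full hN h5 hk]
      have := (M.refl 0 (sgn_U (p := p) hN h5 (k + 1))).mul ((M.refl 0 U.one).div ((M.refl 0 u1).mul (MB hN h5 (mm1 hN h5) (n := k + 1) (by omega))))
      simpa using this
    have := (hM.pow 2).i
    convert this using 1
    have := sgn2 (p := p) hN h5 (k + 1)
    rw [mul_pow, one_div_pow]
    linear_combination ((1 / ((k : ℚ) + 1) ^ 2)) * this
  have := h1.add h2
  rwa [sub_add_cancel] at this

lemma B_full : I p 2 (B (2 * h)) := by
  have hP := P_eq (p := p) hN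
  have hpn' := hpn hN
  have h1 := B_val (2 * h - 1)
  have e1 : ((2 * h - 1 : ℕ) : ℚ) = 2 * (h : ℚ) - 1 := by rw [Nat.cast_sub (by omega)]; simp
  rw [show 2 * h - 1 + 1 = 2 * h by omega, e1] at h1
  have e2 : B (2 * h) = (p : ℚ) ^ 1 * QB.Rr (2 * h - 1) * (2 * (1 / 3) * 4 ^ (2 * h) * c (2 * h + 1)) := by
    rw [h1, hP, c_succ]
    have : 2 * (h : ℚ) + 1 ≠ 0 := by positivity
    push_cast
    field_simp
    ring
  rw [e2]
  have m2 : (2 : ℚ) ∈ Zp p := by exact_mod_cast nat_mem (p := p) 2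
  exact ((I.p_pow 1).mul (R_full hN h5)).mul_mem ((Zp p).mul_mem ((Zp p).mul_mem ((Zp p).mul_mem m2 (m13 hN h5)) (u_four h5 _).mem) (c_mem h5 _))

/-- reflection of `w` -/
lemma w_refl {m : ℕ} (hm : m < h) : w (h - 1 - m) = -(w m / c h) * (pB p (-1 / 2) m / pA p (-1) (m + 1)) := by
  have hP := P_eq (p := p) hN
  have hc := (u_c (p := p) hN (le_refl h)).ne
  induction m with
  | zero =>
    have ha := nA (p := p) hN h5 (mm1 hN h5) (n := 0 + 1) (by omega)
    rw [Nat.sub_zero, w_zero, pA_succ, pA_zero, pB_zero]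
    rw [pA_succ, pA_zero] at ha
    obtain ⟨n, rfl⟩ : ∃ n, h = n + 1 := ⟨h - 1, by omega⟩
    have h1 := w_c n
    rw [show n + 1 - 1 = n by omega, hP] at *
    have h6 : (n : ℚ) + 1 ≠ 0 := by positivity
    push_cast at *
    have e1 : (1 : ℚ) * (1 + (2 * ((n : ℚ) + 1) + 1) * (-1 / (2 * 0 + 1))) = -(2 * ((n : ℚ) + 1)) := by ring
    rw [e1]
    field_simp
    linear_combination h1
  | succ m ih =>
    have ih' := ih (by omega)
    obtain ⟨k, hk⟩ : ∃ k, h = k + 1 + (m + 1) := ⟨h - 1 - (m + 1), by omega⟩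
    rw [show h - 1 - m = k + 1 by omega, w_succ] at ih'
    rw [show h - 1 - (m + 1) = k by omega, w_succ, pA_succ, pB_succ]
    have ha1 := nA (p := p) hN h5 (mm1 hN h5) (n := m + 1) (by omega)
    have e1 : 1 + (p : ℚ) * (-1 / (2 * ((m + 1 : ℕ) : ℚ) + 1)) = -(2 * ((k : ℚ) + 1)) / (2 * (m : ℚ) + 3) := by
      rw [hP, hk]
      have : 2 * (m : ℚ) + 3 ≠ 0 := by positivity
      have : 2 * ((m : ℚ) + 1) + 1 ≠ 0 := by positivity
      push_cast
      field_simp
      ring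
    have e3 : 1 + (p : ℚ) * (-1 / 2 / ((m : ℚ) + 1)) = -(2 * (k : ℚ) + 3) / (2 * ((m : ℚ) + 1)) := by
      rw [hP, hk]
      have : (m : ℚ) + 1 ≠ 0 := by positivity
      push_cast
      field_simp
      ring
    rw [e1, e3]
    have a1 : (k : ℚ) + 1 ≠ 0 := by positivity
    have a2 : 2 * (m : ℚ) + 3 ≠ 0 := by positivity
    have a3 : (m : ℚ) + 3 / 2 ≠ 0 := by positivity
    have a5 : (k : ℚ) + 3 / 2 ≠ 0 := by positivity
    have a6 : (m : ℚ) + 1 ≠ 0 := by positivity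
    have a7 : (2 * (k : ℚ) + 3) ≠ 0 := by positivity
    have e2 : w k = -(w m / c h) * (pB p (-1 / 2) m / pA p (-1) (m + 1)) * (((k : ℚ) + 3 / 2) / ((k : ℚ) + 1)) := by
      rw [← ih']; field_simp
    rw [e2]
    field_simp

lemma B_diff : I p 2 (B (2 * h) - B h - p * (2 * A3 h)) := by
  have hP := P_eq (p := p) hN
  have hpn' := hpn hN
  have u2 : U p (2 : ℚ) := by exact_mod_cast U.natlt (p := p) (n := 2) (by norm_num) (by omega)
  have e1 : B (2 * h) - B h = ∑ j ∈ range h, 4 ^ (h + j + 1) * c (h + j + 1) / (((h + j : ℕ) : ℚ) + 1) := by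
    unfold B; rw [two_mul, sum_range_add]; ring
  rw [e1, ← sum_range_reflect]
  unfold A3
  rw [mul_sum, mul_sum, ← sum_sub_distrib]
  apply I.sum
  intro m hm
  rw [mem_range] at hm
  obtain ⟨k, hk⟩ : ∃ k, h = k + (m + 1) := ⟨h - 1 - m, by omega⟩
  rw [show h - 1 - m = k by omega]
  have hc := (u_c (p := p) hN (le_refl h)).ne
  have hwr := w_refl hN h5 hm
  rw [show h - 1 - m = k by omega] at hwr
  have hct := c_top (p := p) hN k
  rw [show h + 1 + k = h + k + 1 by ring, hwr] at hct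
  rw [hct]
  have u1 := (u_succ (p := p) hN (i := m) (by omega))
  -- denominator
  have hM : M p 0 (-(((h + k : ℕ) : ℚ) + 1)) ((m : ℚ) + 1) := by
    refine ⟨u1, ?_⟩
    have e : -(((h + k : ℕ) : ℚ) + 1) - ((m : ℚ) + 1) = p ^ 1 * (-1) := by
      rw [hP, hk]; push_cast; ring
    rw [e]
    exact (I.p_pow 1).mul_mem (mm1 hN h5)
  have h4 : (4 : ℚ) ^ (h + k + 1) = 4 ^ h * 4 ^ h * (4 ^ m)⁻¹ := by
    have : (4 : ℚ) ^ m ≠ 0 := by positivity
    field_simp
    rw [← pow_mul, show h * 2 = h + k + 1 + m by omega, pow_add _ (h + k + 1) m]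
  have f1 := M.one_of (k := 0) (four_one (p := p) hN h5)
  have k1 := (((f1.mul f1).mul (M.refl 0 (u_four (p := p) h5 m).inv')).mul
    (((M.refl 0 (u2.inv')).mul (M.refl 0 (u_w (p := p) hN hm))).mul
    (((MB hN h5 (mmh hN h5) (n := m) (by omega)).div (MA hN h5 (mm1 hN h5) (n := m + 1) (by omega))).mul
    ((MB hN h5 (half_m h5) (n := k) (by omega)).div (MA hN h5 (Zp p).one_mem (n := k + 1) (by omega)))))).div hM
  have k2 := (I.p_pow (p := p) 1).mul k1.i
  convert k2 using 1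
  rw [h4]
  have a1 : ((h + k : ℕ) : ℚ) + 1 ≠ 0 := by positivity
  have a2 : (4 : ℚ) ^ m ≠ 0 := by positivity
  have a3 : (m : ℚ) + 1 ≠ 0 := by positivity
  have a4 := nA (p := p) hN h5 (mm1 hN h5) (n := m + 1) (by omega)
  have a5 := nA (p := p) hN h5 (Zp p).one_mem (n := k + 1) (by omega)
  rw [pow_succ (4 : ℚ) m]
  field_simp
  ring

/-- `B(h) ≡ -2 p A3` -/
lemma rel2 : I p 1 (1 / 3 * (-1) ^ h * Qs h + 2 * A3 h) := by
  have h1 := B_low (p := p) hN h5
  have h2 := B_full (p := p) hN h5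
  have h3 := B_diff (p := p) hN h5
  apply I.cancel_p
  have := (h2.sub h3).sub h1
  convert this using 1
  ring

lemma rel3 : I p 1 (3 * A3 h + 2 * Al h + (-1) ^ h * Qs h) := by
  have hpn' := hpn hN
  have h1 := A3_val (h - 1)
  rw [show h - 1 + 1 = h by omega] at h1
  have h2 := I.mem_mul (sgn_U (p := p) hN h5 h).mem (KQ (p := p) hN h5)
  convert h2 using 1
  rw [h1]
  ring

lemma A3_Al : I p 1 (3 * A3 h - 2 * Al h) := by
  have h1 := rel2 (p := p) hN h5
  have h2 := rel3 (p := p) hN h5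
  have m3 : (3 : ℚ) ∈ Zp p := by exact_mod_cast nat_mem (p := p) 3
  have := (I.mem_mul m3 h1).sub h2
  convert this using 1
  ring

/-- `A3(h) ≡ (4/3) (-1)^h E_{p-3}` -/
lemma A3_E : I p 1 (A3 h - 4 / 3 * (-1) ^ h * (Pool.Agent.R856.eulerE (p - 3) : ℚ)) := by
  have h1 := A3_Al (p := p) hN h5
  have h2 := PE.euler_al (p := p) hN h5
  have m23 : (2 / 3 : ℚ) ∈ Zp p := cst' h5 _ 32 (by norm_num)
  have := (I.mem_mul (m13 (p := p) hN h5) h1).add (I.mem_mul m23 h2)
  convert this using 1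
  unfold Al PE.Al
  ring

/-! ### the first congruence, `p ≠ 5` -/

lemma first' (hp5 : p ≠ 5) : I p 4 (S1 h - ((-1) ^ h * p - (Pool.Agent.R856.eulerE (p - 3) : ℚ) * (p : ℚ) ^ 3)) := by
  have hpn' := hpn hN
  have h1 := rel5 (p := p) hN h5
  have h2 := B_full (p := p) hN h5
  have h3 := B_diff (p := p) hN h5
  have hW := relW (p := p) hN h5
  have hA := relA (p := p) hN h5
  have hB := relB (p := p) hN h5
  have hE := A3_E (p := p) hN h5
  have hs := sgn_U (p := p) hN h5 h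
  have h8 := m18 (p := p) hN h5
  have k1 : I p 1 (-(2 * A3 h) - ((-1) ^ h * (-2 * X1 h + 2 * XO h - X3 h))) := by
    apply I.cancel_p
    have := h1.sub (h2.sub h3)
    convert this using 1
    ring
  have m34 : (3 / 4 : ℚ) ∈ Zp p := cst' h5 _ 36 (by norm_num)
  -- relation between A and B
  have k2 : I p 1 (((-1) ^ h * (3 / 4 * A3 h + 1 / 8 * Ys h)) - (-8 * X1 h - 12 * XO h - 3 / 4 * (-1) ^ h * A3 h)) := by
    have := hA.sub hB
    have e : (S1 h - ((-1) ^ h * p + (p : ℚ) ^ 3 * (-8 * X1 h - 12 * XO h - 3 / 4 * (-1) ^ h * A3 h))) -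
        (S1 h - ((-1) ^ h * p + (p : ℚ) ^ 3 * ((-1) ^ h * (3 / 4 * A3 h + 1 / 8 * Ys h)))) =
        p * (p * (p * (((-1) ^ h * (3 / 4 * A3 h + 1 / 8 * Ys h)) - (-8 * X1 h - 12 * XO h - 3 / 4 * (-1) ^ h * A3 h)))) := by
      ring
    rw [e] at this
    exact I.cancel_p (I.cancel_p (I.cancel_p this))
  have hsq := sgn2 (p := p) hN h5 h
  have k3 : I p 1 (5 * (2 * X1 h + 3 * XO h)) := by
    have a := I.mem_mul h8 (hW.mul_mem hs.mem)
    have b := (I.mem_mul m34 (k1.mul_mem hs.mem))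
    have := (k2.sub a).add b
    convert this using 1
    linear_combination (-(2 * X1 h + 3 * XO h)) * hsq
  have k4 : I p 1 (2 * X1 h + 3 * XO h) := by
    have n5 : ¬ p ∣ 5 := by
      intro hd
      have := (Nat.dvd_prime (by norm_num : Nat.Prime 5)).mp hd
      omega
    apply I.cancel (n := 5) n5
    push_cast
    exact k3
  have m4 : (-4 : ℚ) ∈ Zp p := by exact_mod_cast int_mem (p := p) (-4)
  have a := (I.p_pow (p := p) 3).mul (I.mem_mul m4 k4)
  have b := (I.p_pow (p := p) 3).mul (I.mem_mul m34 (hE.mul_mem hs.mem))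
  have := (hA.add a).sub b
  convert this using 1
  linear_combination ((p : ℚ) ^ 3 * (Pool.Agent.R856.eulerE (p - 3) : ℚ)) * (-1) * hsq

/-! ### the upper half for `42k+5` -/

lemma third_up : I p 4 (∑ k ∈ range h, (42 * (((h + 1 + k : ℕ) : ℚ)) + 5) * c (h + 1 + k) ^ 3 / 64 ^ (h + 1 + k) +
    (Pool.Agent.R856.eulerE (p - 3) : ℚ) * (p : ℚ) ^ 3) := by
  have hP := P_eq (p := p) hN
  have e1 : ∀ k ∈ range h, (42 * (((h + 1 + k : ℕ) : ℚ)) + 5) * c (h + 1 + k) ^ 3 / 64 ^ (h + 1 + k) =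
      (p : ℚ) ^ 3 * ((21 * (p : ℚ) + 42 * k + 26) * (1 / 8 * ((c h ^ 3 / (4 ^ h) ^ 3) *
      (w k ^ 3 / 4 ^ (3 * (k + 1)) * (pB p (1 / 2) k / pA p 1 (k + 1)) ^ 3)))) := by
    intro k hk
    rw [c_top (p := p) hN]
    have e64 : (64 : ℚ) ^ (h + 1 + k) = (4 ^ h) ^ 3 * 4 ^ (3 * (k + 1)) := by
      rw [← pow_mul, ← pow_add, show (64 : ℚ) = 4 ^ 3 by norm_num, ← pow_mul]
      congr 1
      ring
    have hh : (h : ℚ) = (p - 1) / 2 := by rw [hP]; ring
    rw [e64]
    push_cast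
    rw [hh]
    field_simp
    ring
  have h3 : M p 0 (c h ^ 3 / (4 ^ h) ^ 3) ((-1) ^ h) := by
    have := ((c_one (p := p) hN h5).pow 3).div ((M.one_of (k := 0) (four_one (p := p) hN h5)).pow 3)
    convert this using 1
    rw [← pow_mul, mul_comm h 3, pow_mul]
    norm_num
  have k1 : I p 4 (∑ k ∈ range h, (42 * (((h + 1 + k : ℕ) : ℚ)) + 5) * c (h + 1 + k) ^ 3 / 64 ^ (h + 1 + k) -
      (p : ℚ) ^ 3 * (1 / 256 * (-1) ^ h * VV h)) := by
    rw [sum_congr rfl e1]
    unfold VV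
    rw [mul_sum, mul_sum, ← sum_sub_distrib]
    apply I.sum
    intro k hk
    rw [mem_range] at hk
    have h1 : I p 1 ((21 * (p : ℚ) + 42 * k + 26) - (42 * k + 26)) := by
      have e : (21 * (p : ℚ) + 42 * k + 26) - (42 * k + 26) = p ^ 1 * 21 := by ring
      rw [e]; exact (I.p_pow (p := p) 1).mul_mem (by exact_mod_cast nat_mem (p := p) 21)
    have m1 : (42 * (k : ℚ) + 26) ∈ Zp p := by exact_mod_cast nat_mem (p := p) (42 * k + 26)
    have hR := (F1top (p := p) hN hk (half_m h5)).pow 3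
    have h2 := (M.refl 0 (u6 (p := p) hN h5)).mul (h3.mul ((M.refl 0 (((u_w (p := p) hN hk).pow 3).div (u_four h5 (3 * (k + 1))))).mul hR))
    have := (lift4 hN h5 h1 m1 h2)
    convert this using 2
    have e64 : (4 : ℚ) ^ (3 * (k + 1)) = 64 * 64 ^ k := by
      rw [pow_mul, pow_succ]; norm_num; ring
    rw [e64]
    field_simp
    ring
  have f1 := fc (p := p) hN h5
  have k2 : I p 1 (PP h h / (4 ^ h * c h) - (-1) ^ h * Qs h) := by
    have a := f1.inv
    have mq := Qs_mem (p := p) hN h5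
    have := Icongr_mul (PQ (p := p) hN h5) (show I p 1 ((4 ^ h * c h)⁻¹ - ((-1 : ℚ) ^ h)⁻¹) from a.i) a.ux.mem mq
    rw [← div_eq_mul_inv] at this
    convert this using 1
    have : ((-1 : ℚ) ^ h)⁻¹ = (-1) ^ h := by
      rw [inv_eq_iff_eq_inv, ← inv_pow]; norm_num
    rw [this]
    ring
  have k3 : I p 1 (VV h + 192 * A3 h) := by
    rw [VV_val]
    have a := rel2 (p := p) hN h5
    have m64 : (64 : ℚ) ∈ Zp p := by exact_mod_cast nat_mem (p := p) 64
    have m192 : (192 : ℚ) ∈ Zp p := by exact_mod_cast nat_mem (p := p) 192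
    have := (I.mem_mul m64 k2).add (I.mem_mul m192 a)
    convert this using 1
    ring
  have hE := A3_E (p := p) hN h5
  have hs := sgn_U (p := p) hN h5 h
  have m256 : (1 / 256 : ℚ) ∈ Zp p := by
    have := (u_four (p := p) h5 4).inv
    norm_num at this
    exact this
  have m34 : (3 / 4 : ℚ) ∈ Zp p := cst' h5 _ 36 (by norm_num)
  have a := (I.p_pow (p := p) 3).mul (I.mem_mul m256 (k3.mul_mem hs.mem))
  have b := (I.p_pow (p := p) 3).mul (I.mem_mul m34 (hE.mul_mem hs.mem))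
  have := (k1.add a).sub b
  convert this using 1
  have hsq := sgn2 (p := p) hN h5 h
  linear_combination (-(p : ℚ) ^ 3 * (Pool.Agent.R856.eulerE (p - 3) : ℚ)) * hsq

end

end Pool.Agent.Helper88.QG
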