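import Pool.Agent.Helper88.QG
import Pool.Graph.R_seed8.R856.FT5

set_option autoImplicit false
set_option linter.unusedSectionVars false

namespace Pool.Agent.Helper88.QH

open Finset Pool.Agent.Helper857.Pad Pool.Agent.Helper88.Comb Pool.Agent.Helper88.Sq
  Pool.Agent.Helper88.PA Pool.Agent.Helper88.PB Pool.Agent.Helper88.PC Pool.Agent.Helper88.PD
  Pool.Agent.Helper88.QB Pool.Agent.Helper88.QC Pool.Agent.Helper88.QD Pool.Agent.Helper88.QE Pool.Agent.Helper88.QF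
  Pool.Agent.Helper88.QG

lemma ph_refl (N i : ℕ) (hi : i ≤ N + 1) :
    ph (1 / 2) (N + 1) = ph (1 / 2) (N + 1 - i) * ((-1) ^ i * ph (1 / 2 - ((N + 1 : ℕ) : ℚ)) i) := by
  induction i with
  | zero => simp [ph_zero]
  | succ i ih =>
    obtain ⟨k, hk⟩ : ∃ k, N + 1 = k + (i + 1) := ⟨N + 1 - (i + 1), by omega⟩
    rw [ih (by omega), show N + 1 - i = k + 1 by omega, show N + 1 - (i + 1) = k by omega, ph_succ, ph_succ, hk, pow_succ]
    push_cast
    ring

/-- `Σ C(n+i,i) 2^{-i} = 2^n` -/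
lemma half_sum (n : ℕ) : ∑ i ∈ range (n + 1), ((n + i).choose i : ℚ) * (1 / 2) ^ i = 2 ^ n := by
  induction n with
  | zero => simp
  | succ n ih =>
    have e1 : ∀ i ∈ range (n + 1), ((n + 1 + (i + 1)).choose (i + 1) : ℚ) * (1 / 2) ^ (i + 1) =
        ((n + (i + 1)).choose (i + 1) : ℚ) * (1 / 2) ^ (i + 1) + 1 / 2 * (((n + 1 + i).choose i : ℚ) * (1 / 2) ^ i) := by
      intro i _
      rw [show n + 1 + (i + 1) = (n + 1 + i) + 1 by ring, Nat.choose_succ_succ, show n + (i + 1) = n + 1 + i by ring,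
        pow_succ]
      push_cast
      ring
    have e2 : ∑ i ∈ range (n + 1), ((n + (i + 1)).choose (i + 1) : ℚ) * (1 / 2) ^ (i + 1) =
        2 ^ n - 1 + ((2 * n + 1).choose (n + 1) : ℚ) * (1 / 2) ^ (n + 1) := by
      have a := sum_range_succ' (fun i => ((n + i).choose i : ℚ) * (1 / 2) ^ i) (n + 1)
      have b := sum_range_succ (fun i => ((n + i).choose i : ℚ) * (1 / 2) ^ i) (n + 1)
      have e0 : ((n + 0).choose 0 : ℚ) * (1 / 2) ^ 0 = 1 := by simp
      rw [b, ih, e0, show n + (n + 1) = 2 * n + 1 by ring] at a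
      linarith
    have e3 : ∑ i ∈ range (n + 1), ((n + 1 + i).choose i : ℚ) * (1 / 2) ^ i =
        ∑ i ∈ range (n + 1 + 1), ((n + 1 + i).choose i : ℚ) * (1 / 2) ^ i - ((2 * n + 2).choose (n + 1) : ℚ) * (1 / 2) ^ (n + 1) := by
      rw [sum_range_succ _ (n + 1), show n + 1 + (n + 1) = 2 * n + 2 by ring]
      ring
    have e4 : ((2 * n + 2).choose (n + 1) : ℚ) = 2 * ((2 * n + 1).choose (n + 1) : ℚ) := by
      rw [show 2 * n + 2 = (2 * n + 1) + 1 by ring, Nat.choose_succ_succ,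
        Nat.choose_symm_of_eq_add (show 2 * n + 1 = n + (n + 1) by ring)]
      push_cast
      ring
    have e5 : ∑ i ∈ range (n + 1 + 1), ((n + 1 + i).choose i : ℚ) * (1 / 2) ^ i =
        1 + ∑ i ∈ range (n + 1), ((n + 1 + (i + 1)).choose (i + 1) : ℚ) * (1 / 2) ^ (i + 1) := by
      rw [sum_range_succ']
      simp
      ring
    rw [sum_congr rfl e1, sum_add_distrib, e2, ← mul_sum, e3, e4] at e5
    rw [pow_succ]
    linarith

lemma b_half (n : ℕ) : ∑ i ∈ range (n + 1), b n i * (1 / 2) ^ i = (1 / 2) ^ n := by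
  have h := add_pow (-(1 / 2) : ℚ) 1 n
  have e : (-(1 / 2) + 1 : ℚ) = 1 / 2 := by norm_num
  rw [e] at h
  rw [h]
  apply sum_congr rfl
  intro i _
  unfold b
  rw [neg_pow (1 / 2 : ℚ) i, one_pow]
  ring

variable {p : ℕ} [hp : Fact p.Prime]

section
variable {h : ℕ} (hN : 2 * h + 1 = p ^ 1) (h5 : 3 < p)
include hN h5

/-- second-order Taylor expansion of `1/pA` -/
lemma taylor (i : ℕ) (hi : i ≤ h) : ∃ a ∈ Zp p, ∃ b ∈ Zp p, ∀ t ∈ Zp p,
    I p 3 ((pA p t i)⁻¹ - (1 + a * (p * t) + b * (p * t) ^ 2)) := by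
  induction i with
  | zero =>
    exact ⟨0, (Zp p).zero_mem, 0, (Zp p).zero_mem, fun t _ => by simpa [pA_zero] using I.zero 3⟩
  | succ i ih =>
    obtain ⟨a, ma, b, mb, hab⟩ := ih (by omega)
    set u := (2 * (i : ℚ) + 1)⁻¹ with hu
    have mu' : u ∈ Zp p := (u_odd hN (by omega)).inv
    refine ⟨a - u, (Zp p).sub_mem ma mu', b - a * u + u ^ 2, (Zp p).add_mem ((Zp p).sub_mem mb ((Zp p).mul_mem ma mu')) ((Zp p).pow_mem mu' 2), ?_⟩
    intro t mt
    have h1 := hab t mt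
    have e0 : (1 + (p : ℚ) * (t / (2 * (i : ℚ) + 1))) = 1 + p * t * u := by rw [hu]; ring
    rw [pA_succ, mul_inv, e0]
    have hf : F1 p (1 + (p : ℚ) * (t * u)) (t * u) := F1.basic ((Zp p).mul_mem mt mu')
    rw [← mul_assoc] at hf
    have hne := hf.u.ne
    have mi' := hf.u.inv
    have mt2 : (p : ℚ) * t ∈ Zp p := (Zp p).mul_mem (nat_mem p) mt
    have mq : (1 + a * (p * t) + b * (p * t) ^ 2) ∈ Zp p :=
      (Zp p).add_mem ((Zp p).add_mem (Zp p).one_mem ((Zp p).mul_mem ma mt2)) ((Zp p).mul_mem mb ((Zp p).pow_mem mt2 2))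
    have e1 : (pA p t i)⁻¹ * (1 + p * t * u)⁻¹ - (1 + (a - u) * (p * t) + (b - a * u + u ^ 2) * (p * t) ^ 2) =
        ((pA p t i)⁻¹ - (1 + a * (p * t) + b * (p * t) ^ 2)) * (1 + p * t * u)⁻¹ +
        (p : ℚ) ^ 3 * ((-(t ^ 3 * (u * (b - a * u + u ^ 2)))) * (1 + p * t * u)⁻¹) := by
      field_simp
      ring
    rw [e1]
    refine (h1.mul_mem mi').add ((I.p_pow 3).mul_mem ((Zp p).mul_mem ((Zp p).neg_mem ?_) mi'))
    exact (Zp p).mul_mem ((Zp p).pow_mem mt 3) ((Zp p).mul_mem mu' ((Zp p).add_mem ((Zp p).sub_mem mb ((Zp p).mul_mem ma mu')) ((Zp p).pow_mem mu' 2)))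

lemma third_diff (i : ℕ) (hi : i ≤ h) :
    I p 3 ((pA p (-2) i)⁻¹ - 3 * (pA p (-1) i)⁻¹ + 3 * (pA p 0 i)⁻¹ - (pA p 1 i)⁻¹) := by
  obtain ⟨a, ma, b, mb, hab⟩ := taylor hN h5 i hi
  have m2 : (-2 : ℚ) ∈ Zp p := by exact_mod_cast int_mem (p := p) (-2)
  have m3 : (3 : ℚ) ∈ Zp p := by exact_mod_cast nat_mem (p := p) 3
  have k1 := hab (-2) m2
  have k2 := I.mem_mul m3 (hab (-1) (mm1 hN h5))
  have k3 := I.mem_mul m3 (hab 0 (Zp p).zero_mem)
  have k4 := hab 1 (Zp p).one_mem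
  have := ((k1.sub k2).add k3).sub k4
  convert this using 1
  ring

/-- weights `c_i/2^i` -/
def cw (i : ℕ) : ℚ := c i * (1 / 2) ^ i

lemma cw_mem (i : ℕ) : cw i ∈ Zp p := (Zp p).mul_mem (c_mem h5 i) ((Zp p).pow_mem (half_m h5) i)

noncomputable def tt (p : ℕ) (h : ℕ) (t : ℚ) : ℚ := ∑ i ∈ range (h + 1), cw i * (pC (p : ℚ) i * (pA p t i)⁻¹)

omit hN h5 hp in
lemma pC_AA (i : ℕ) : pC (p : ℚ) i = pA p 1 i * pA p (-1) i := by
  unfold pC pA
  rw [← prod_mul_distrib]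
  exact prod_congr rfl fun j _ => by ring

lemma pC_mem {i : ℕ} (hi : i ≤ h) : pC (p : ℚ) i ∈ Zp p := by
  rw [pC_AA]
  exact (Zp p).mul_mem (F1A hN (Zp p).one_mem hi).u.mem (F1A hN (mm1 hN h5) hi).u.mem

lemma tt_diff : I p 3 (tt p h (-2) - 3 * tt p h (-1) + 3 * tt p h 0 - tt p h 1) := by
  have e : tt p h (-2) - 3 * tt p h (-1) + 3 * tt p h 0 - tt p h 1 =
      ∑ i ∈ range (h + 1), cw i * (pC (p : ℚ) i * ((pA p (-2) i)⁻¹ - 3 * (pA p (-1) i)⁻¹ + 3 * (pA p 0 i)⁻¹ - (pA p 1 i)⁻¹)) := by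
    unfold tt
    rw [mul_sum, mul_sum, ← sum_sub_distrib, ← sum_add_distrib, ← sum_sub_distrib]
    exact sum_congr rfl fun i _ => by ring
  rw [e]
  apply I.sum
  intro i hi
  rw [mem_range] at hi
  exact I.mem_mul (cw_mem hN h5 i) (I.mem_mul (pC_mem hN h5 (by omega)) (third_diff hN h5 i (by omega)))

lemma ch_A {i : ℕ} : c i * pA p 1 i = ((h + i).choose i : ℚ) := by
  have hP := P_eq (p := p) hN
  induction i with
  | zero => simp [c_zero, pA_zero]
  | succ i ih =>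
    rw [ch2, ← ih, c_succ, pA_succ, hP]
    have : 2 * (i : ℚ) + 1 ≠ 0 := by positivity
    have : (i : ℚ) + 1 ≠ 0 := by positivity
    field_simp
    ring

lemma b_A {i : ℕ} : c i * pA p (-1) i = b h i := by
  have hP := P_eq (p := p) hN
  unfold b
  induction i with
  | zero => simp [c_zero, pA_zero]
  | succ i ih =>
    rw [ch1, c_succ, pA_succ, hP]
    have a1 : 2 * (i : ℚ) + 1 ≠ 0 := by positivity
    have a2 : (i : ℚ) + 1 ≠ 0 := by positivity
    have e : c i * ((2 * (i : ℚ) + 1) / (2 * ((i : ℚ) + 1))) * (pA p (-1) i * (1 + (2 * (h : ℚ) + 1) * (-1 / (2 * (i : ℚ) + 1)))) =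
        (c i * pA p (-1) i) * (((2 * (i : ℚ) + 1) / (2 * ((i : ℚ) + 1))) * (1 + (2 * (h : ℚ) + 1) * (-1 / (2 * (i : ℚ) + 1)))) := by ring
    rw [e, ih, pow_succ]
    field_simp
    ring

lemma tt_m1 : tt p h (-1) = 2 ^ h := by
  rw [← half_sum]
  unfold tt cw
  apply sum_congr rfl
  intro i hi
  rw [mem_range] at hi
  have := nA (p := p) hN h5 (mm1 hN h5) (n := i) (by omega)
  rw [← ch_A (p := p) hN h5, pC_AA]
  field_simp

lemma tt_1 : tt p h 1 = (1 / 2) ^ h := by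
  rw [← b_half]
  unfold tt cw
  apply sum_congr rfl
  intro i hi
  rw [mem_range] at hi
  have := nA (p := p) hN h5 (Zp p).one_mem (n := i) (by omega)
  rw [← b_A (p := p) hN h5, pC_AA]
  field_simp

/-- the sign -/
noncomputable def ep (h : ℕ) : ℚ := Dd (-2) h - Dd (-2) (h - 1)

lemma tt_0 : tt p h 0 = ep h := by
  have hP := P_eq (p := p) hN
  have hpn' := hpn hN
  obtain ⟨n, rfl⟩ : ∃ n, h = n + 1 := ⟨h - 1, by omega⟩
  unfold ep
  rw [show n + 1 - 1 = n by omega, ← V_sum]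
  unfold tt cw
  apply sum_congr rfl
  intro i hi
  have h1 := c_pC (n + 1) i
  rw [hP]
  have e0 : pA p 0 i = 1 := by unfold pA; simp
  have e : (-2 : ℚ) ^ i = (-4) ^ i * (1 / 2) ^ i := by rw [← mul_pow]; norm_num
  rw [e0, e, inv_one, mul_one]
  linear_combination ((1 / 2 : ℚ) ^ i) * h1

lemma ep_sq : ep h ^ 2 = 1 := by
  have hpn' := hpn hN
  obtain ⟨n, hn⟩ : ∃ n, h = n + 1 := ⟨h - 1, by omega⟩
  unfold ep
  rw [hn, show n + 1 - 1 = n by omega]
  rcases Nat.even_or_odd' n with ⟨k, rfl | rfl⟩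
  · obtain ⟨a, b⟩ := Dd_m2 k
    rw [a, b, zero_sub, neg_sq, ← pow_mul, mul_comm, pow_mul]
    norm_num
  · obtain ⟨a, b⟩ := Dd_m2 k
    obtain ⟨c, -⟩ := Dd_m2 (k + 1)
    rw [show 2 * k + 1 + 1 = 2 * (k + 1) by ring, c, b, sub_zero, ← pow_mul, mul_comm, pow_mul]
    norm_num

lemma inv_one_I {t : ℚ} (mt : t ∈ Zp p) {i : ℕ} (hi : i ≤ h) : I p 1 ((pA p t i)⁻¹ - 1) := (F1A hN mt hi).inv.one_i

lemma two_ep : I p 1 ((2 : ℚ) ^ h - ep h) := by
  rw [← tt_m1 (p := p) hN h5, ← tt_0 (p := p) hN h5]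
  unfold tt
  rw [← sum_sub_distrib]
  apply I.sum
  intro i hi
  rw [mem_range] at hi
  have a := inv_one_I (p := p) hN h5 (mm1 hN h5) (i := i) (by omega)
  have b := inv_one_I (p := p) hN h5 (Zp p).zero_mem (i := i) (by omega)
  have := I.mem_mul (cw_mem hN h5 i) (I.mem_mul (pC_mem hN h5 (i := i) (by omega)) (a.sub b))
  convert this using 1
  ring

lemma pC_exp {i : ℕ} (hi : i ≤ h) : I p 3 (pC (p : ℚ) i - (1 - (p : ℚ) ^ 2 * O2 i)) := by
  have h1 := prod_one_sub (p := p) (m := 2) (fun j => ((p : ℚ) / (2 * (j : ℚ) + 1)) ^ 2) i (fun j hj => by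
    rw [div_pow, div_eq_mul_inv]
    exact (I.p_pow 2).mul_mem ((u_odd hN (by omega)).pow 2).inv)
  have h2 := h1.mono (show 3 ≤ 2 * 2 by norm_num)
  have e2 : ∑ j ∈ range i, ((p : ℚ) / (2 * (j : ℚ) + 1)) ^ 2 = (p : ℚ) ^ 2 * O2 i := by
    unfold O2; rw [mul_sum]; exact sum_congr rfl fun j _ => by rw [div_pow]; ring
  rw [e2] at h2
  exact h2

/-- the `Z` sum -/
noncomputable def Zs (h : ℕ) : ℚ := ∑ i ∈ range (h + 1), cw i * O2 i

noncomputable def Ts (p : ℕ) (h : ℕ) : ℚ := ∑ i ∈ range (h + 1), cw i * (pA p (-2) i)⁻¹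

lemma O2_mem {i : ℕ} (hi : i ≤ h) : O2 i ∈ Zp p := by
  unfold O2
  exact Subring.sum_mem _ fun j hj => by
    rw [mem_range] at hj
    rw [one_div]
    exact ((u_odd hN (by omega)).pow 2).inv

lemma Ts_tt : I p 3 (Ts p h - tt p h (-2) - (p : ℚ) ^ 2 * Zs h) := by
  have m2 : (-2 : ℚ) ∈ Zp p := by exact_mod_cast int_mem (p := p) (-2)
  unfold Ts tt Zs
  rw [mul_sum, ← sum_sub_distrib, ← sum_sub_distrib]
  apply I.sum
  intro i hi
  rw [mem_range] at hi
  have a := pC_exp (p := p) hN h5 (i := i) (by omega)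
  have f := F1A (p := p) hN m2 (n := i) (by omega)
  have b := inv_one_I (p := p) hN h5 m2 (i := i) (by omega)
  have k1 := I.mem_mul (cw_mem hN h5 i) (a.neg.mul_mem f.u.inv)
  have k2 := I.mem_mul (cw_mem hN h5 i) (((I.p_pow (p := p) 2).mul_mem (O2_mem hN h5 (i := i) (by omega))).mul b)
  have := k1.add k2
  convert this using 1
  ring

lemma Ts_val : I p 3 (Ts p h - (3 * 2 ^ h - 3 * ep h + (1 / 2) ^ h + (p : ℚ) ^ 2 * Zs h)) := by
  have a := Ts_tt (p := p) hN h5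
  have b := tt_diff (p := p) hN h5
  rw [tt_m1 (p := p) hN h5, tt_0 (p := p) hN h5, tt_1 (p := p) hN h5] at b
  have := a.add b
  convert this using 1
  ring

/-- the sum for `(6k+1)/(-512)^k` -/
lemma S2_exact : ∑ n ∈ range (h + 1), (6 * (n : ℚ) + 1) * c n ^ 3 / (-8) ^ n =
    p * ((c h / 4 ^ h) * pB p (1 / 2) h) * Ts p h := by
  have hP := P_eq (p := p) hN
  have m2 : (-2 : ℚ) ∈ Zp p := by exact_mod_cast int_mem (p := p) (-2)
  rw [t2_id]
  unfold Ts cw
  rw [mul_sum]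
  apply sum_congr rfl
  intro i hi
  rw [mem_range] at hi
  have h1 := ph_refl (2 * h) i (by omega)
  have e : ((2 * h + 1 : ℕ) : ℚ) = (p : ℚ) := by rw [hP]; push_cast; ring
  rw [e, ph_A (p := p) (1 / 2 - (p : ℚ)) (-2) i (by ring), show 2 * h + 1 = h + 1 + h by ring, ph_top (p := p) hN,
    show h + 1 + h - i = 2 * h + 1 - i by omega] at h1
  have ha := nA (p := p) hN h5 m2 (n := i) (by omega)
  have hsq := sgn2 (p := p) hN h5 i
  have hph := ph_ne half_pos' i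
  have hpi : ph (1 / 2) (2 * h + 1 - i) = ph (1 / 2) h * ((p : ℚ) / 2) * ((h.factorial : ℚ) * pB p (1 / 2) h) * (-1) ^ i /
      (ph (1 / 2) i * pA p (-2) i) := by
    rw [eq_div_iff (mul_ne_zero hph ha), h1]
    linear_combination (-(ph (1 / 2) (2 * h + 1 - i) * (ph (1 / 2) i * pA p (-2) i))) * hsq
  unfold t2 s
  rw [hpi, c_ph, c_ph, one_div_pow]
  have h3 : (h.factorial : ℚ) ≠ 0 := by positivity
  have h4 : (i.factorial : ℚ) ≠ 0 := by positivity
  field_simp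
  linear_combination (ph (1 / 2) h * pB p (1 / 2) h) * hsq

lemma pBB : I p 3 (pB p (-1 / 2) h * pB p (1 / 2) h - 1) := by
  have h1 := prod_one_sub (p := p) (m := 2) (fun j => ((p : ℚ) / (2 * ((j : ℚ) + 1))) ^ 2) h (fun j hj => by
    have hh := half_m (p := p) h5
    have : ((p : ℚ) / (2 * ((j : ℚ) + 1))) ^ 2 = (p : ℚ) ^ 2 * ((1 / 2) * ((j : ℚ) + 1)⁻¹) ^ 2 := by
      have : (j : ℚ) + 1 ≠ 0 := by positivity
      field_simp
    rw [this]
    exact (I.p_pow 2).mul_mem ((Zp p).pow_mem ((Zp p).mul_mem hh (u_succ hN (by omega)).inv) 2))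
  have h2 := h1.mono (show 3 ≤ 2 * 2 by norm_num)
  have h3 := I.cst_mul h5 (1 / 4) 12 (by norm_num) (Z2_h (p := p) hN h5)
  have h4 := h2.sub h3
  convert h4 using 1
  have e1 : pB p (-1 / 2) h * pB p (1 / 2) h = ∏ i ∈ range h, (1 - ((p : ℚ) / (2 * ((i : ℚ) + 1))) ^ 2) := by
    unfold pB
    rw [← prod_mul_distrib]
    apply prod_congr rfl
    intro j _
    have : (j : ℚ) + 1 ≠ 0 := by positivity
    field_simp
    ring
  have e2 : ∑ i ∈ range h, ((p : ℚ) / (2 * ((i : ℚ) + 1))) ^ 2 = 1 / 4 * Z (Nq h) 2 h := by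
    rw [Nq_p hN]
    unfold Z z
    rw [mul_sum]
    apply sum_congr rfl
    intro j _
    have : (j : ℚ) + 1 ≠ 0 := by positivity
    field_simp
    ring
  rw [e1, e2]
  ring

lemma c_pB : c h = (-1) ^ h * pB p (-1 / 2) h := by
  rw [c_sign (p := p) hN h5]
  unfold DD pB z
  congr 1
  rw [Nq_p hN]
  exact prod_congr rfl fun j _ => by ring

lemma kap : I p 3 ((c h / 4 ^ h) * pB p (1 / 2) h - (-1) ^ h * (4 ^ h)⁻¹) := by
  have h1 := I.mem_mul ((Zp p).mul_mem (sgn_U (p := p) hN h5 h).mem (u_four (p := p) h5 h).inv) (pBB (p := p) hN h5)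
  convert h1 using 1
  rw [c_pB (p := p) hN h5]
  ring

lemma S2_val : I p 4 (∑ n ∈ range (h + 1), (6 * (n : ℚ) + 1) * c n ^ 3 / (-8) ^ n -
    ((-1) ^ h * ep h * p + (-1) ^ h * (p : ℚ) ^ 3 * Zs h)) := by
  have hu := two_ep (p := p) hN h5
  have hsq := ep_sq (p := p) hN h5
  have hpn' := hpn hN
  have u2 : U p (2 : ℚ) := by exact_mod_cast U.natlt (p := p) (n := 2) (by norm_num) (by omega)
  have uh := u2.pow h
  set u := (2 : ℚ) ^ h with hu'
  have h4 : (4 : ℚ) ^ h = u ^ 2 := by rw [hu', ← pow_mul, mul_comm, pow_mul]; norm_num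
  have hh : (1 / 2 : ℚ) ^ h = u⁻¹ := by rw [hu', one_div, inv_pow]
  have hT := Ts_val (p := p) hN h5
  rw [hh, ← hu'] at hT
  have hk := kap (p := p) hN h5
  rw [h4] at hk
  have hne := uh.ne
  have mep : ep h ∈ Zp p := by
    have := (Zp p).sub_mem uh.mem hu.mem
    have e : u - (u - ep h) = ep h := by ring
    rwa [e] at this
  have mZ : Zs h ∈ Zp p := Subring.sum_mem _ fun i hi => by
    rw [mem_range] at hi
    exact (Zp p).mul_mem (cw_mem hN h5 i) (O2_mem hN h5 (by omega))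
  have m3 : (3 : ℚ) ∈ Zp p := by exact_mod_cast nat_mem (p := p) 3
  have mT : Ts p h ∈ Zp p := by
    have := (Zp p).add_mem hT.mem (show (3 * u - 3 * ep h + u⁻¹ + (p : ℚ) ^ 2 * Zs h) ∈ Zp p from
      (Zp p).add_mem ((Zp p).add_mem ((Zp p).sub_mem ((Zp p).mul_mem m3 uh.mem) ((Zp p).mul_mem m3 mep)) uh.inv)
        ((Zp p).mul_mem ((Zp p).pow_mem (nat_mem p) 2) mZ))
    rwa [sub_add_cancel] at this
  have hs := sgn_U (p := p) hN h5 h
  have k1 := Icongr_mul hk hT mT ((Zp p).mul_mem hs.mem (uh.pow 2).inv)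
  -- exact cube
  have k2 : I p 3 ((-1) ^ h * (u ^ 2)⁻¹ * (3 * u - 3 * ep h + u⁻¹) - (-1) ^ h * ep h) := by
    have e : (-1) ^ h * (u ^ 2)⁻¹ * (3 * u - 3 * ep h + u⁻¹) - (-1) ^ h * ep h =
        (u - ep h) ^ 3 * (-((-1) ^ h * (ep h * (u⁻¹) ^ 3))) := by
      field_simp
      linear_combination (-3 * u ^ 2 - 1 + 3 * u * ep h - ep h ^ 2) * hsq
    rw [e]
    have := hu.pow 3
    exact this.mul_mem ((Zp p).neg_mem ((Zp p).mul_mem hs.mem ((Zp p).mul_mem mep ((Zp p).pow_mem uh.inv 3))))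
  have k3 : I p 3 ((-1) ^ h * (u ^ 2)⁻¹ * ((p : ℚ) ^ 2 * Zs h) - (-1) ^ h * ((p : ℚ) ^ 2 * Zs h)) := by
    have f1 := (M.one_of (k := 0) (four_one (p := p) hN h5)).inv.i
    rw [h4, inv_one, zero_add] at f1
    have := ((I.p_pow (p := p) 2).mul f1).mul_mem ((Zp p).mul_mem mZ hs.mem)
    convert this using 1
    ring
  have := (I.p_pow (p := p) 1).mul ((k1.add k2).add k3)
  rw [S2_exact (p := p) hN h5, h4]
  convert this using 1
  ring

/-! ### evaluation of `Zs` -/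

lemma O2_refl {m : ℕ} (hm : m ≤ h) : I p 1 (O2 m + (H 2 (h - m) - H 2 h) / 4) := by
  have hP := P_eq (p := p) hN
  have hpn' := hpn hN
  induction m with
  | zero => rw [O2_zero, Nat.sub_zero, sub_self, zero_div, add_zero]; exact I.zero 1
  | succ m ih =>
    have ih' := ih (by omega)
    obtain ⟨k, hk⟩ : ∃ k, h = k + (m + 1) := ⟨h - (m + 1), by omega⟩
    rw [show h - m = k + 1 by omega, H_succ] at ih'
    rw [show h - (m + 1) = k by omega, O2_succ]
    have u1 := u_odd (p := p) hN (i := m) (by omega)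
    have hM : M p 0 (-(2 * ((k : ℚ) + 1))) (2 * (m : ℚ) + 1) := by
      refine ⟨u1, ?_⟩
      have e : -(2 * ((k : ℚ) + 1)) - (2 * (m : ℚ) + 1) = p ^ 1 * (-1) := by
        rw [hP, hk]; push_cast; ring
      rw [e]
      exact (I.p_pow 1).mul_mem (mm1 hN h5)
    have := (hM.pow 2).inv.i
    rw [zero_add] at this
    have := ih'.sub this
    convert this using 1
    have a1 : (k : ℚ) + 1 ≠ 0 := by positivity
    have a2 : 2 * (m : ℚ) + 1 ≠ 0 := by positivity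
    field_simp
    ring

lemma H2_mem {i : ℕ} (hi : i ≤ 2 * h) : H 2 i ∈ Zp p := by
  unfold H
  exact Subring.sum_mem _ fun j hj => by
    rw [mem_range] at hj
    rw [one_div]
    exact ((u_succ hN (by omega)).pow 2).inv

lemma L_c {k : ℕ} (hk : k ≤ h) : I p 1 (L h k - c k ^ 2) := by
  have e : L h k = c k ^ 2 * pC (p : ℚ) k := by
    unfold L
    rw [pC_AA, ← ch_A (p := p) hN h5]
    have := b_A (p := p) hN h5 (i := k)
    unfold b at this
    rw [← this]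
    ring
  rw [e]
  have a := (F1A (p := p) hN (Zp p).one_mem hk).M0.mul (F1A (p := p) hN (mm1 hN h5) hk).M0
  rw [← pC_AA, one_mul] at a
  have := I.mem_mul ((Zp p).pow_mem (c_mem h5 k) 2) a.i
  rw [zero_add] at this
  convert this using 1
  ring

lemma SL_c (f : ℕ → ℚ) (hf : ∀ i ≤ h, f i ∈ Zp p) : I p 1 (SL f h - ∑ k ∈ range (h + 1), c k ^ 2 * f k) := by
  unfold SL
  rw [← sum_sub_distrib]
  apply I.sum
  intro k hk
  rw [mem_range] at hk
  rw [← sub_mul]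
  exact (L_c hN h5 (by omega)).mul_mem (hf k (by omega))

lemma c_refl2 {i : ℕ} (hi : i ≤ h) : I p 1 (c (h - i) ^ 2 - c i ^ 2) := by
  rw [c_refl (p := p) hN h5 hi]
  have a := (((c_one (p := p) hN h5).mul (M.refl 0 (u_c (p := p) hN hi))).mul
    ((MA hN h5 (mm1 hN h5) hi).div (MB hN h5 (mmh hN h5) (n := i) (by omega)))).pow 2
  have := a.i
  rw [zero_add] at this
  convert this using 1
  have hs := sgn2 (p := p) hN h5 h
  linear_combination (c i ^ 2) * hs

lemma sg_Al : I p 1 (sg h + 1 / 4 * Al h) := by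
  have hpn' := hpn hN
  have h1 := SL_c (p := p) hN h5 O2 (fun i hi => O2_mem hN h5 hi)
  have h2 := SL_c (p := p) hN h5 (H 2) (fun i hi => H2_mem hN h5 (by omega))
  rw [SL_O2] at h1
  rw [SL_H2] at h2
  have h3 : I p 1 (∑ k ∈ range (h + 1), c k ^ 2 * O2 k + 1 / 4 * ∑ k ∈ range (h + 1), c k ^ 2 * H 2 k) := by
    rw [← sum_range_reflect, mul_sum, ← sum_add_distrib]
    apply I.sum
    intro k hk
    rw [mem_range] at hk
    rw [show h + 1 - 1 - k = h - k by omega]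
    have a := c_refl2 (p := p) hN h5 (i := k) (by omega)
    have b := O2_refl (p := p) hN h5 (m := h - k) (by omega)
    rw [show h - (h - k) = k by omega] at b
    have c1 := I.mem_mul (cst' h5 (1 / 4) 12 (by norm_num)) (H2h (p := p) hN h5)
    have k1 := a.mul_mem (O2_mem (p := p) hN h5 (i := h - k) (by omega))
    have k2 := I.mem_mul ((Zp p).pow_mem (c_mem (p := p) h5 k) 2) (b.add c1)
    have := k1.add k2
    convert this using 1
    ring
  have hs := sgn_U (p := p) hN h5 h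
  have mh := half_m (p := p) h5
  have m14 : (1 / 4 : ℚ) ∈ Zp p := cst' h5 (1 / 4) 12 (by norm_num)
  have k := (h1.add (I.mem_mul m14 h2)).add h3
  have := (I.mem_mul (mmh (p := p) hN h5) k).mul_mem hs.mem
  convert this using 1
  have hsq := sgn2 (p := p) hN h5 h
  linear_combination (-(sg h + 1 / 4 * Al h)) * hsq

lemma Zs_sg : I p 1 (Zs h + (1 / 2) ^ h * (1 / 2 * sg h)) := by
  have hpn' := hpn hN
  have mh := half_m (p := p) h5
  have h1 := Z_val h
  have k1 : I p 1 (Zs h - ∑ i ∈ range (h + 1), b h i * ((1 / 2) ^ i * O2 i)) := by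
    unfold Zs cw
    rw [← sum_sub_distrib]
    apply I.sum
    intro i hi
    rw [mem_range] at hi
    have := (c_b1 (p := p) hN h5 (j := i) (by omega)).mul_mem ((Zp p).mul_mem ((Zp p).pow_mem mh i) (O2_mem hN h5 (i := i) (by omega)))
    convert this using 1
    ring
  have k2 : I p 1 (∑ m ∈ range h, (h.choose (m + 1) : ℚ) * (w m / 2 * O (m + 1)) - 1 / 2 * sg h) := by
    unfold sg
    rw [mul_sum, ← sum_sub_distrib]
    apply I.sum
    intro m hm
    rw [mem_range] at hm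
    have a := c_b1 (p := p) hN h5 (j := m + 1) (by omega)
    have hs := sgn_U (p := p) hN h5 (m + 1)
    have := ((I.mem_mul hs.mem a).mul_mem ((Zp p).mul_mem (u_w (p := p) hN hm).mem ((Zp p).mul_mem mh (O_mem hN h5 (i := m + 1) (by omega))))).neg
    convert this using 1
    have hsq := sgn2 (p := p) hN h5 (m + 1)
    have hw := w_c m
    unfold b
    have a2 : (m : ℚ) + 1 ≠ 0 := by positivity
    have hw2 : w m * c (m + 1) = 1 / ((m : ℚ) + 1) := by
      rw [eq_div_iff a2]; linear_combination hw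
    have e1 : (-1 : ℚ) ^ (m + 1) * O (m + 1) / ((m : ℚ) + 1) = (-1) ^ (m + 1) * O (m + 1) * (w m * c (m + 1)) := by
      rw [hw2]; ring
    rw [e1]
    linear_combination (-((h.choose (m + 1) : ℚ) * (w m / 2 * O (m + 1)))) * hsq
  rw [h1] at k1
  have := k1.add (I.mem_mul ((Zp p).neg_mem ((Zp p).pow_mem mh h)) k2)
  convert this using 1
  ring

lemma Zs_E : I p 1 (Zs h - 1 / 4 * (ep h * (-1) ^ h * (Pool.Agent.R856.eulerE (p - 3) : ℚ))) := by
  have h1 := Zs_sg (p := p) hN h5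
  have h2 := sg_Al (p := p) hN h5
  have h3 := PE.euler_al (p := p) hN h5
  have hu := two_ep (p := p) hN h5
  have hsq := ep_sq (p := p) hN h5
  have hpn' := hpn hN
  have u2 : U p (2 : ℚ) := by exact_mod_cast U.natlt (p := p) (n := 2) (by norm_num) (by omega)
  have uh := u2.pow h
  have mh := half_m (p := p) h5
  have mep : ep h ∈ Zp p := by
    have := (Zp p).sub_mem uh.mem hu.mem
    have e : (2 : ℚ) ^ h - ((2 : ℚ) ^ h - ep h) = ep h := by ring
    rwa [e] at this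
  have hne := uh.ne
  -- (1/2)^h ≡ ep
  have h4 : I p 1 ((1 / 2 : ℚ) ^ h - ep h) := by
    have e : (1 / 2 : ℚ) ^ h - ep h = ((2 : ℚ) ^ h - ep h) * (-(((2 : ℚ) ^ h)⁻¹ * ep h)) := by
      rw [one_div, inv_pow]
      field_simp
      linear_combination (-1 : ℚ) * hsq
    rw [e]
    exact hu.mul_mem ((Zp p).neg_mem ((Zp p).mul_mem uh.inv mep))
  have m14 : (1 / 4 : ℚ) ∈ Zp p := cst' h5 (1 / 4) 12 (by norm_num)
  have m18' : (1 / 8 : ℚ) ∈ Zp p := m18 (p := p) hN h5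
  have mE : (Pool.Agent.R856.eulerE (p - 3) : ℚ) ∈ Zp p := int_mem _
  have hs := sgn_U (p := p) hN h5 h
  have mhh := (Zp p).pow_mem mh h
  have k1 := I.mem_mul ((Zp p).mul_mem mhh mh) h2
  have k2 := I.mem_mul ((Zp p).mul_mem mhh m18') h3
  have k3 := h4.mul_mem ((Zp p).mul_mem m14 ((Zp p).mul_mem hs.mem mE))
  have := ((h1.sub k1).add k2).add k3
  convert this using 1
  unfold Al PE.Al
  ring

/-- the second congruence -/
lemma second' : I p 4 (∑ n ∈ range (h + 1), (6 * (n : ℚ) + 1) * c n ^ 3 / (-8) ^ n -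
    ((-1) ^ h * ep h * p + ep h * (1 / 4 * (Pool.Agent.R856.eulerE (p - 3) : ℚ)) * (p : ℚ) ^ 3)) := by
  have h1 := S2_val (p := p) hN h5
  have h2 := ((I.p_pow (p := p) 3).mul (Zs_E (p := p) hN h5)).mul_mem (sgn_U (p := p) hN h5 h).mem
  have := h1.add h2
  convert this using 1
  have hsq := sgn2 (p := p) hN h5 h
  linear_combination ((ep h * (1 / 4 * (Pool.Agent.R856.eulerE (p - 3) : ℚ)) * (p : ℚ) ^ 3)) * hsq

/-- half-range part of the third sum -/
lemma third_half : I p 4 (∑ n ∈ range (h + 1), (42 * (n : ℚ) + 5) * c n ^ 3 / 64 ^ n - 5 * (-1) ^ h * p) := by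
  have hpn' := hpn hN
  have h1 := Pool.Agent.R856.FT.main8 (p := p) (le_refl 1) hN (by omega)
  have h2 := Pool.Agent.Helper857.W.H3 (p := p) (le_refl 1) hN
  have h3 := (h1.mono (show 3 ≤ 4 by norm_num)).sub h2
  rw [add_sub_cancel_right] at h3
  have h4 : I p 3 ((-1) ^ h * Pool.Agent.R856.FT.TT h - 5) := by
    have := I.mem_mul (m18 (p := p) hN h5) h3
    convert this using 1
    ring
  have h5' := ((I.p_pow (p := p) 1).mul h4).mul_mem (sgn_U (p := p) hN h5 h).mem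
  have hP := P_eq (p := p) hN
  have e1 : ∑ n ∈ range (h + 1), (42 * (n : ℚ) + 5) * c n ^ 3 / 64 ^ n = p * Pool.Agent.R856.FT.TT h := by
    unfold Pool.Agent.R856.FT.TT Pool.Agent.R856.FT.t
    have hp0 : (2 * (h : ℚ) + 1) ≠ 0 := by positivity
    rw [hP]
    push_cast
    rw [mul_div_assoc', mul_comm, mul_div_assoc, div_self hp0, mul_one]
    apply sum_congr rfl
    intro n _
    unfold c
    rw [Nat.centralBinom_eq_two_mul_choose, div_pow, ← pow_mul, mul_comm n 3, pow_mul]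
    have : (4096 : ℚ) ^ n = (4 ^ 3) ^ n * 64 ^ n := by rw [← mul_pow]; norm_num
    rw [this]
    field_simp
  rw [e1]
  convert h5' using 1
  have hsq := sgn2 (p := p) hN h5 h
  linear_combination (-(p * Pool.Agent.R856.FT.TT h)) * hsq

end

end Pool.Agent.Helper88.QH
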